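import Pool.Agent.MP_e2b804_an.Kernel
open Real InnerProductSpace Laplacian
open scoped ContDiff Topology

noncomputable section
namespace Pool.Agent.MP_e2b804_an

section
variable {E : Type*} [NormedAddCommGroup E] [InnerProductSpace ℝ E]

/-- differential of a radial function -/
theorem hasFDerivAt_radial {g g1 : ℝ → ℝ} (hg : ∀ s, 0 ≤ s → HasDerivAt g (g1 s) s) (a x : E) :
    HasFDerivAt (fun y : E => g (‖y - a‖ ^ 2)) ((2 * g1 (‖x - a‖ ^ 2)) • innerSL ℝ (x - a)) x := by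
  have h0 : HasFDerivAt (fun y : E => y - a) (ContinuousLinearMap.id ℝ E) x :=
    (hasFDerivAt_id x).sub_const a
  have h1 : HasFDerivAt (fun y : E => ‖y - a‖ ^ 2) ((2:ℝ) • innerSL ℝ (x - a)) x := by
    refine h0.norm_sq.congr_fderiv ?_
    ext v
    simp
  have h2 : HasFDerivAt (fun y : E => g (‖y - a‖ ^ 2))
      (g1 (‖x - a‖ ^ 2) • (2:ℝ) • innerSL ℝ (x - a)) x :=
    (hg (‖x - a‖ ^ 2) (by positivity)).comp_hasFDerivAt x h1
  refine h2.congr_fderiv ?_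
  rw [smul_smul, mul_comm]

theorem fderiv_radial {g g1 : ℝ → ℝ} (hg : ∀ s, 0 ≤ s → HasDerivAt g (g1 s) s) (a : E) :
    fderiv ℝ (fun y : E => g (‖y - a‖ ^ 2)) =
      fun x => (2 * g1 (‖x - a‖ ^ 2)) • innerSL ℝ (x - a) := by
  ext1 x
  exact (hasFDerivAt_radial hg a x).fderiv

theorem fderiv_fderiv_radial {g g1 g2 : ℝ → ℝ} (hg : ∀ s, 0 ≤ s → HasDerivAt g (g1 s) s)
    (hg1 : ∀ s, 0 ≤ s → HasDerivAt g1 (g2 s) s) (a x v : E) :
    fderiv ℝ (fderiv ℝ (fun y : E => g (‖y - a‖ ^ 2))) x v v =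
      4 * g2 (‖x - a‖ ^ 2) * (inner ℝ (x - a) v) ^ 2 + 2 * g1 (‖x - a‖ ^ 2) * ‖v‖ ^ 2 := by
  rw [fderiv_radial hg]
  have h1 : HasFDerivAt (fun y : E => 2 * g1 (‖y - a‖ ^ 2))
      ((2:ℝ) • ((2 * g2 (‖x - a‖ ^ 2)) • innerSL ℝ (x - a))) x := by
    have := (hasFDerivAt_radial hg1 a x).const_mul 2
    exact this
  have h2 : HasFDerivAt (fun y : E => (innerSL ℝ (y - a) : E →L[ℝ] ℝ)) (innerSL ℝ) x := by
    have h0 : HasFDerivAt (fun y : E => y - a) (ContinuousLinearMap.id ℝ E) x :=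
      (hasFDerivAt_id x).sub_const a
    exact (innerSL ℝ (E := E)).hasFDerivAt.comp x h0
  have h3 : HasFDerivAt (fun y : E => (2 * g1 (‖y - a‖ ^ 2)) • (innerSL ℝ (y - a) : E →L[ℝ] ℝ))
    _ x := h1.smul h2
  rw [h3.fderiv]
  have h4 : (innerSL ℝ v : E →L[ℝ] ℝ) v = ‖v‖ ^ 2 := real_inner_self_eq_norm_sq v
  simp only [add_apply, smul_apply,
    ContinuousLinearMap.smulRight_apply, innerSL_apply_apply, smul_eq_mul]
  rw [h4]
  ring

theorem laplacian_eq_fderiv [FiniteDimensional ℝ E] {F : Type*} [NormedAddCommGroup F]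
    [NormedSpace ℝ F] (f : E → F) (x : E) :
    (Δ f) x = ∑ i, fderiv ℝ (fderiv ℝ f) x ((stdOrthonormalBasis ℝ E) i)
      ((stdOrthonormalBasis ℝ E) i) := by
  rw [laplacian_eq_iteratedFDeriv_stdOrthonormalBasis]
  simp [iteratedFDeriv_two_apply]

theorem laplacian_radial [FiniteDimensional ℝ E] {g g1 g2 : ℝ → ℝ}
    (hg : ∀ s, 0 ≤ s → HasDerivAt g (g1 s) s)
    (hg1 : ∀ s, 0 ≤ s → HasDerivAt g1 (g2 s) s) (a : E) :
    (Δ (fun y : E => g (‖y - a‖ ^ 2))) = fun x =>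
      4 * g2 (‖x - a‖ ^ 2) * ‖x - a‖ ^ 2 + 2 * (Module.finrank ℝ E) * g1 (‖x - a‖ ^ 2) := by
  ext1 x
  rw [laplacian_eq_fderiv]
  have h : ∀ i, fderiv ℝ (fderiv ℝ (fun y : E => g (‖y - a‖ ^ 2))) x
      ((stdOrthonormalBasis ℝ E) i) ((stdOrthonormalBasis ℝ E) i) =
      4 * g2 (‖x - a‖ ^ 2) * (inner ℝ (x - a) ((stdOrthonormalBasis ℝ E) i)) ^ 2
        + 2 * g1 (‖x - a‖ ^ 2) := by
    intro i
    rw [fderiv_fderiv_radial hg hg1]
    simp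
  simp only [h]
  rw [Finset.sum_add_distrib, ← Finset.mul_sum]
  have h2 : ∑ i, (inner ℝ (x - a) ((stdOrthonormalBasis ℝ E) i) : ℝ) ^ 2 = ‖x - a‖ ^ 2 := by
    have := (stdOrthonormalBasis ℝ E).sum_sq_norm_inner_left (x - a)
    simpa using this
  rw [h2]
  simp
  ring

/-- the bi-Laplacian of the logarithmic kernel in dimension four -/
theorem laplacian_laplacian_L [FiniteDimensional ℝ E] (h4 : Module.finrank ℝ E = 4) {δ : ℝ}
    (hδ : 0 < δ) (a : E) :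
    (Δ (Δ (fun y : E => L δ (y - a)))) = fun x => -96 * δ ^ 4 / (‖x - a‖ ^ 2 + δ ^ 2) ^ 4 := by
  have hp : ∀ s : ℝ, 0 ≤ s → 0 < s + δ ^ 2 := fun s hs => by positivity
  have e1 : ∀ s : ℝ, HasDerivAt (fun s : ℝ => s + δ ^ 2) 1 s := fun s => by
    simpa using (hasDerivAt_id s).add_const (δ ^ 2)
  have d1 : ∀ s : ℝ, 0 ≤ s → HasDerivAt (fun s => Real.log (s + δ ^ 2)) ((s + δ ^ 2)⁻¹) s := by
    intro s hs
    have := (e1 s).log (hp s hs).ne'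
    simpa using this
  have d2 : ∀ s : ℝ, 0 ≤ s → HasDerivAt (fun s => (s + δ ^ 2)⁻¹) (-((s + δ ^ 2) ^ 2)⁻¹) s := by
    intro s hs
    have := (e1 s).inv (hp s hs).ne'
    rw [neg_div, one_div] at this
    exact this
  have l1 : (Δ (fun y : E => L δ (y - a))) = fun x =>
      (fun s => 4 * (s + δ ^ 2)⁻¹ + 4 * δ ^ 2 * ((s + δ ^ 2) ^ 2)⁻¹) (‖x - a‖ ^ 2) := by
    have := laplacian_radial (E := E) d1 d2 a
    rw [h4] at this
    unfold L
    rw [this]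
    ext1 x
    have := hp (‖x - a‖ ^ 2) (by positivity)
    field_simp
    norm_num
    ring
  have d3 : ∀ s : ℝ, 0 ≤ s → HasDerivAt (fun s => 4 * (s + δ ^ 2)⁻¹ + 4 * δ ^ 2 * ((s + δ ^ 2) ^ 2)⁻¹)
      (-4 * ((s + δ ^ 2) ^ 2)⁻¹ - 8 * δ ^ 2 * ((s + δ ^ 2) ^ 3)⁻¹) s := by
    intro s hs
    have hps := hp s hs
    have h1 := (d2 s hs).const_mul 4
    have h2 := (((e1 s).pow 2).inv (pow_pos hps 2).ne').const_mul (4 * δ ^ 2)
    refine (h1.add h2).congr_deriv ?_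
    simp only [Pi.pow_apply]
    field_simp
    push_cast
    ring
  have d4 : ∀ s : ℝ, 0 ≤ s → HasDerivAt (fun s => -4 * ((s + δ ^ 2) ^ 2)⁻¹ - 8 * δ ^ 2 * ((s + δ ^ 2) ^ 3)⁻¹)
      (8 * ((s + δ ^ 2) ^ 3)⁻¹ + 24 * δ ^ 2 * ((s + δ ^ 2) ^ 4)⁻¹) s := by
    intro s hs
    have hps := hp s hs
    have h1 := (((e1 s).pow 2).inv (pow_pos hps 2).ne').const_mul (-4)
    have h2 := (((e1 s).pow 3).inv (pow_pos hps 3).ne').const_mul (8 * δ ^ 2)
    refine (h1.sub h2).congr_deriv ?_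
    simp only [Pi.pow_apply]
    field_simp
    push_cast
    ring
  rw [l1, laplacian_radial d3 d4, h4]
  ext1 x
  have := hp (‖x - a‖ ^ 2) (by positivity)
  field_simp
  norm_num
  ring

end

end Pool.Agent.MP_e2b804_an
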