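import Pool.Agent.MP_e2b804_an.Ratio
open Real MeasureTheory Metric Filter Set
open scoped Topology ContDiff

noncomputable section
namespace Pool.Agent.MP_e2b804_an

variable (A : Finset E4)

theorem v_small (hA : ∀ a ∈ A, a 0 = -1) (r : ℝ) {κ : ℝ} (hκ : 0 < κ) :
    ∀ᶠ t : ℝ in atTop, ∀ x, ‖x‖ ≤ r → |v A t x| ≤ κ := by
  have h := v_bound A hA (η := κ / (1 + Real.log (1 + |r|))) (by
    have : 0 ≤ Real.log (1 + |r|) := Real.log_nonneg (by linarith [abs_nonneg r])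
    positivity)
  filter_upwards [h] with t ht x hx
  refine (ht x).trans ?_
  have h0 : 0 ≤ Real.log (1 + |r|) := Real.log_nonneg (by linarith [abs_nonneg r])
  have h1 : Real.log (1 + ‖x‖) ≤ Real.log (1 + |r|) := by
    apply Real.log_le_log (by positivity)
    have := le_abs_self r
    linarith
  rw [div_mul_eq_mul_div, div_le_iff₀ (by positivity)]
  gcongr

theorem V_tendsto (hA : ∀ a ∈ A, a 0 = -1) {K : Set E4} (hK : IsCompact K) (hKO : K ⊆ Om) {η : ℝ}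
    (hη : 0 < η) : ∀ᶠ t : ℝ in atTop, ∀ x ∈ K, |V A t x - 6| ≤ η := by
  obtain ⟨r, d, hd, hr0, hKr⟩ := compact_margin hK hKO
  obtain ⟨κ, hκ, hκ2⟩ : ∃ κ : ℝ, 0 < κ ∧ Real.exp (4 * κ) - 1 ≤ min 1 (η / 12) := by
    have h : ContinuousAt (fun s : ℝ => Real.exp (4 * s) - 1) 0 := by fun_prop
    have h2 := h.tendsto
    simp at h2
    have h2' : Tendsto (fun s : ℝ => Real.exp (4 * s) - 1) (𝓝[>] 0) (𝓝 0) :=
      h2.mono_left nhdsWithin_le_nhds
    have h3 := h2'.eventually (gt_mem_nhds (by positivity : (0:ℝ) < min 1 (η / 12)))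
    obtain ⟨s, hs, hs2⟩ := (h3.and self_mem_nhdsWithin).exists
    exact ⟨s, hs2, hs.le⟩
  filter_upwards [ratio A hA hK hKO (by positivity : 0 < η / 4), v_small A hA r hκ] with t h1 h2 x hx
  have k1 := h1 x hx
  have k2 := h2 x (hKr x hx).2
  have hw1 : |Real.exp (-(4 * v A t x)) - 1| ≤ Real.exp (4 * κ) - 1 := by
    have := exp_four_diff (a := 0) (b := -v A t x) (ι := κ) (by simpa using k2)
    rw [mul_zero, Real.exp_zero, one_mul, abs_sub_comm] at this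
    have e : 4 * -v A t x = -(4 * v A t x) := by ring
    rwa [e] at this
  have hw2 : Real.exp (-(4 * v A t x)) ≤ 2 := by
    have := (abs_le.mp hw1).2
    have := hκ2.trans (min_le_left _ _)
    linarith
  have hE : 0 < Real.exp (4 * U A t x) := Real.exp_pos _
  have e1 : V A t x - 6 = (D2 (u A t) x - 6 * Real.exp (4 * U A t x)) * (Real.exp (4 * U A t x))⁻¹ *
      Real.exp (-(4 * v A t x)) + 6 * (Real.exp (-(4 * v A t x)) - 1) := by
    unfold V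
    have : Real.exp (-(4 * u A t x)) = (Real.exp (4 * U A t x))⁻¹ * Real.exp (-(4 * v A t x)) := by
      rw [← Real.exp_neg, ← Real.exp_add]; unfold u; congr 1; ring
    rw [this]
    field_simp
    ring
  rw [e1]
  have e2 : |(D2 (u A t) x - 6 * Real.exp (4 * U A t x)) * (Real.exp (4 * U A t x))⁻¹ *
      Real.exp (-(4 * v A t x))| ≤ η / 2 := by
    rw [abs_mul, abs_mul, abs_of_pos (inv_pos.mpr hE), abs_of_pos (Real.exp_pos _)]
    calc |D2 (u A t) x - 6 * Real.exp (4 * U A t x)| * (Real.exp (4 * U A t x))⁻¹ * Real.exp (-(4 * v A t x))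
        ≤ (η / 4 * Real.exp (4 * U A t x)) * (Real.exp (4 * U A t x))⁻¹ * 2 := by gcongr
      _ = η / 2 := by field_simp; norm_num
  have e3 : |6 * (Real.exp (-(4 * v A t x)) - 1)| ≤ η / 2 := by
    rw [abs_mul, abs_of_pos (by norm_num : (0:ℝ) < 6)]
    have := hκ2.trans (min_le_right _ _)
    linarith
  have := abs_add_le ((D2 (u A t) x - 6 * Real.exp (4 * U A t x)) * (Real.exp (4 * U A t x))⁻¹ *
      Real.exp (-(4 * v A t x))) (6 * (Real.exp (-(4 * v A t x)) - 1))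
  linarith

theorem P0_decay {δ : ℝ} (hδ : 0 < δ) {R : ℝ} (hR : 0 ≤ R) : ∃ C : ℝ, 0 < C ∧ ∀ a x : E4, ‖a‖ ≤ R →
    P0 δ (x - a) ≤ C * ((1 + ‖x‖) ^ 8)⁻¹ := by
  set M : ℝ := 2 + 2 * (1 + R) ^ 2 / δ ^ 2 with hM
  have hM0 : 0 < M := by positivity
  refine ⟨δ ^ 4 * M ^ 4, by positivity, fun a x ha => ?_⟩
  have h1 : 1 + ‖x‖ ≤ (1 + R) + ‖x - a‖ := by
    have := norm_add_le (x - a) a
    simp at this
    linarith
  have h0 := norm_nonneg (x - a)
  have h0' := norm_nonneg x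
  have h2 : (1 + ‖x‖) ^ 2 ≤ M * (‖x - a‖ ^ 2 + δ ^ 2) := by
    have h3 : (1 + ‖x‖) ^ 2 ≤ ((1 + R) + ‖x - a‖) ^ 2 := by gcongr
    have h4 : M * (‖x - a‖ ^ 2 + δ ^ 2) = 2 * ‖x - a‖ ^ 2 + 2 * δ ^ 2
        + 2 * (1 + R) ^ 2 / δ ^ 2 * ‖x - a‖ ^ 2 + 2 * (1 + R) ^ 2 := by
      rw [hM]; field_simp; ring
    rw [h4]
    have h5 : 0 ≤ 2 * (1 + R) ^ 2 / δ ^ 2 * ‖x - a‖ ^ 2 := by positivity
    nlinarith [sq_nonneg ((1 + R) - ‖x - a‖), sq_nonneg δ]
  unfold P0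
  rw [← div_eq_mul_inv, div_le_div_iff₀ (by positivity) (by positivity)]
  calc δ ^ 4 * (1 + ‖x‖) ^ 8 = δ ^ 4 * ((1 + ‖x‖) ^ 2) ^ 4 := by ring
    _ ≤ δ ^ 4 * (M * (‖x - a‖ ^ 2 + δ ^ 2)) ^ 4 := by gcongr
    _ = δ ^ 4 * M ^ 4 * (‖x - a‖ ^ 2 + δ ^ 2) ^ 4 := by ring

theorem D2u_decay {t : ℝ} (ht : 0 ≤ t) : ∃ C : ℝ, 0 < C ∧ ∀ x : E4,
    |D2 (u A t) x| ≤ C * ((1 + ‖x‖) ^ 8)⁻¹ := by
  obtain ⟨Ca, hCa⟩ : ∃ C : ℝ, 0 ≤ C ∧ ∀ x : E4, ∑ a ∈ A, P0 (dl A t a) (x - a) ≤ C * ((1 + ‖x‖) ^ 8)⁻¹ := by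
    choose! Ca hCa using fun (a : E4) => P0_decay (dl_pos A t a) (norm_nonneg a)
    refine ⟨∑ a ∈ A, Ca a, Finset.sum_nonneg fun a _ => (hCa a).1.le, fun x => ?_⟩
    rw [Finset.sum_mul]
    exact Finset.sum_le_sum fun a _ => (hCa a).2 a x le_rfl
  obtain ⟨Cp, hCp0, hCp⟩ := P0_decay (ep_pos t) (norm_nonneg pt)
  obtain ⟨Cf, hCf0, hCf⟩ := P0_decay (ep_pos t) ht
  set I : ℝ := ∫ y, |f A t y| with hI
  have hI0 : 0 ≤ I := integral_nonneg fun y => abs_nonneg _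
  have hT : ∀ x : E4, |T (f A t) (P0 (ep t)) x| ≤ (I * Cf) * ((1 + ‖x‖) ^ 8)⁻¹ := by
    intro x
    unfold T
    rw [← Real.norm_eq_abs]
    refine (norm_integral_le_of_norm_le (g := fun y => |f A t y| * (Cf * ((1 + ‖x‖) ^ 8)⁻¹))
      ((integrable_f A t).abs.mul_const _) (Eventually.of_forall fun y => ?_)).trans ?_
    · rw [norm_smul, Real.norm_eq_abs, Real.norm_eq_abs, abs_of_nonneg (P0_nonneg _ _)]
      by_cases hy : ‖y‖ ≤ t
      · have := hCf y x hy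
        gcongr
      · push Not at hy
        rw [f_supp A t y hy]; simp
    · rw [integral_mul_const, ← hI]
      exact le_of_eq (by ring)
  refine ⟨96 * Ca + 96 * ((A.card : ℝ) + 1) * Cp + (6 / π ^ 2) * (I * Cf), ?_, fun x => ?_⟩
  · have := hCa.1
    positivity
  · rw [D2_u, D2_U]
    have k0 : 0 ≤ ((1 + ‖x‖) ^ 8)⁻¹ := by positivity
    have k1 := hCa.2 x
    have k2 : 0 ≤ ∑ a ∈ A, P0 (dl A t a) (x - a) := Finset.sum_nonneg fun a _ => P0_nonneg _ _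
    have k3 : |96 * ((A.card : ℝ) - 3 / 4) * P0 (ep t) (x - pt)| ≤
        96 * ((A.card : ℝ) + 1) * (Cp * ((1 + ‖x‖) ^ 8)⁻¹) := by
      rw [abs_mul, abs_of_nonneg (P0_nonneg _ _)]
      have e1 : |96 * ((A.card : ℝ) - 3 / 4)| ≤ 96 * ((A.card : ℝ) + 1) := by
        have hN : (0:ℝ) ≤ A.card := by positivity
        rw [abs_le]; constructor <;> linarith
      have := hCp pt x le_rfl
      have := P0_nonneg (ep t) (x - pt)
      gcongr
    have k4 : |(6 / π ^ 2) * T (f A t) (P0 (ep t)) x| ≤ (6 / π ^ 2) * ((I * Cf) * ((1 + ‖x‖) ^ 8)⁻¹) := by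
      rw [abs_mul, abs_of_pos (by positivity)]
      have := hT x
      gcongr
    have e1 := abs_le.mp k3
    have e2 := abs_le.mp k4
    rw [abs_le]
    constructor <;> nlinarith

theorem V_bounded (hA : ∀ a ∈ A, a 0 = -1) : ∀ᶠ t : ℝ in atTop, ∃ C : ℝ, ∀ x ∈ Om, |V A t x| ≤ C := by
  filter_upwards [U_lower A, v_bound A hA (by norm_num : (0:ℝ) < 1/2), eventually_ge_atTop 1]
    with t h1 h2 h3
  obtain ⟨C, hC, hD⟩ := D2u_decay A (by linarith : 0 ≤ t)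
  set c : ℝ := (4/3) * t ^ 2 + t + (A.card : ℝ) * Real.log (KA A) with hc
  refine ⟨C * (Real.exp (4 * c) * 4 ^ 6 * Real.exp 2), fun x hx => ?_⟩
  unfold V
  rw [abs_mul, abs_of_pos (Real.exp_pos _)]
  have hx0 := norm_nonneg x
  have k1 := h1 x hx
  have k2 := (abs_le.mp (h2 x)).1
  have he := ep_pos t
  have he1 := ep_le_one (t := t)
  have k3 : -(4 * u A t x) ≤ 4 * c + 3 * L (ep t) (x - pt) + 2 + 2 * Real.log (1 + ‖x‖) := by
    unfold u; rw [hc]; linarith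
  have k4 : 3 * L (ep t) (x - pt) ≤ 6 * Real.log (4 * (1 + ‖x‖)) := by
    rw [L_eq]
    have e1 : ‖x - pt‖ ≤ ‖x‖ + 3 := by
      have := norm_sub_le x pt; rw [norm_pt] at this; linarith
    have e2 : ‖x - pt‖ ^ 2 + ep t ^ 2 ≤ (4 * (1 + ‖x‖)) ^ 2 := by
      have e3 : ‖x - pt‖ ^ 2 ≤ (‖x‖ + 3) ^ 2 := by gcongr
      have e4 : ep t ^ 2 ≤ 1 := by nlinarith
      nlinarith
    have e3 : Real.log (‖x - pt‖ ^ 2 + ep t ^ 2) ≤ Real.log ((4 * (1 + ‖x‖)) ^ 2) :=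
      Real.log_le_log (by positivity) e2
    rw [Real.log_pow] at e3
    push_cast at e3
    linarith
  have k5 : Real.exp (-(4 * u A t x)) ≤ Real.exp (4 * c) * (4 * (1 + ‖x‖)) ^ 6 * Real.exp 2 * (1 + ‖x‖) ^ 2 := by
    have e1 : (4 * (1 + ‖x‖)) ^ 6 = Real.exp (6 * Real.log (4 * (1 + ‖x‖))) := by
      have : 6 * Real.log (4 * (1 + ‖x‖)) = Real.log ((4 * (1 + ‖x‖)) ^ 6) := by
        rw [Real.log_pow]; norm_num
      rw [this, Real.exp_log (by positivity)]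
    have e2 : (1 + ‖x‖) ^ 2 = Real.exp (2 * Real.log (1 + ‖x‖)) := by
      have : 2 * Real.log (1 + ‖x‖) = Real.log ((1 + ‖x‖) ^ 2) := by
        rw [Real.log_pow]; norm_num
      rw [this, Real.exp_log (by positivity)]
    rw [e1, e2, ← Real.exp_add, ← Real.exp_add, ← Real.exp_add]
    apply Real.exp_le_exp.mpr
    linarith
  calc |D2 (u A t) x| * Real.exp (-(4 * u A t x))
      ≤ (C * ((1 + ‖x‖) ^ 8)⁻¹) *
        (Real.exp (4 * c) * (4 * (1 + ‖x‖)) ^ 6 * Real.exp 2 * (1 + ‖x‖) ^ 2) := by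
        have := hD x
        gcongr
    _ = C * (Real.exp (4 * c) * 4 ^ 6 * Real.exp 2) := by
        field_simp

theorem integrable_decay : Integrable (fun x : E4 => ((1 + ‖x‖) ^ 5)⁻¹) := by
  have h := integrable_one_add_norm (E := E4) (μ := volume) (r := 5) (by simp; norm_num)
  refine h.congr (Eventually.of_forall fun x => ?_)
  have : (1 + ‖x‖) ^ (-5:ℝ) = ((1 + ‖x‖) ^ 5)⁻¹ := by
    rw [Real.rpow_neg (by positivity)]
    congr 1
    exact_mod_cast Real.rpow_natCast (1 + ‖x‖) 5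
  exact this

theorem exp_u_bound (hA : ∀ a ∈ A, a 0 = -1) : ∃ C : ℝ, 0 < C ∧ ∀ᶠ t : ℝ in atTop, ∀ x ∈ Om,
    Real.exp (4 * u A t x) ≤ 16 * Real.exp 2 * ∑ a ∈ A, P0 (dl A t a) (x - a)
      + C * ((1 + ‖x‖) ^ 5)⁻¹ := by
  obtain ⟨C, hC, h⟩ := far_two A hA
  obtain ⟨r, hr⟩ : ∃ r : ℝ, ∀ a ∈ A, ‖a‖ ≤ r := ⟨∑ a ∈ A, ‖a‖, fun a ha =>
    Finset.single_le_sum (f := fun a => ‖a‖) (fun _ _ => norm_nonneg _) ha⟩
  refine ⟨C * Real.exp 1, by positivity, ?_⟩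
  filter_upwards [h, near_one hA (by norm_num : (0:ℝ) < 1/4), v_small A hA (r + 2) (by norm_num : (0:ℝ) < 1/4),
    v_bound A hA (by norm_num : (0:ℝ) < 1/4), eventually_ge_atTop 1] with t h1 h2 h3 h4 h5 x hx
  have hs : ∀ a ∈ A, 0 ≤ P0 (dl A t a) (x - a) := fun a _ => P0_nonneg _ _
  have hs0 : 0 ≤ ∑ a ∈ A, P0 (dl A t a) (x - a) := Finset.sum_nonneg hs
  have hd0 : 0 ≤ ((1 + ‖x‖) ^ 5)⁻¹ := by positivity
  by_cases hcase : ∀ a ∈ A, 1 / t ^ 2 ≤ ‖x - a‖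
  · have k1 := h1 x hx hcase
    have k2 := (abs_le.mp (h4 x)).2
    have k3 : Real.exp (4 * v A t x) ≤ Real.exp 1 * (1 + ‖x‖) := by
      have : Real.exp 1 * (1 + ‖x‖) = Real.exp (1 + Real.log (1 + ‖x‖)) := by
        rw [Real.exp_add, Real.exp_log (by positivity)]
      rw [this]
      apply Real.exp_le_exp.mpr
      linarith
    have k4 : Real.exp (-4 * t) ≤ 1 := by rw [Real.exp_le_one_iff]; linarith
    have k5 : Real.exp (4 * u A t x) ≤ (C * Real.exp 1) * ((1 + ‖x‖) ^ 5)⁻¹ := by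
      calc Real.exp (4 * u A t x) = Real.exp (4 * U A t x) * Real.exp (4 * v A t x) := by
            rw [← Real.exp_add]; unfold u; congr 1; ring
        _ ≤ (C * 1 * ((1 + ‖x‖) ^ 6)⁻¹) * (Real.exp 1 * (1 + ‖x‖)) := by
            refine mul_le_mul (k1.trans ?_) k3 (Real.exp_pos _).le (by positivity)
            gcongr
        _ = (C * Real.exp 1) * ((1 + ‖x‖) ^ 5)⁻¹ := by field_simp
    have : 0 ≤ 16 * Real.exp 2 * ∑ a ∈ A, P0 (dl A t a) (x - a) := by positivity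
    linarith
  · push Not at hcase
    obtain ⟨a, ha, hxa⟩ := hcase
    have k0 : ‖x - a‖ ≤ 2 / t ^ 2 := by
      have : 1 / t ^ 2 ≤ 2 / t ^ 2 := by gcongr; norm_num
      linarith
    have k1 := (abs_le.mp (h2 a ha x k0)).2
    have k2 : ‖x‖ ≤ r + 2 := by
      have e1 : ‖x‖ ≤ ‖x - a‖ + ‖a‖ := by
        have := norm_add_le (x - a) a
        simpa using this
      have e2 : 1 / t ^ 2 ≤ 1 := by
        rw [div_le_one (by positivity)]; nlinarith
      have := hr a ha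
      linarith
    have k3 := (abs_le.mp (h3 x k2)).2
    have k4 : Real.exp (4 * u A t x) ≤ Real.exp 2 * (16 * P0 (dl A t a) (x - a)) := by
      rw [← exp_four_wb, ← Real.exp_add]
      apply Real.exp_le_exp.mpr
      unfold u
      linarith
    have k5 := Finset.single_le_sum hs ha
    have k6 : 0 ≤ C * Real.exp 1 * ((1 + ‖x‖) ^ 5)⁻¹ := by positivity
    have k7 : 0 < Real.exp 2 := Real.exp_pos _
    calc Real.exp (4 * u A t x) ≤ Real.exp 2 * (16 * P0 (dl A t a) (x - a)) := k4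
      _ ≤ 16 * Real.exp 2 * ∑ a ∈ A, P0 (dl A t a) (x - a) := by nlinarith
      _ ≤ _ := by linarith

theorem integrable_P0_sub {δ : ℝ} (hδ : 0 < δ) (a : E4) : Integrable (fun x => P0 δ (x - a)) :=
  (integrable_P0 hδ).comp_sub_right a

theorem integral_P0_sub {δ : ℝ} (hδ : 0 < δ) (a : E4) : ∫ x, P0 δ (x - a) = π ^ 2 / 6 := by
  rw [integral_sub_right_eq_self (fun x => P0 δ x) a, integral_P0 hδ]

theorem integral_bound (hA : ∀ a ∈ A, a 0 = -1) : ∃ C : ℝ, ∀ᶠ t : ℝ in atTop,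
    IntegrableOn (fun x => Real.exp (4 * u A t x)) Om ∧ ∫ x in Om, Real.exp (4 * u A t x) ≤ C := by
  obtain ⟨C, hC, h⟩ := exp_u_bound A hA
  refine ⟨16 * Real.exp 2 * ((A.card : ℝ) * (π ^ 2 / 6)) + C * ∫ x : E4, ((1 + ‖x‖) ^ 5)⁻¹, ?_⟩
  filter_upwards [h] with t ht
  have hI1 : Integrable (fun x : E4 => ∑ a ∈ A, P0 (dl A t a) (x - a)) :=
    integrable_finsetSum _ fun a _ => integrable_P0_sub (dl_pos A t a) a
  have hI : Integrable (fun x : E4 => 16 * Real.exp 2 * ∑ a ∈ A, P0 (dl A t a) (x - a)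
      + C * ((1 + ‖x‖) ^ 5)⁻¹) := (hI1.const_mul _).add (integrable_decay.const_mul _)
  have hmeas : MeasurableSet Om := isOpen_Om.measurableSet
  have hcont : Continuous (fun x => Real.exp (4 * u A t x)) :=
    Real.continuous_exp.comp (continuous_const.mul (contDiff_u A t).continuous)
  have hint : IntegrableOn (fun x => Real.exp (4 * u A t x)) Om := by
    refine Integrable.mono' hI.integrableOn hcont.aestronglyMeasurable ?_
    rw [ae_restrict_iff' hmeas]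
    refine Eventually.of_forall fun x hx => ?_
    rw [Real.norm_eq_abs, abs_of_pos (Real.exp_pos _)]
    exact ht x hx
  refine ⟨hint, ?_⟩
  calc ∫ x in Om, Real.exp (4 * u A t x)
      ≤ ∫ x in Om, (16 * Real.exp 2 * ∑ a ∈ A, P0 (dl A t a) (x - a) + C * ((1 + ‖x‖) ^ 5)⁻¹) :=
        setIntegral_mono_on hint hI.integrableOn hmeas ht
    _ ≤ ∫ x, (16 * Real.exp 2 * ∑ a ∈ A, P0 (dl A t a) (x - a) + C * ((1 + ‖x‖) ^ 5)⁻¹) := by
        refine setIntegral_le_integral hI (Eventually.of_forall fun x => ?_)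
        have : 0 ≤ ∑ a ∈ A, P0 (dl A t a) (x - a) := Finset.sum_nonneg fun a _ => P0_nonneg _ _
        have : 0 ≤ ((1 + ‖x‖) ^ 5)⁻¹ := by positivity
        show 0 ≤ _
        positivity
    _ = _ := by
        rw [integral_add (hI1.const_mul _) (integrable_decay.const_mul _), integral_const_mul,
          integral_const_mul, integral_finsetSum _ fun a _ => integrable_P0_sub (dl_pos A t a) a]
        simp only [integral_P0_sub (dl_pos A t _), Finset.sum_const, nsmul_eq_mul]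

end Pool.Agent.MP_e2b804_an
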