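import Pool.Agent.MP_e2b804_an.Bounds
open Real MeasureTheory Metric Filter Set
open scoped Topology ContDiff

noncomputable section
namespace Pool.Agent.MP_e2b804_an

variable (A : Finset E4)

theorem T_fP_le (hA : ∀ a ∈ A, a 0 = -1) : ∃ C : ℝ, 0 < C ∧ ∀ᶠ t : ℝ in atTop, ∀ x,
    |T (f A t) (P0 (ep t)) x| ≤ C * Real.exp (-4 * t) := by
  obtain ⟨C, hC, h⟩ := f_bound A hA
  refine ⟨C * (π ^ 2 / 6), by positivity, ?_⟩
  filter_upwards [h] with t h1 x
  have he := ep_pos t
  unfold T
  rw [← Real.norm_eq_abs]
  have hI : Integrable (fun y => (C * Real.exp (-4 * t)) * P0 (ep t) (x - y)) :=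
    ((integrable_P0 he).comp_sub_left x).const_mul _
  refine (norm_integral_le_of_norm_le hI (Eventually.of_forall fun y => ?_)).trans ?_
  · rw [norm_smul, Real.norm_eq_abs, Real.norm_eq_abs, abs_of_nonneg (P0_nonneg _ _)]
    have := h1 y
    have := P0_nonneg (ep t) (x - y)
    gcongr
  · rw [integral_const_mul, integral_sub_left_eq_self (fun y => P0 (ep t) y), integral_P0 he]
    exact le_of_eq (by ring)

theorem continuous_TfP (t : ℝ) : Continuous (T (f A t) (P0 (ep t))) := by
  have h : T (f A t) (P0 (ep t)) = fun x => (π ^ 2 / 6) * D2 (v A t) x := by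
    ext1 x
    rw [D2_v]
    have : π ≠ 0 := Real.pi_ne_zero
    field_simp
  rw [h]
  exact continuous_const.mul (contDiff_laplacian (contDiff_laplacian (contDiff_v A t))).continuous

theorem vol_ball_lt (x : E4) (r : ℝ) : (volume : Measure E4) (ball x r) < ⊤ := measure_ball_lt_top

/-- the bubbles carry their mass at their centers -/
theorem bubble_mass (a x : E4) {r : ℝ} (hr : 0 < r) (hsep : a ≠ x → r < ‖a - x‖) :
    Tendsto (fun t => ∫ y in ball x r, P0 (dl A t a) (y - a)) atTop
      (𝓝 (if a = x then π ^ 2 / 6 else 0)) := by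
  by_cases hax : a = x
  · rw [if_pos hax]
    subst hax
    have h1 : ∀ t, ∫ y in ball a r, P0 (dl A t a) (y - a) =
        π ^ 2 / 6 - ∫ z in {z : E4 | r ≤ ‖z‖}, P0 (dl A t a) z := by
      intro t
      have hd := dl_pos A t a
      have hm : MeasurableSet {z : E4 | r ≤ ‖z‖} := measurableSet_le measurable_const measurable_norm
      have e1 : ∫ y in ball a r, P0 (dl A t a) (y - a) = ∫ z in {z : E4 | r ≤ ‖z‖}ᶜ, P0 (dl A t a) z := by
        rw [← integral_indicator measurableSet_ball, ← integral_indicator hm.compl,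
          ← integral_sub_right_eq_self ({z : E4 | r ≤ ‖z‖}ᶜ.indicator (P0 (dl A t a))) a]
        congr 1
        ext1 y
        by_cases hy : y ∈ ball a r
        · rw [indicator_of_mem hy, indicator_of_mem]
          rw [mem_ball, dist_eq_norm] at hy
          simpa using hy
        · rw [indicator_of_notMem hy, indicator_of_notMem]
          rw [mem_ball, dist_eq_norm] at hy
          simpa using hy
      have e2 := integral_add_compl hm (integrable_P0 hd)
      rw [integral_P0 hd] at e2
      rw [e1]; linarith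
    simp only [h1]
    have h2 : Tendsto (fun t => ∫ z in {z : E4 | r ≤ ‖z‖}, P0 (dl A t a) z) atTop (𝓝 0) := by
      have h3 : Tendsto (fun t => 16 * (dl A t a / r) ^ 4 * (π ^ 2 / 6)) atTop (𝓝 0) := by
        have h4 := (tendsto_dl A a).div_const r
        have h5 := ((h4.pow 4).const_mul 16).mul_const (π ^ 2 / 6)
        simpa using h5
      refine squeeze_zero (fun t => ?_) (fun t => ?_) h3
      · exact integral_nonneg fun z => P0_nonneg _ _
      · exact integral_P0_tail (dl_pos A t a) hr
    simpa using h2.const_sub (π ^ 2 / 6)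
  · rw [if_neg hax]
    have hs := hsep hax
    set s : ℝ := ‖a - x‖ - r with hs'
    have hs0 : 0 < s := by rw [hs']; linarith
    have h3 : Tendsto (fun t => (volume : Measure E4).real (ball x r) * (dl A t a ^ 4 * (s⁻¹) ^ 8))
        atTop (𝓝 0) := by
      have h4 := (((tendsto_dl A a).pow 4).mul_const ((s⁻¹) ^ 8)).const_mul
        ((volume : Measure E4).real (ball x r))
      simpa using h4
    refine squeeze_zero (fun t => ?_) (fun t => ?_) h3
    · exact integral_nonneg fun z => P0_nonneg _ _
    · have hd := dl_pos A t a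
      have e1 : ∀ y ∈ ball x r, P0 (dl A t a) (y - a) ≤ dl A t a ^ 4 * (s⁻¹) ^ 8 := by
        intro y hy
        rw [mem_ball, dist_eq_norm] at hy
        have e2 : s ≤ ‖y - a‖ := by
          have e3 : ‖a - x‖ ≤ ‖y - a‖ + ‖y - x‖ := by
            have : a - x = -(y - a) + (y - x) := by abel
            rw [this]; exact (norm_add_le _ _).trans (by rw [norm_neg])
          rw [hs']; linarith
        have e4 : y - a ≠ 0 := by rw [← norm_pos_iff]; linarith
        refine (P0_le_div e4).trans ?_
        gcongr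
      calc ∫ y in ball x r, P0 (dl A t a) (y - a)
          ≤ ∫ y in ball x r, dl A t a ^ 4 * (s⁻¹) ^ 8 :=
            setIntegral_mono_on (integrable_P0_sub hd a).integrableOn
              (integrableOn_const (vol_ball_lt x r).ne) measurableSet_ball e1
        _ = _ := by rw [setIntegral_const, smul_eq_mul]

theorem concentration (hA : ∀ a ∈ A, a 0 = -1) {x : E4} {r : ℝ} (hr : 0 < r)
    (hball : ball x r ⊆ Om) (hsep : ∀ a ∈ A, a ≠ x → r < ‖a - x‖) :
    Tendsto (fun t => ∫ y in ball x r, D2 (u A t) y) atTop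
      (𝓝 (if x ∈ A then 16 * π ^ 2 else 0)) := by
  classical
  have hint : ∀ t a, IntegrableOn (fun y => P0 (dl A t a) (y - a)) (ball x r) := fun t a =>
    (integrable_P0_sub (dl_pos A t a) a).integrableOn
  have hintp : ∀ t, IntegrableOn (fun y => P0 (ep t) (y - pt)) (ball x r) := fun t =>
    (integrable_P0_sub (ep_pos t) pt).integrableOn
  have hintT : ∀ t, IntegrableOn (T (f A t) (P0 (ep t))) (ball x r) := fun t =>
    ((continuous_TfP A t).continuousOn.integrableOn_compact (isCompact_closedBall x r)).mono_set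
      ball_subset_closedBall
  have hrep : ∀ t, ∫ y in ball x r, D2 (u A t) y =
      96 * (∑ a ∈ A, ∫ y in ball x r, P0 (dl A t a) (y - a))
      - 96 * ((A.card : ℝ) - 3 / 4) * (∫ y in ball x r, P0 (ep t) (y - pt))
      + (6 / π ^ 2) * (∫ y in ball x r, T (f A t) (P0 (ep t)) y) := by
    intro t
    have e1 : ∀ y, D2 (u A t) y = 96 * (∑ a ∈ A, P0 (dl A t a) (y - a))
      - (96 * ((A.card : ℝ) - 3 / 4)) * P0 (ep t) (y - pt) + (6 / π ^ 2) * T (f A t) (P0 (ep t)) y := by
      intro y; rw [D2_u, D2_U]
    simp only [e1]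
    have i1 : IntegrableOn (fun y => ∑ a ∈ A, P0 (dl A t a) (y - a)) (ball x r) :=
      integrable_finsetSum _ fun a _ => hint t a
    have i2 : IntegrableOn (fun y => 96 * (∑ a ∈ A, P0 (dl A t a) (y - a))
      - (96 * ((A.card : ℝ) - 3 / 4)) * P0 (ep t) (y - pt)) (ball x r) :=
      (i1.const_mul _).sub ((hintp t).const_mul _)
    rw [integral_add i2 ((hintT t).const_mul _),
      integral_sub (i1.const_mul _) ((hintp t).const_mul _), integral_const_mul,
      integral_const_mul, integral_const_mul, integral_finsetSum _ fun a _ => hint t a]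
  simp only [hrep]
  have h1 : Tendsto (fun t => ∑ a ∈ A, ∫ y in ball x r, P0 (dl A t a) (y - a)) atTop
      (𝓝 (∑ a ∈ A, if a = x then π ^ 2 / 6 else 0)) :=
    tendsto_finsetSum _ fun a ha => bubble_mass A a x hr (hsep a ha)
  have h2 : Tendsto (fun t => ∫ y in ball x r, P0 (ep t) (y - pt)) atTop (𝓝 0) := by
    have h3 : Tendsto (fun t => (volume : Measure E4).real (ball x r) * (ep t ^ 4)) atTop (𝓝 0) := by
      have := (tendsto_ep.pow 4).const_mul ((volume : Measure E4).real (ball x r))
      simpa using this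
    refine squeeze_zero (fun t => integral_nonneg fun z => P0_nonneg _ _) (fun t => ?_) h3
    calc ∫ y in ball x r, P0 (ep t) (y - pt) ≤ ∫ y in ball x r, ep t ^ 4 :=
          setIntegral_mono_on (hintp t) (integrableOn_const (vol_ball_lt x r).ne) measurableSet_ball
            fun y hy => P0_ep_le (hball hy)
      _ = _ := by rw [setIntegral_const, smul_eq_mul]
  have h3 : Tendsto (fun t => ∫ y in ball x r, T (f A t) (P0 (ep t)) y) atTop (𝓝 0) := by
    obtain ⟨C, hC, hT⟩ := T_fP_le A hA
    have h4 : Tendsto (fun t => (C * Real.exp (-4 * t)) * (volume : Measure E4).real (ball x r))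
        atTop (𝓝 0) := by
      have e1 : Tendsto (fun t : ℝ => Real.exp (-4 * t)) atTop (𝓝 0) :=
        Real.tendsto_exp_atBot.comp (tendsto_id.const_mul_atTop_of_neg (by norm_num))
      have := (e1.const_mul C).mul_const ((volume : Measure E4).real (ball x r))
      simpa using this
    refine squeeze_zero_norm' ?_ h4
    filter_upwards [hT] with t ht
    exact norm_setIntegral_le_of_norm_le_const (vol_ball_lt x r) fun y _ => ht y
  have h5 := ((h1.const_mul 96).sub (h2.const_mul (96 * ((A.card : ℝ) - 3 / 4)))).add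
    (h3.const_mul (6 / π ^ 2))
  have h6 : 96 * (∑ a ∈ A, if a = x then π ^ 2 / 6 else 0) - 96 * ((A.card : ℝ) - 3 / 4) * 0
      + 6 / π ^ 2 * 0 = if x ∈ A then 16 * π ^ 2 else 0 := by
    rw [Finset.sum_ite_eq' A x]
    split_ifs <;> ring
  rw [h6] at h5
  exact h5

end Pool.Agent.MP_e2b804_an
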