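import Pool.Agent.MP_e2b804_an.Setup
open Real MeasureTheory Metric Filter Set Laplacian
open scoped Topology ContDiff

noncomputable section
namespace Pool.Agent.MP_e2b804_an

/-- `(u k)` solves `Δ² u_k = V_k e^{4 u_k}` on `Om = (-2,2) × ℝ³` with `∫_Om e^{4 u_k} ≤ C`, each
`V_k` is bounded on `Om`, and `V_k → V0` locally uniformly on `Om` with `V0` continuous and
positive.  (Here moreover `u_k` is smooth and `V_k` continuous on all of `ℝ⁴`.) -/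
structure IsSolutionSeq (V u : ℕ → E4 → ℝ) (V0 : E4 → ℝ) : Prop where
  smooth : ∀ k, ContDiff ℝ ∞ (u k)
  contV : ∀ k, Continuous (V k)
  boundV : ∀ k, ∃ C : ℝ, ∀ x ∈ Om, |V k x| ≤ C
  equation : ∀ k, ∀ x ∈ Om, D2 (u k) x = V k x * Real.exp (4 * u k x)
  volume : ∃ C : ℝ, ∀ k, IntegrableOn (fun x => Real.exp (4 * u k x)) Om ∧
    ∫ x in Om, Real.exp (4 * u k x) ≤ C
  contV0 : ContinuousOn V0 Om
  posV0 : ∀ x ∈ Om, 0 < V0 x
  convV : TendstoLocallyUniformlyOn V V0 atTop Om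

/-- the liminf over `k` of the `V_k e^{4 u_k}` mass of the ball `B_r(x)` -/
def liminfMass (V u : ℕ → E4 → ℝ) (x : E4) (r : ℝ) : EReal :=
  liminf (fun k => ((∫ y in ball x r, V k y * Real.exp (4 * u k y) : ℝ) : EReal)) atTop

/-- the concentration blow-up set `S₁` (recall `Λ₁ / 2 = 8π²`) -/
def concentrationSet (V u : ℕ → E4 → ℝ) : Set E4 :=
  {x | x ∈ Om ∧ ∃ Λ : EReal, Tendsto (liminfMass V u x) (𝓝[>] 0) (𝓝 Λ) ∧
    ((8 * π ^ 2 : ℝ) : EReal) ≤ Λ}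

/-- the class `K(Om, S)` -/
structure InK (S : Set E4) (ψ : E4 → ℝ) : Prop where
  smooth : ContDiffOn ℝ ∞ ψ (Om \ S)
  nonpos : ∀ x ∈ Om \ S, ψ x ≤ 0
  nonzero : ∃ x ∈ Om \ S, ψ x ≠ 0
  biharmonic : ∀ x ∈ Om \ S, D2 ψ x = 0

/-- the zero set `S_ψ` of `ψ ∈ K(Om, S)` -/
def zeroSet (S : Set E4) (ψ : E4 → ℝ) : Set E4 := {x | x ∈ Om \ S ∧ ψ x = 0}

/-- convergence in `C^{3,α}_loc(O)` of smooth functions `g k` to `ψ`: on every compact `K ⊆ O` the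
differences and their derivatives of order at most three tend to `0` uniformly, and so does the
`α`-Hölder seminorm of the third derivative -/
def ConvC3Holder (O : Set E4) (α : ℝ) (g : ℕ → E4 → ℝ) (ψ : E4 → ℝ) : Prop :=
  ∀ K : Set E4, K ⊆ O → IsCompact K → ∀ η : ℝ, 0 < η → ∀ᶠ k in atTop,
    (∀ x ∈ K, ∀ j : ℕ, j ≤ 3 → ‖iteratedFDeriv ℝ j (fun z => g k z - ψ z) x‖ ≤ η) ∧
    ∀ x ∈ K, ∀ y ∈ K, ‖iteratedFDeriv ℝ 3 (fun z => g k z - ψ z) x -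
      iteratedFDeriv ℝ 3 (fun z => g k z - ψ z) y‖ ≤ η * ‖x - y‖ ^ α

/-- the point `(-1, a)` of `ℝ⁴` -/
def slicePt (a : EuclideanSpace ℝ (Fin 3)) : E4 := WithLp.toLp 2 ![-1, a 0, a 1, a 2]

end Pool.Agent.MP_e2b804_an
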