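import Pool.Agent.MP_e2b804_an.Solution
open Real MeasureTheory Metric Filter Set
open scoped Topology ContDiff

noncomputable section
namespace Pool.Agent.MP_e2b804_an

/-- the kernel `(|z|^2 + ε^2)^{-2}` -/
def kap (ε : ℝ) (z : E4) : ℝ := ((‖z‖ ^ 2 + ε ^ 2) ^ 2)⁻¹

theorem continuous_kap {ε : ℝ} (hε : 0 < ε) : Continuous (kap ε) := by
  unfold kap
  exact Continuous.inv₀ (by fun_prop) fun z => by positivity

theorem kap_nonneg (ε : ℝ) (z : E4) : 0 ≤ kap ε z := by unfold kap; positivity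

theorem inv_sqrt_pow_le {ε : ℝ} (hε : 0 < ε) (z : E4) {j : ℕ} (hj : j ≤ 4) :
    ((√(‖z‖ ^ 2 + ε ^ 2))⁻¹) ^ j ≤ 1 + kap ε z := by
  have hs : 0 < ‖z‖ ^ 2 + ε ^ 2 := by positivity
  have h1 : kap ε z = ((√(‖z‖ ^ 2 + ε ^ 2))⁻¹) ^ 4 := by
    unfold kap
    rw [inv_pow]
    congr 1
    have : (√(‖z‖ ^ 2 + ε ^ 2)) ^ 4 = ((√(‖z‖ ^ 2 + ε ^ 2)) ^ 2) ^ 2 := by ring
    rw [this, Real.sq_sqrt hs.le]
  rw [h1]
  set s := (√(‖z‖ ^ 2 + ε ^ 2))⁻¹ with hs'
  have hs0 : 0 ≤ s := by rw [hs']; positivity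
  rcases le_or_gt s 1 with h | h
  · have := pow_le_one₀ hs0 h (n := j)
    have : 0 ≤ s ^ 4 := by positivity
    linarith
  · have := pow_le_pow_right₀ h.le hj
    linarith

theorem log_one_add_sq_le {t M : ℝ} (hM : 0 ≤ M) :
    Real.log (1 + (M / ep t) ^ 2) ≤ 2 * M + 2 * t ^ 4 := by
  have he := ep_pos t
  have he1 := ep_le_one (t := t)
  have h1 : 1 + (M / ep t) ^ 2 ≤ ((1 + M) / ep t) ^ 2 := by
    rw [div_pow, div_pow]
    rw [← sub_nonneg]
    have : (1 + M) ^ 2 / ep t ^ 2 - (1 + M ^ 2 / ep t ^ 2) = (1 + 2 * M - ep t ^ 2) / ep t ^ 2 := by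
      field_simp; ring
    rw [this]
    apply div_nonneg _ (by positivity)
    nlinarith
  have h2 : Real.log (1 + (M / ep t) ^ 2) ≤ Real.log (((1 + M) / ep t) ^ 2) :=
    Real.log_le_log (by positivity) h1
  rw [Real.log_pow, Real.log_div (by positivity) he.ne', log_ep] at h2
  have h3 : Real.log (1 + M) ≤ M := by
    have := Real.log_le_sub_one_of_pos (show 0 < 1 + M by linarith)
    linarith
  push_cast at h2
  linarith

variable (A : Finset E4)

theorem iter_v_bound (hA : ∀ a ∈ A, a 0 = -1) (r : ℝ) {η : ℝ} (hη : 0 < η) :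
    ∀ᶠ t : ℝ in atTop, ∀ x, ‖x‖ ≤ r → ∀ j : ℕ, 1 ≤ j → j ≤ 4 →
      ‖iteratedFDeriv ℝ j (v A t) x‖ ≤ η := by
  obtain ⟨C, hC, h⟩ := f_bound A hA
  -- a uniform kernel constant
  obtain ⟨D, hD0, hD⟩ : ∃ D : ℝ, 0 < D ∧ ∀ j : ℕ, 1 ≤ j → j ≤ 4 → ∀ δ : ℝ, 0 < δ → ∀ x : E4,
      ‖iteratedFDeriv ℝ j (L δ) x‖ ≤ D * ((√(‖x‖ ^ 2 + δ ^ 2))⁻¹) ^ j := by
    choose! Cj hCj using fun (j : ℕ) (hj : 1 ≤ j) => iter_L_le (E := E4) j hj
    have hpos : ∀ j ∈ Finset.Icc 1 4, 0 ≤ Cj j := fun j hj => (hCj j (Finset.mem_Icc.mp hj).1).1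
    refine ⟨1 + ∑ j ∈ Finset.Icc 1 4, Cj j, by have := Finset.sum_nonneg hpos; linarith, ?_⟩
    intro j hj1 hj4 δ hδ x
    refine ((hCj j hj1).2 δ hδ x).trans ?_
    have h1 : Cj j ≤ 1 + ∑ j ∈ Finset.Icc 1 4, Cj j := by
      have := Finset.single_le_sum hpos (Finset.mem_Icc.mpr ⟨hj1, hj4⟩)
      linarith
    gcongr
  set r' := max r 0 with hr'
  have hlim : ∀ᶠ t : ℝ in atTop, (C * D * (10 + 2 * r') / η) * t ^ 4 ≤ Real.exp t := ev_pow_le_exp 4 _
  filter_upwards [h, hlim, eventually_ge_atTop 1] with t h1 h2 h3 x hx j hj1 hj4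
  have he := ep_pos t
  have hr0 : 0 ≤ r' := le_max_right _ _
  have hxr : ‖x‖ ≤ r' := hx.trans (le_max_left _ _)
  set M := ‖x‖ + t + 1 with hM
  have hM0 : 0 < M := by have := norm_nonneg x; rw [hM]; linarith
  have hκint : Integrable ((ball (0:E4) M).indicator (kap (ep t))) := by
    rw [integrable_indicator_iff measurableSet_ball]
    exact ((continuous_kap he).continuousOn.integrableOn_compact
      (isCompact_closedBall 0 M)).mono_set ball_subset_closedBall
  have hκint2 : Integrable (fun y => (ball (0:E4) M).indicator (kap (ep t)) (x - y)) :=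
    hκint.comp_sub_left x
  have h1int : Integrable ((closedBall (0:E4) t).indicator (fun _ => (1:ℝ))) := by
    rw [integrable_indicator_iff measurableSet_closedBall]
    exact integrableOn_const measure_closedBall_lt_top.ne
  have hT : ‖iteratedFDeriv ℝ j (T (f A t) (L (ep t) : E4 → ℝ)) x‖ ≤
      C * Real.exp (-4 * t) * D * (π ^ 2 / 2 * t ^ 4 + π ^ 2 * Real.log (1 + (M / ep t) ^ 2)) := by
    refine (norm_iter_T_le (integrable_f A t) (f_supp A t) j (contDiff_L he) x).trans ?_
    have hb : ∀ y, |f A t y| * ‖iteratedFDeriv ℝ j (L (ep t)) (x - y)‖ ≤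
        C * Real.exp (-4 * t) * D * ((closedBall (0:E4) t).indicator (fun _ => (1:ℝ)) y
          + (ball (0:E4) M).indicator (kap (ep t)) (x - y)) := by
      intro y
      by_cases hy : ‖y‖ ≤ t
      · rw [indicator_of_mem (by simpa using hy), indicator_of_mem]
        · have k1 := h1 y
          have k2 := hD j hj1 hj4 (ep t) he (x - y)
          have k3 := inv_sqrt_pow_le he (x - y) hj4
          calc |f A t y| * ‖iteratedFDeriv ℝ j (L (ep t)) (x - y)‖
              ≤ (C * Real.exp (-4 * t)) * (D * (1 + kap (ep t) (x - y))) := by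
                gcongr
                refine k2.trans ?_
                gcongr
            _ = _ := by ring
        · rw [mem_ball_zero_iff]
          have := norm_sub_le x y
          rw [hM]; linarith
      · push Not at hy
        rw [f_supp A t y hy, abs_zero, zero_mul]
        have k1 : 0 ≤ (closedBall (0:E4) t).indicator (fun _ => (1:ℝ)) y :=
          indicator_nonneg (fun _ _ => zero_le_one) _
        have k2 : 0 ≤ (ball (0:E4) M).indicator (kap (ep t)) (x - y) :=
          indicator_nonneg (fun _ _ => kap_nonneg _ _) _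
        positivity
    calc ∫ y, |f A t y| * ‖iteratedFDeriv ℝ j (L (ep t)) (x - y)‖
        ≤ ∫ y, C * Real.exp (-4 * t) * D * ((closedBall (0:E4) t).indicator (fun _ => (1:ℝ)) y
          + (ball (0:E4) M).indicator (kap (ep t)) (x - y)) := by
          refine integral_mono_of_nonneg (Eventually.of_forall fun y => by positivity) ?_
            (Eventually.of_forall hb)
          exact (h1int.add hκint2).const_mul _
      _ = C * Real.exp (-4 * t) * D * (π ^ 2 / 2 * t ^ 4 + ∫ z in ball (0:E4) M, kap (ep t) z) := by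
          rw [integral_const_mul, integral_add h1int hκint2, integral_indicator measurableSet_closedBall,
            setIntegral_const, vol_closedBall t (by linarith),
            integral_sub_left_eq_self (fun z => (ball (0:E4) M).indicator (kap (ep t)) z),
            integral_indicator measurableSet_ball]
          simp
      _ ≤ _ := by
          have := integral_J_le he hM0
          unfold kap
          gcongr
  have hv : v A t = fun x => (-(1 / (16 * π ^ 2))) • T (f A t) (L (ep t)) x := by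
    ext1 x; rfl
  rw [hv, iteratedFDeriv_const_smul_apply' ((contDiff_TfL A t).contDiffAt.of_le (by exact_mod_cast le_top)),
    norm_smul, norm_neg, Real.norm_of_nonneg (by positivity)]
  have hπ : 0 < π := Real.pi_pos
  have hlog := log_one_add_sq_le (t := t) hM0.le
  have ht4 : 1 ≤ t ^ 4 := one_le_pow₀ h3
  have ht4' : t ≤ t ^ 4 := by
    have : t ^ 4 = t * t ^ 3 := by ring
    have : 1 ≤ t ^ 3 := one_le_pow₀ h3
    nlinarith
  have hfin : π ^ 2 / 2 * t ^ 4 + π ^ 2 * Real.log (1 + (M / ep t) ^ 2) ≤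
      π ^ 2 * ((10 + 2 * r') * t ^ 4) := by
    have k1 : Real.log (1 + (M / ep t) ^ 2) ≤ 2 * (r' + t + 1) + 2 * t ^ 4 := by
      have : M ≤ r' + t + 1 := by rw [hM]; linarith
      linarith
    have k2 : t ^ 4 / 2 + Real.log (1 + (M / ep t) ^ 2) ≤ (10 + 2 * r') * t ^ 4 := by
      have : r' ≤ r' * t ^ 4 := by nlinarith
      nlinarith
    have : π ^ 2 / 2 * t ^ 4 + π ^ 2 * Real.log (1 + (M / ep t) ^ 2) =
      π ^ 2 * (t ^ 4 / 2 + Real.log (1 + (M / ep t) ^ 2)) := by ring
    rw [this]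
    gcongr
  calc 1 / (16 * π ^ 2) * ‖iteratedFDeriv ℝ j (T (f A t) (L (ep t) : E4 → ℝ)) x‖
      ≤ 1 / (16 * π ^ 2) * (C * Real.exp (-4 * t) * D * (π ^ 2 * ((10 + 2 * r') * t ^ 4))) := by
        gcongr
        refine hT.trans ?_
        gcongr
    _ = (C * D * (10 + 2 * r')) * t ^ 4 * Real.exp (-4 * t) / 16 := by
        field_simp
    _ ≤ η := by
        have h6 : (C * D * (10 + 2 * r')) * t ^ 4 ≤ η * Real.exp t := by
          have : (C * D * (10 + 2 * r') / η) * t ^ 4 = ((C * D * (10 + 2 * r')) * t ^ 4) / η := by ring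
          rw [this, div_le_iff₀ hη] at h2
          linarith
        have h7 : Real.exp (-4 * t) ≤ Real.exp (-t) := by
          apply Real.exp_le_exp.mpr; linarith
        have h8 : (C * D * (10 + 2 * r')) * t ^ 4 * Real.exp (-4 * t) ≤ η := by
          calc (C * D * (10 + 2 * r')) * t ^ 4 * Real.exp (-4 * t)
              ≤ (η * Real.exp t) * Real.exp (-t) := by gcongr
            _ = η := by rw [mul_assoc, ← Real.exp_add]; simp
        linarith

end Pool.Agent.MP_e2b804_an
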