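import Pool.Agent.MP_e2b804_an.Bounds
import Pool.Agent.MP_e2b804_an.IterV
open Real MeasureTheory Metric Filter Set
open scoped Topology ContDiff

noncomputable section
namespace Pool.Agent.MP_e2b804_an

/-! ### norms of iterated derivatives of linear combinations -/

theorem iter_norm_add_le {f g : E4 → ℝ} (hf : ContDiff ℝ ∞ f) (hg : ContDiff ℝ ∞ g) (j : ℕ)
    (x : E4) : ‖iteratedFDeriv ℝ j (fun z => f z + g z) x‖ ≤
      ‖iteratedFDeriv ℝ j f x‖ + ‖iteratedFDeriv ℝ j g x‖ := by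
  rw [fun_iteratedFDeriv_add_apply (contDiff_infty.mp hf j).contDiffAt
    (contDiff_infty.mp hg j).contDiffAt]
  exact norm_add_le _ _

theorem iter_norm_smul {f : E4 → ℝ} (hf : ContDiff ℝ ∞ f) (c : ℝ) (j : ℕ)
    (x : E4) : ‖iteratedFDeriv ℝ j (fun z => c * f z) x‖ = |c| * ‖iteratedFDeriv ℝ j f x‖ := by
  have := iteratedFDeriv_const_smul_apply' (𝕜 := ℝ) (a := c) (f := f) (x := x)
    (contDiff_infty.mp hf j).contDiffAt
  simp only [smul_eq_mul] at this
  rw [this, norm_smul, Real.norm_eq_abs]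

theorem iter_norm_sum_le {ι : Type*} (s : Finset ι) {f : ι → E4 → ℝ}
    (hf : ∀ i ∈ s, ContDiff ℝ ∞ (f i)) (j : ℕ) (x : E4) :
    ‖iteratedFDeriv ℝ j (fun z => ∑ i ∈ s, f i z) x‖ ≤ ∑ i ∈ s, ‖iteratedFDeriv ℝ j (f i) x‖ := by
  rw [iteratedFDeriv_fun_sum_apply fun i hi => (contDiff_infty.mp (hf i hi) j).contDiffAt]
  exact norm_sum_le _ _

theorem iter_norm_const_le (c : ℝ) (j : ℕ) (x : E4) :
    ‖iteratedFDeriv ℝ j (fun _ : E4 => c) x‖ ≤ |c| := by
  rcases Nat.eq_zero_or_pos j with rfl | hj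
  · rw [norm_iteratedFDeriv_zero, Real.norm_eq_abs]
  · rw [iteratedFDeriv_const_of_ne (by omega)]
    simp

/-- uniform bounds for the derivatives of the kernel away from its singularity -/
theorem iter_L_sub_bound {d R : ℝ} (hd : 0 < d) : ∃ M : ℝ, 0 ≤ M ∧
    ∀ j : ℕ, j ≤ 4 → ∀ δ : ℝ, 0 < δ → δ ≤ 1 → ∀ a x : E4, d ≤ ‖x - a‖ → ‖x - a‖ ≤ R →
      ‖iteratedFDeriv ℝ j (fun z => L δ (z - a)) x‖ ≤ M := by
  have hj : ∀ j : ℕ, ∃ M : ℝ, 0 ≤ M ∧
      ∀ δ : ℝ, 0 < δ → δ ≤ 1 → ∀ a x : E4, d ≤ ‖x - a‖ → ‖x - a‖ ≤ R →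
      ‖iteratedFDeriv ℝ j (fun z => L δ (z - a)) x‖ ≤ M := by
    intro j
    rcases Nat.eq_zero_or_pos j with rfl | hj
    · refine ⟨|Real.log (d ^ 2)| + |Real.log (R ^ 2 + 1)|, by positivity, ?_⟩
      intro δ h0 h1 a x hx hx'
      rw [norm_iteratedFDeriv_zero, Real.norm_eq_abs, L_eq, abs_le]
      have h2 : Real.log (d ^ 2) ≤ Real.log (‖x - a‖ ^ 2 + δ ^ 2) := by
        apply Real.log_le_log (by positivity)
        have : d ^ 2 ≤ ‖x - a‖ ^ 2 := by gcongr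
        nlinarith
      have h3 : Real.log (‖x - a‖ ^ 2 + δ ^ 2) ≤ Real.log (R ^ 2 + 1) := by
        apply Real.log_le_log (by positivity)
        have h4 : ‖x - a‖ ^ 2 ≤ R ^ 2 := by gcongr
        have h5 : δ ^ 2 ≤ 1 := by nlinarith
        linarith
      constructor
      · have := neg_abs_le (Real.log (d ^ 2))
        have := abs_nonneg (Real.log (R ^ 2 + 1))
        linarith
      · have := le_abs_self (Real.log (R ^ 2 + 1))
        have := abs_nonneg (Real.log (d ^ 2))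
        linarith
    · obtain ⟨C, hC0, hC⟩ := iter_L_le (E := E4) j hj
      refine ⟨C * (d⁻¹) ^ j, by positivity, ?_⟩
      intro δ h0 h1 a x hx hx'
      rw [iteratedFDeriv_comp_sub]
      refine (hC δ h0 (x - a)).trans ?_
      have h2 : d ≤ √(‖x - a‖ ^ 2 + δ ^ 2) := by
        apply Real.le_sqrt_of_sq_le
        have : d ^ 2 ≤ ‖x - a‖ ^ 2 := by gcongr
        nlinarith
      gcongr
  choose M hM0 hM using hj
  refine ⟨∑ j ∈ Finset.range 5, M j, Finset.sum_nonneg fun j _ => hM0 j, ?_⟩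
  intro j hj δ h0 h1 a x hx hx'
  refine (hM j δ h0 h1 a x hx hx').trans ?_
  exact Finset.single_le_sum (f := M) (fun i _ => hM0 i) (Finset.mem_range.mpr (by omega))

variable (A : Finset E4)

/-- the lower order part of the solution -/
def W (t : ℝ) (x : E4) : ℝ :=
  (-t + (-(3/4)) * L (ep t) (x - pt))
    + ∑ a ∈ A, (L (ep t) (x - pt) + (-1) * L (dl A t a) (x - a)) + v A t x

theorem u_eq_W (t : ℝ) (x : E4) : u A t x = t ^ 2 * phi x + W A t x := by
  unfold u W U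
  have : ∀ a ∈ A, (L (ep t) (x - pt) + (-1) * L (dl A t a) (x - a)) =
    L (ep t) (x - pt) - L (dl A t a) (x - a) := fun a _ => by ring
  rw [Finset.sum_congr rfl this]
  ring

theorem contDiff_W (t : ℝ) : ContDiff ℝ ∞ (W A t) := by
  unfold W
  refine (ContDiff.add ?_ ?_).add (contDiff_v A t)
  · exact contDiff_const.add (contDiff_const.mul (contDiff_L_sub (ep_pos t) pt))
  · exact ContDiff.sum fun a _ => (contDiff_L_sub (ep_pos t) pt).add
      (contDiff_const.mul (contDiff_L_sub (dl_pos A t a) a))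

theorem W_bound (hA : ∀ a ∈ A, a 0 = -1) {K : Set E4} (hK : IsCompact K) (hKO : K ⊆ Om)
    (hKA : ∀ a ∈ A, a ∉ K) : ∃ C : ℝ, 0 ≤ C ∧ ∀ᶠ t : ℝ in atTop, ∀ x ∈ K, ∀ j : ℕ, j ≤ 4 →
      ‖iteratedFDeriv ℝ j (W A t) x‖ ≤ t + C := by
  obtain ⟨r, hr⟩ := hK.isBounded.subset_closedBall (0 : E4)
  -- distance to the poles
  obtain ⟨d, hd0, hd1, hd⟩ : ∃ d : ℝ, 0 < d ∧ d ≤ 1 ∧ ∀ a ∈ A, ∀ x ∈ K, d ≤ ‖x - a‖ := by
    have h : ∀ a ∈ A, ∃ d : ℝ, 0 < d ∧ ∀ x ∈ K, d ≤ ‖x - a‖ := by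
      intro a ha
      have h1 : a ∈ Kᶜ := hKA a ha
      obtain ⟨e, he, hb⟩ := Metric.isOpen_iff.mp hK.isClosed.isOpen_compl a h1
      refine ⟨e, he, fun x hx => ?_⟩
      by_contra hlt
      push Not at hlt
      exact hb (by rwa [mem_ball, dist_eq_norm]) hx
    choose! d hd0 hd using h
    refine ⟨min 1 (∏ a ∈ A, min 1 (d a)), ?_, min_le_left _ _, ?_⟩
    · exact lt_min one_pos (Finset.prod_pos fun a ha => lt_min one_pos (hd0 a ha))
    · intro a ha x hx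
      refine (min_le_right _ _).trans ?_
      have h2 : ∏ a ∈ A, min 1 (d a) ≤ min 1 (d a) := by
        rw [← Finset.mul_prod_erase A _ ha]
        have h3 : ∏ a ∈ A.erase a, min 1 (d a) ≤ 1 :=
          Finset.prod_le_one (fun b hb => (lt_min one_pos
            (hd0 b (Finset.mem_of_mem_erase hb))).le) fun b _ => min_le_left _ _
        have h4 : 0 < min 1 (d a) := lt_min one_pos (hd0 a ha)
        nlinarith
      exact h2.trans ((min_le_right _ _).trans (hd a ha x hx))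
  -- a common radius
  obtain ⟨R, hR0, hRp, hRa⟩ : ∃ R : ℝ, 0 ≤ R ∧ (∀ x ∈ K, ‖x - pt‖ ≤ R) ∧
      ∀ a ∈ A, ∀ x ∈ K, ‖x - a‖ ≤ R := by
    refine ⟨|r| + 3 + ∑ a ∈ A, ‖a‖, by positivity, ?_, ?_⟩
    · intro x hx
      have h1 : ‖x‖ ≤ r := by simpa using hr hx
      have h2 : ‖x - pt‖ ≤ ‖x‖ + ‖pt‖ := norm_sub_le _ _
      rw [norm_pt] at h2
      have h3 : 0 ≤ ∑ a ∈ A, ‖a‖ := by positivity
      linarith [le_abs_self r]
    · intro a ha x hx
      have h1 : ‖x‖ ≤ r := by simpa using hr hx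
      have h2 : ‖x - a‖ ≤ ‖x‖ + ‖a‖ := norm_sub_le _ _
      have h3 : ‖a‖ ≤ ∑ a ∈ A, ‖a‖ :=
        Finset.single_le_sum (f := fun a : E4 => ‖a‖) (fun _ _ => norm_nonneg _) ha
      linarith [le_abs_self r]
  obtain ⟨M, hM0, hM⟩ := iter_L_sub_bound (R := R) hd0
  refine ⟨(3/4) * M + A.card * (M + M) + 1, by positivity, ?_⟩
  have hdl := ev_dl_le_one A
  filter_upwards [hdl, v_small A hA r one_pos, iter_v_bound A hA r one_pos, eventually_ge_atTop 0]
    with t ht1 ht2 ht3 ht0 x hx j hj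
  have hxr : ‖x‖ ≤ r := by simpa using hr hx
  have hpt : ‖iteratedFDeriv ℝ j (fun z => L (ep t) (z - pt)) x‖ ≤ M :=
    hM j hj (ep t) (ep_pos t) ep_le_one pt x (hd1.trans (one_le_norm_sub_pt (hKO hx))) (hRp x hx)
  have hc0 := contDiff_L_sub (ep_pos t) pt
  have h1 : ‖iteratedFDeriv ℝ j (fun z => (-t + (-(3/4)) * L (ep t) (z - pt))) x‖ ≤ t + (3/4) * M := by
    refine (iter_norm_add_le contDiff_const (contDiff_const.mul hc0) j x).trans ?_
    rw [iter_norm_smul hc0]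
    have h2 := iter_norm_const_le (-t) j x
    rw [abs_neg, abs_of_nonneg ht0] at h2
    have h3 : |(-(3/4) : ℝ)| = 3/4 := by norm_num [abs_of_nonpos]
    rw [h3]
    gcongr
  have h2 : ‖iteratedFDeriv ℝ j (fun z => ∑ a ∈ A, (L (ep t) (z - pt) + (-1) * L (dl A t a) (z - a))) x‖
      ≤ A.card * (M + M) := by
    refine (iter_norm_sum_le A (fun a _ => hc0.add (contDiff_const.mul
      (contDiff_L_sub (dl_pos A t a) a))) j x).trans ?_
    have h3 : ∀ a ∈ A, ‖iteratedFDeriv ℝ j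
        (fun z => L (ep t) (z - pt) + (-1) * L (dl A t a) (z - a)) x‖ ≤ M + M := by
      intro a ha
      refine (iter_norm_add_le hc0 (contDiff_const.mul (contDiff_L_sub (dl_pos A t a) a)) j x).trans ?_
      rw [iter_norm_smul (contDiff_L_sub (dl_pos A t a) a)]
      have h4 : |(-1 : ℝ)| = 1 := by norm_num
      rw [h4, one_mul]
      exact add_le_add hpt (hM j hj _ (dl_pos A t a) (ht1 a ha) a x (hd a ha x hx) (hRa a ha x hx))
    refine (Finset.sum_le_sum h3).trans (le_of_eq ?_)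
    rw [Finset.sum_const, nsmul_eq_mul]
  have h3 : ‖iteratedFDeriv ℝ j (v A t) x‖ ≤ 1 := by
    rcases Nat.eq_zero_or_pos j with rfl | hj0
    · rw [norm_iteratedFDeriv_zero, Real.norm_eq_abs]
      exact ht2 x hxr
    · exact ht3 x hxr j hj0 hj
  have hcA : ContDiff ℝ ∞
      (fun z => ∑ a ∈ A, (L (ep t) (z - pt) + (-1) * L (dl A t a) (z - a))) :=
    ContDiff.sum fun a _ => hc0.add (contDiff_const.mul (contDiff_L_sub (dl_pos A t a) a))
  have hc1 : ContDiff ℝ ∞ (fun z => (-t + (-(3/4)) * L (ep t) (z - pt))) :=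
    contDiff_const.add (contDiff_const.mul hc0)
  have h4 := iter_norm_add_le (hc1.add hcA) (contDiff_v A t) j x
  have h5 := iter_norm_add_le hc1 hcA j x
  unfold W
  linarith

/-- `u / t^2` converges to `φ` with four derivatives away from the poles -/
theorem deriv_tendsto (hA : ∀ a ∈ A, a 0 = -1) {K : Set E4} (hK : IsCompact K) (hKO : K ⊆ Om)
    (hKA : ∀ a ∈ A, a ∉ K) {η : ℝ} (hη : 0 < η) : ∀ᶠ t : ℝ in atTop, ∀ x ∈ K, ∀ j : ℕ, j ≤ 4 →
      ‖iteratedFDeriv ℝ j (fun z => u A t z / t ^ 2 - phi z) x‖ ≤ η := by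
  obtain ⟨C, hC0, hC⟩ := W_bound A hA hK hKO hKA
  filter_upwards [hC, eventually_gt_atTop 0, ev_le_sq ((1 + C) / η), eventually_ge_atTop 1]
    with t ht ht0 ht2 ht1 x hx j hj
  have h1 : (fun z => u A t z / t ^ 2 - phi z) = fun z => (t ^ 2)⁻¹ * W A t z := by
    ext1 z
    rw [u_eq_W]
    field_simp
    ring
  rw [h1, iter_norm_smul (contDiff_W A t), abs_of_pos (by positivity)]
  have h2 := ht x hx j hj
  rw [inv_mul_le_iff₀ (by positivity)]
  refine h2.trans ?_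
  have h3 : (1 + C) * t ≤ η * t ^ 2 := by
    have := mul_le_mul_of_nonneg_left ht2 hη.le
    calc (1 + C) * t = η * ((1 + C) / η * t) := by field_simp
      _ ≤ _ := this
  nlinarith

theorem contDiff_quot (t : ℝ) : ContDiff ℝ ∞ (fun z => u A t z / t ^ 2 - phi z) :=
  ((contDiff_u A t).div_const _).sub contDiff_phi

theorem rpow_ge_self {s α : ℝ} (hs : 0 ≤ s) (hs1 : s ≤ 1) (hα1 : α ≤ 1) :
    s ≤ s ^ α := by
  rcases hs.eq_or_lt with rfl | hs
  · exact Real.rpow_nonneg le_rfl _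
  · calc s = s ^ (1 : ℝ) := (Real.rpow_one s).symm
      _ ≤ s ^ α := Real.rpow_le_rpow_of_exponent_ge hs hs1 hα1

/-- `u / t^2` converges to `φ` in `C^{3,α}` away from the poles -/
theorem holder_tendsto (hA : ∀ a ∈ A, a 0 = -1) {K : Set E4} (hK : IsCompact K) (hKO : K ⊆ Om)
    (hKA : ∀ a ∈ A, a ∉ K) {α : ℝ} (hα0 : 0 ≤ α) (hα1 : α ≤ 1) {η : ℝ} (hη : 0 < η) :
    ∀ᶠ t : ℝ in atTop, ∀ x ∈ K, ∀ y ∈ K,
      ‖iteratedFDeriv ℝ 3 (fun z => u A t z / t ^ 2 - phi z) x -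
        iteratedFDeriv ℝ 3 (fun z => u A t z / t ^ 2 - phi z) y‖ ≤ η * ‖x - y‖ ^ α := by
  have hop : IsOpen (Om \ (A : Set E4)) := isOpen_Om.sdiff A.finite_toSet.isClosed
  have hsub : K ⊆ Om \ (A : Set E4) := fun x hx => ⟨hKO hx, fun h => hKA x h hx⟩
  obtain ⟨δ', hδ', hth⟩ := hK.exists_cthickening_subset_open hop hsub
  set δ := min 1 δ' with hδdef
  have hδ0 : 0 < δ := lt_min one_pos hδ'
  have hδ1 : δ ≤ 1 := min_le_left _ _
  have hth2 : cthickening δ K ⊆ Om \ (A : Set E4) :=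
    (cthickening_mono (min_le_right _ _) K).trans hth
  have hKc : IsCompact (cthickening δ K) := hK.cthickening
  have hη' : 0 < η * δ / 2 := by positivity
  have hev := deriv_tendsto A hA hKc (fun x hx => (hth2 hx).1) (fun a ha h => (hth2 h).2 ha) hη'
  filter_upwards [hev] with t ht x hx y hy
  set g := fun z => u A t z / t ^ 2 - phi z with hg
  have hself : K ⊆ cthickening δ K := self_subset_cthickening K
  have hnn : 0 ≤ ‖x - y‖ := norm_nonneg _
  rcases le_or_gt ‖x - y‖ δ with h | h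
  · have h1 : ‖iteratedFDeriv ℝ 3 g x - iteratedFDeriv ℝ 3 g y‖ ≤ (η * δ / 2) * ‖x - y‖ := by
      have hball : closedBall y δ ⊆ cthickening δ K := closedBall_subset_cthickening hy δ
      refine (convex_closedBall y δ).norm_image_sub_le_of_norm_fderiv_le (𝕜 := ℝ) (f := iteratedFDeriv ℝ 3 g)
        ?_ ?_ (mem_closedBall_self hδ0.le) (by rwa [mem_closedBall, dist_eq_norm])
      · intro z _
        have : ContDiff ℝ 1 (iteratedFDeriv ℝ 3 g) :=
          ContDiff.iteratedFDeriv_right (m := 1) (i := 3) (contDiff_infty.mp (contDiff_quot A t) 4)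
            (by norm_num)
        exact (this.differentiable one_ne_zero).differentiableAt
      · intro z hz
        rw [norm_fderiv_iteratedFDeriv]
        exact ht z (hball hz) 4 le_rfl
    have h2 : ‖x - y‖ ≤ ‖x - y‖ ^ α := rpow_ge_self hnn (h.trans hδ1) hα1
    have h3 : η * δ / 2 ≤ η := by nlinarith
    calc _ ≤ (η * δ / 2) * ‖x - y‖ := h1
      _ ≤ η * ‖x - y‖ ^ α := by gcongr
  · have h1 := ht x (hself hx) 3 (by norm_num)
    have h2 := ht y (hself hy) 3 (by norm_num)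
    have h3 : ‖iteratedFDeriv ℝ 3 g x - iteratedFDeriv ℝ 3 g y‖ ≤ η * δ :=
      (norm_sub_le _ _).trans (by linarith)
    refine h3.trans ?_
    have h4 : δ ≤ δ ^ α := rpow_ge_self hδ0.le hδ1 hα1
    have h5 : δ ^ α ≤ ‖x - y‖ ^ α := Real.rpow_le_rpow hδ0.le h.le hα0
    gcongr
    exact h4.trans h5

end Pool.Agent.MP_e2b804_an
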