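import Pool.Agent.MP_e2b804_an.NearTwo
open Real MeasureTheory Metric Filter Set
open scoped Topology ContDiff

noncomputable section
namespace Pool.Agent.MP_e2b804_an

/-- a geometric constant -/
def KA (A : Finset E4) : ℝ := 1 + ∑ a ∈ A, ((1 + ‖a - pt‖) ^ 2 + 1)

theorem one_le_KA (A : Finset E4) : 1 ≤ KA A := by
  unfold KA
  have : 0 ≤ ∑ a ∈ A, ((1 + ‖a - pt‖) ^ 2 + 1) := Finset.sum_nonneg fun a _ => by positivity
  linarith

theorem le_KA {A : Finset E4} {a : E4} (ha : a ∈ A) : (1 + ‖a - pt‖) ^ 2 + 1 ≤ KA A := by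
  unfold KA
  have := Finset.single_le_sum (f := fun a => (1 + ‖a - pt‖) ^ 2 + 1) (fun a _ => by positivity) ha
  linarith

theorem far_ratio {A : Finset E4} {a : E4} (ha : a ∈ A) {r : ℝ} (hr : 0 < r) (hr1 : r ≤ 1) {x : E4}
    (hx : r ≤ ‖x - a‖) : ‖x - pt‖ ^ 2 + 1 ≤ (KA A / r ^ 2) * ‖x - a‖ ^ 2 := by
  have h1 : ‖x - pt‖ ≤ ‖x - a‖ + ‖a - pt‖ := by
    have : x - pt = (x - a) + (a - pt) := by abel
    rw [this]; exact norm_add_le _ _
  have h2 : ‖x - pt‖ * r ≤ ‖x - a‖ * (1 + ‖a - pt‖) := by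
    have := norm_nonneg (a - pt)
    have := norm_nonneg (x - a)
    nlinarith
  have h3 : (‖x - pt‖ * r) ^ 2 ≤ (‖x - a‖ * (1 + ‖a - pt‖)) ^ 2 := by
    have := norm_nonneg (x - pt)
    gcongr
  have h4 := le_KA ha
  have h5 : r ^ 2 ≤ ‖x - a‖ ^ 2 := by gcongr
  rw [div_mul_eq_mul_div, le_div_iff₀ (by positivity)]
  have h6 : 0 ≤ ‖x - a‖ ^ 2 := by positivity
  nlinarith

theorem L_eq (δ : ℝ) (x : E4) : L δ x = Real.log (‖x‖ ^ 2 + δ ^ 2) := rfl

theorem U_upper {A : Finset E4} {r t : ℝ} (hr : 0 < r) (hr1 : r ≤ 1) {x : E4}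
    (hx : ∀ a ∈ A, r ≤ ‖x - a‖) :
    U A t x ≤ t ^ 2 * phi x - t - (3/4) * L (ep t) (x - pt)
      + (A.card : ℝ) * Real.log (KA A / r ^ 2) := by
  unfold U
  have h : ∀ a ∈ A, L (ep t) (x - pt) - L (dl A t a) (x - a) ≤ Real.log (KA A / r ^ 2) := by
    intro a ha
    have hd := dl_pos A t a
    have he := ep_pos t
    have he1 := ep_le_one (t := t)
    have hK := one_le_KA A
    have hxa : 0 < ‖x - a‖ := lt_of_lt_of_le hr (hx a ha)
    rw [L_eq, L_eq, ← Real.log_div (by positivity) (by positivity)]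
    apply Real.log_le_log (by positivity)
    rw [div_le_iff₀ (by positivity)]
    have h1 := far_ratio ha hr hr1 (hx a ha)
    have h2 : ep t ^ 2 ≤ 1 := by nlinarith
    have h3 : 0 ≤ KA A / r ^ 2 * dl A t a ^ 2 := by positivity
    nlinarith
  have := Finset.sum_le_sum h
  rw [Finset.sum_const, nsmul_eq_mul] at this
  linarith

theorem far_one (A : Finset E4) (hA : ∀ a ∈ A, a 0 = -1) :
    ∀ᶠ t : ℝ in atTop, ∀ x ∈ Om, (∀ a ∈ A, 1 / t ^ 2 ≤ ‖x - a‖) →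
      U A t x ≤ -t - (3/4) * L (ep t) (x - pt) + (A.card : ℝ) * Real.log (4 * KA A) := by
  have h1 : ∀ᶠ t : ℝ in atTop, (A.card : ℝ) * Real.log (KA A * t ^ 4) ≤
      t ^ 2 + (A.card : ℝ) * Real.log (4 * KA A) := by
    filter_upwards [ev_le_sq (4 * (A.card : ℝ)), eventually_ge_atTop 1] with t h1 h2
    have hK := one_le_KA A
    rw [Real.log_mul (by positivity) (by positivity), Real.log_mul (by norm_num) (by positivity),
      Real.log_pow]
    have h3 : Real.log t ≤ t := (Real.log_le_sub_one_of_pos (by linarith)).trans (by linarith)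
    have h4 : 0 ≤ Real.log 4 := Real.log_nonneg (by norm_num)
    have h5 : (0:ℝ) ≤ A.card := by positivity
    have h6 : (A.card : ℝ) * Real.log t ≤ A.card * t := by gcongr
    have h7 : 0 ≤ (A.card : ℝ) * Real.log 4 := by positivity
    push_cast
    nlinarith
  filter_upwards [h1, eventually_ge_atTop 1] with t h1 h2 x hx hxa
  have hφ := phi_nonpos hx
  by_cases hcase : ∀ a ∈ A, 1 / 2 ≤ ‖x - a‖
  · have h3 := U_upper (t := t) (by norm_num : (0:ℝ) < 1/2) (by norm_num) hcase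
    have h4 : KA A / (1/2) ^ 2 = 4 * KA A := by ring
    rw [h4] at h3
    have h5 : t ^ 2 * phi x ≤ 0 := mul_nonpos_of_nonneg_of_nonpos (by positivity) hφ
    linarith
  · push Not at hcase
    obtain ⟨a, ha, hxa2⟩ := hcase
    have h3 : |x 0 + 1| ≤ 1 / 2 := by
      have := PiLp.norm_apply_le (x - a) 0
      have h7 : (x - a) 0 = x 0 + 1 := by simp [hA a ha]
      rw [h7, Real.norm_eq_abs] at this
      linarith
    have h4 : phi x ≤ -1 := by
      have h5 := phi_add (x := x)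
      have h6 : (x 0 + 1) ^ 2 ≤ 1 / 4 := by
        rw [← sq_abs]; have := abs_nonneg (x 0 + 1); nlinarith
      have h7 := abs_le.mp h3
      have h8 : (x 0 + 1) ^ 2 * (2 - x 0) ≤ 1 / 4 * (7/2) := by
        have : 0 ≤ (x 0 + 1) ^ 2 := sq_nonneg _
        have : 2 - x 0 ≤ 7 / 2 := by linarith [h7.1]
        have : 0 ≤ 2 - x 0 := by linarith [h7.2]
        nlinarith
      nlinarith
    have hr : 0 < 1 / t ^ 2 := by positivity
    have hr1 : 1 / t ^ 2 ≤ 1 := by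
      rw [div_le_one (by positivity)]; nlinarith
    have h5 := U_upper (t := t) hr hr1 hxa
    have h6 : KA A / (1 / t ^ 2) ^ 2 = KA A * t ^ 4 := by
      field_simp
    rw [h6] at h5
    have h7 : t ^ 2 * phi x ≤ t ^ 2 * (-1) := by
      have : 0 ≤ t ^ 2 := by positivity
      nlinarith
    linarith

theorem norm_pt : ‖pt‖ = 3 := by simp [pt]

theorem norm_x_le {x : E4} (hx : x ∈ Om) : 1 + ‖x‖ ≤ 5 * ‖x - pt‖ := by
  have h1 := one_le_norm_sub_pt hx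
  have h2 : ‖x‖ ≤ ‖x - pt‖ + 3 := by
    have := norm_add_le (x - pt) pt
    rw [norm_pt] at this
    simpa using this
  linarith

theorem far_two (A : Finset E4) (hA : ∀ a ∈ A, a 0 = -1) :
    ∃ C : ℝ, 0 < C ∧ ∀ᶠ t : ℝ in atTop, ∀ x ∈ Om, (∀ a ∈ A, 1 / t ^ 2 ≤ ‖x - a‖) →
      Real.exp (4 * U A t x) ≤ C * Real.exp (-4 * t) * ((1 + ‖x‖) ^ 6)⁻¹ := by
  refine ⟨Real.exp (4 * ((A.card : ℝ) * Real.log (4 * KA A))) * 5 ^ 6, by positivity, ?_⟩
  filter_upwards [far_one A hA] with t ht x hx hxa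
  have h1 := ht x hx hxa
  have hpt := one_le_norm_sub_pt hx
  have he := ep_pos t
  have hq : 0 < ‖x - pt‖ ^ 2 + ep t ^ 2 := by positivity
  have h2 : Real.exp (4 * U A t x) ≤ Real.exp (4 * ((A.card : ℝ) * Real.log (4 * KA A))) *
      Real.exp (-4 * t) * ((‖x - pt‖ ^ 2 + ep t ^ 2) ^ 3)⁻¹ := by
    have h3 : ((‖x - pt‖ ^ 2 + ep t ^ 2) ^ 3)⁻¹ = Real.exp (-(3 * L (ep t) (x - pt))) := by
      rw [Real.exp_neg, L_eq]
      congr 1
      have : 3 * Real.log (‖x - pt‖ ^ 2 + ep t ^ 2) = Real.log ((‖x - pt‖ ^ 2 + ep t ^ 2) ^ 3) := by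
        rw [Real.log_pow]; norm_num
      rw [this, Real.exp_log (by positivity)]
    rw [h3, ← Real.exp_add, ← Real.exp_add]
    apply Real.exp_le_exp.mpr
    linarith
  refine h2.trans ?_
  have h4 : ((‖x - pt‖ ^ 2 + ep t ^ 2) ^ 3)⁻¹ ≤ 5 ^ 6 * ((1 + ‖x‖) ^ 6)⁻¹ := by
    have h5 : (1 + ‖x‖) ^ 6 ≤ 5 ^ 6 * (‖x - pt‖ ^ 2 + ep t ^ 2) ^ 3 := by
      calc (1 + ‖x‖) ^ 6 ≤ (5 * ‖x - pt‖) ^ 6 := by
            have := norm_x_le hx
            gcongr
        _ = 5 ^ 6 * (‖x - pt‖ ^ 2) ^ 3 := by ring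
        _ ≤ 5 ^ 6 * (‖x - pt‖ ^ 2 + ep t ^ 2) ^ 3 := by
            gcongr
            nlinarith [sq_nonneg (ep t)]
    rw [← div_eq_mul_inv, inv_eq_one_div, div_le_div_iff₀ (by positivity) (by positivity)]
    linarith
  calc Real.exp (4 * ((A.card : ℝ) * Real.log (4 * KA A))) * Real.exp (-4 * t) * ((‖x - pt‖ ^ 2 + ep t ^ 2) ^ 3)⁻¹
      ≤ Real.exp (4 * ((A.card : ℝ) * Real.log (4 * KA A))) * Real.exp (-4 * t) * (5 ^ 6 * ((1 + ‖x‖) ^ 6)⁻¹) := by
        gcongr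
    _ = _ := by ring

theorem far_bubble (A : Finset E4) :
    ∀ᶠ t : ℝ in atTop, ∀ a ∈ A, ∀ x : E4, 1 / t ^ 2 ≤ ‖x - a‖ →
      P0 (dl A t a) (x - a) ≤ Real.exp (-4 * t) := by
  rw [Filter.eventually_all_finset]
  intro a _
  filter_upwards [ev_pow_le_exp 16 1, eventually_ge_atTop 1, ev_le_sq (1 + 4 * |cc A a|)]
    with t h1 h2 h3 x hx
  have ht : 0 < t := by linarith
  have hxa : 0 < ‖x - a‖ := lt_of_lt_of_le (by positivity) hx
  have h4 : x - a ≠ 0 := norm_pos_iff.mp hxa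
  refine (P0_le_div h4).trans ?_
  have h5 : (‖x - a‖⁻¹) ^ 8 ≤ t ^ 16 := by
    have h6 : ‖x - a‖⁻¹ ≤ t ^ 2 := by
      rw [inv_le_comm₀ hxa (by positivity)]
      rw [← one_div]; exact hx
    calc (‖x - a‖⁻¹) ^ 8 ≤ (t ^ 2) ^ 8 := by gcongr
      _ = t ^ 16 := by ring
  have h6 : dl A t a ^ 4 ≤ Real.exp (-4 * t - t) := by
    unfold dl
    rw [div_pow, ← Real.exp_nat_mul]
    have h7 : Real.exp (((4:ℕ):ℝ) * (-(4/3) * t ^ 2 - t + cc A a)) ≤ Real.exp (-4 * t - t) := by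
      apply Real.exp_le_exp.mpr
      have h8 := le_abs_self (cc A a)
      have h9 : |cc A a| ≤ |cc A a| * t := by
        have := abs_nonneg (cc A a); nlinarith
      push_cast
      nlinarith
    have h10 : 0 < Real.exp (((4:ℕ):ℝ) * (-(4/3) * t ^ 2 - t + cc A a)) := Real.exp_pos _
    calc Real.exp (((4:ℕ):ℝ) * (-(4/3) * t ^ 2 - t + cc A a)) / 2 ^ 4
        ≤ Real.exp (((4:ℕ):ℝ) * (-(4/3) * t ^ 2 - t + cc A a)) := by
          apply div_le_self h10.le; norm_num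
      _ ≤ _ := h7
  calc dl A t a ^ 4 * (‖x - a‖⁻¹) ^ 8 ≤ Real.exp (-4 * t - t) * Real.exp t := by
        gcongr
        linarith
    _ = Real.exp (-4 * t) := by rw [← Real.exp_add]; congr 1; ring

theorem far_three (A : Finset E4) (hA : ∀ a ∈ A, a 0 = -1) :
    ∃ C : ℝ, 0 < C ∧ ∀ᶠ t : ℝ in atTop, ∀ x ∈ Om, (∀ a ∈ A, 1 / t ^ 2 ≤ ‖x - a‖) →
      |G A t x| ≤ C * Real.exp (-4 * t) := by
  obtain ⟨C, hC, h⟩ := far_two A hA
  refine ⟨6 * C + 96 * (A.card : ℝ) + 96 * ((A.card : ℝ) + 1), by positivity, ?_⟩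
  filter_upwards [h, far_bubble A, eventually_ge_atTop 1] with t h1 h2 h3 x hx hxa
  have k1 := h1 x hx hxa
  have k2 : Real.exp (4 * U A t x) ≤ C * Real.exp (-4 * t) := by
    refine k1.trans ?_
    have : ((1 + ‖x‖) ^ 6)⁻¹ ≤ 1 := by
      apply inv_le_one_of_one_le₀
      apply one_le_pow₀
      linarith [norm_nonneg x]
    have : 0 < C * Real.exp (-4 * t) := by positivity
    nlinarith
  have k3 : ∑ a ∈ A, P0 (dl A t a) (x - a) ≤ (A.card : ℝ) * Real.exp (-4 * t) := by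
    have := Finset.sum_le_sum fun a ha => h2 a ha x (hxa a ha)
    rwa [Finset.sum_const, nsmul_eq_mul] at this
  have k4 : 0 ≤ ∑ a ∈ A, P0 (dl A t a) (x - a) := Finset.sum_nonneg fun a _ => P0_nonneg _ _
  have k5 : P0 (ep t) (x - pt) ≤ Real.exp (-4 * t) := by
    refine (P0_ep_le hx).trans ?_
    unfold ep
    rw [← Real.exp_nat_mul]
    apply Real.exp_le_exp.mpr
    have : t ≤ t ^ 4 := by
      have : t ^ 4 = t * t ^ 3 := by ring
      have : 1 ≤ t ^ 3 := one_le_pow₀ h3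
      nlinarith
    push_cast
    linarith
  have k6 := P0_nonneg (ep t) (x - pt)
  unfold G
  rw [D2_U]
  have e1 : |96 * ((A.card : ℝ) - 3 / 4) * P0 (ep t) (x - pt)| ≤ 96 * ((A.card : ℝ) + 1) * Real.exp (-4 * t) := by
    rw [abs_mul, abs_of_nonneg k6]
    have e1 : |96 * ((A.card : ℝ) - 3 / 4)| ≤ 96 * ((A.card : ℝ) + 1) := by
      rw [abs_le]
      have : (0:ℝ) ≤ A.card := by positivity
      constructor <;> linarith
    gcongr
  have e2 := abs_le.mp e1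
  have e3 : 0 < Real.exp (4 * U A t x) := Real.exp_pos _
  have e4 : 0 ≤ (A.card : ℝ) * Real.exp (-4 * t) := by positivity
  have e5 : 0 ≤ C * Real.exp (-4 * t) := by positivity
  have e6 : 0 ≤ 96 * ((A.card : ℝ) + 1) * Real.exp (-4 * t) := by positivity
  rw [abs_le]
  constructor <;> nlinarith

end Pool.Agent.MP_e2b804_an
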