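import Pool.Agent.MP_e2b804_an.Modulus
open Real MeasureTheory Metric Filter Set
open scoped Topology ContDiff

noncomputable section
namespace Pool.Agent.MP_e2b804_an

theorem exp_four_diff {a b ι : ℝ} (h : |a - b| ≤ ι) :
    |Real.exp (4 * a) - Real.exp (4 * b)| ≤ Real.exp (4 * a) * (Real.exp (4 * ι) - 1) := by
  have e1 : Real.exp (4 * b) = Real.exp (4 * a) * Real.exp (-(4 * (a - b))) := by
    rw [← Real.exp_add]; congr 1; ring
  have b1 : Real.exp (-(4 * (a - b))) ≤ Real.exp (4 * ι) := by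
    apply Real.exp_le_exp.mpr; linarith [(abs_le.mp h).1]
  have b2 : Real.exp (-(4 * ι)) ≤ Real.exp (-(4 * (a - b))) := by
    apply Real.exp_le_exp.mpr; linarith [(abs_le.mp h).2]
  have b3 : 2 ≤ Real.exp (4 * ι) + Real.exp (-(4 * ι)) := by
    have c2 : 0 < Real.exp (4 * ι) := Real.exp_pos _
    rw [Real.exp_neg, ← sub_nonneg]
    have : Real.exp (4 * ι) + (Real.exp (4 * ι))⁻¹ - 2 =
        (Real.exp (4 * ι) - 1) ^ 2 / Real.exp (4 * ι) := by
      field_simp; ring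
    rw [this]; positivity
  have e2 : |1 - Real.exp (-(4 * (a - b)))| ≤ Real.exp (4 * ι) - 1 := by
    rw [abs_le]; constructor <;> linarith
  have e3 : Real.exp (4 * a) - Real.exp (4 * b) =
      Real.exp (4 * a) * (1 - Real.exp (-(4 * (a - b)))) := by rw [e1]; ring
  rw [e3, abs_mul, abs_of_pos (Real.exp_pos _)]
  gcongr

theorem P0_eq_exp {δ : ℝ} (hδ : 0 < δ) (z : E4) : P0 δ z = δ ^ 4 * Real.exp (4 * (-L δ z)) := by
  have hs : 0 < ‖z‖ ^ 2 + δ ^ 2 := by positivity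
  have h : 4 * (-L δ z) = -Real.log ((‖z‖ ^ 2 + δ ^ 2) ^ 4) := by
    rw [L_eq, Real.log_pow]; push_cast; ring
  rw [h, Real.exp_neg, Real.exp_log (by positivity)]
  rfl

theorem P0_diff {δ ι : ℝ} (hδ : 0 < δ) {z z' : E4} (h : |L δ z - L δ z'| ≤ ι) :
    |P0 δ z - P0 δ z'| ≤ P0 δ z * (Real.exp (4 * ι) - 1) := by
  rw [P0_eq_exp hδ, P0_eq_exp hδ, ← mul_sub, abs_mul, abs_of_pos (by positivity : 0 < δ ^ 4), mul_assoc]
  have h' : |(-L δ z) - (-L δ z')| ≤ ι := by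
    rw [neg_sub_neg, abs_sub_comm]; exact h
  have := exp_four_diff h'
  gcongr

theorem P0_le_inv {δ : ℝ} (hδ : 0 < δ) (z : E4) : P0 δ z ≤ (δ⁻¹) ^ 4 := by
  unfold P0
  rw [div_le_iff₀ (by positivity), inv_pow]
  have h1 : (δ ^ 2) ^ 4 ≤ (‖z‖ ^ 2 + δ ^ 2) ^ 4 := by
    gcongr
    nlinarith [sq_nonneg ‖z‖]
  rw [← div_eq_inv_mul, le_div_iff₀ (by positivity)]
  calc δ ^ 4 * δ ^ 4 = (δ ^ 2) ^ 4 := by ring
    _ ≤ _ := h1

theorem exp_sub_one_le {ι : ℝ} (h0 : 0 ≤ ι) (h1 : ι ≤ 1 / 8) : Real.exp (4 * ι) - 1 ≤ 8 * ι := by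
  have h := Real.abs_exp_sub_one_le (x := 4 * ι) (by rw [abs_of_nonneg (by linarith)]; linarith)
  rw [abs_of_nonneg (by linarith : 0 ≤ 4 * ι)] at h
  have := le_abs_self (Real.exp (4 * ι) - 1)
  linarith

theorem ep_pow_four_le {t : ℝ} : ep t ^ 4 ≤ Real.exp (-(t ^ 4 / 4)) := by
  unfold ep
  rw [← Real.exp_nat_mul]
  apply Real.exp_le_exp.mpr
  push_cast
  have : 0 ≤ t ^ 4 := by positivity
  linarith

variable (A : Finset E4)

theorem G_formula (t : ℝ) (x : E4) : G A t x = 6 * Real.exp (4 * U A t x)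
    - 96 * ∑ a ∈ A, P0 (dl A t a) (x - a)
    + 96 * ((A.card : ℝ) - 3 / 4) * P0 (ep t) (x - pt) := by
  unfold G; rw [D2_U]; ring

theorem G_crude (r : ℝ) : ∀ᶠ t : ℝ in atTop, ∀ x ∈ Om, ‖x‖ ≤ r →
    |G A t x| ≤ (102 + 192 * (A.card : ℝ)) * Real.exp ((16 * (A.card : ℝ) + 6) * t ^ 2) := by
  filter_upwards [U_le_sq A r, dl_inv_le A] with t h1 h2 x hx hxr
  have hN : (0:ℝ) ≤ A.card := by positivity
  have k1 : Real.exp (4 * U A t x) ≤ Real.exp ((16 * (A.card : ℝ) + 6) * t ^ 2) := by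
    apply Real.exp_le_exp.mpr
    have := h1 x hx hxr
    nlinarith [sq_nonneg t]
  have k2 : ∀ a ∈ A, P0 (dl A t a) (x - a) ≤ Real.exp ((16 * (A.card : ℝ) + 6) * t ^ 2) := by
    intro a ha
    refine (P0_le_inv (dl_pos A t a) _).trans ?_
    have h3 : (dl A t a)⁻¹ ≤ Real.exp ((3/2) * t ^ 2) := by
      rw [inv_le_comm₀ (dl_pos A t a) (Real.exp_pos _), ← Real.exp_neg]
      have := h2 a ha
      have e : -(3/2) * t ^ 2 = -((3/2) * t ^ 2) := by ring
      rwa [e] at this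
    calc (dl A t a)⁻¹ ^ 4 ≤ Real.exp ((3/2) * t ^ 2) ^ 4 := by
          have := (dl_pos A t a).le
          gcongr
      _ = Real.exp (6 * t ^ 2) := by rw [← Real.exp_nat_mul]; congr 1; push_cast; ring
      _ ≤ _ := by
          apply Real.exp_le_exp.mpr; nlinarith [sq_nonneg t]
  have k3 := Finset.sum_le_sum k2
  rw [Finset.sum_const, nsmul_eq_mul] at k3
  have k4 : 0 ≤ ∑ a ∈ A, P0 (dl A t a) (x - a) := Finset.sum_nonneg fun a _ => P0_nonneg _ _
  have k5 : P0 (ep t) (x - pt) ≤ Real.exp ((16 * (A.card : ℝ) + 6) * t ^ 2) := by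
    refine (P0_ep_le hx).trans (le_trans (pow_le_one₀ (ep_pos t).le ep_le_one) ?_)
    apply Real.one_le_exp; positivity
  have k6 := P0_nonneg (ep t) (x - pt)
  have k7 : |96 * ((A.card : ℝ) - 3 / 4) * P0 (ep t) (x - pt)| ≤
      96 * ((A.card : ℝ) + 1) * Real.exp ((16 * (A.card : ℝ) + 6) * t ^ 2) := by
    rw [abs_mul, abs_of_nonneg k6]
    have e1 : |96 * ((A.card : ℝ) - 3 / 4)| ≤ 96 * ((A.card : ℝ) + 1) := by
      rw [abs_le]; constructor <;> linarith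
    gcongr
  rw [G_formula]
  have k8 := abs_le.mp k7
  have k9 := Real.exp_pos (4 * U A t x)
  have k10 := Real.exp_pos ((16 * (A.card : ℝ) + 6) * t ^ 2)
  rw [abs_le]
  constructor <;> nlinarith

theorem G_small (r : ℝ) : ∀ᶠ t : ℝ in atTop, ∀ x ∈ Om, ∀ x' ∈ Om, ‖x‖ ≤ r →
    ‖x'‖ ≤ r → ‖x - x'‖ ≤ Real.exp (-(t ^ 4 / 2)) → |G A t x - G A t x'| ≤ Real.exp (-(7 * t ^ 2)) := by
  have hι : ∀ᶠ t : ℝ in atTop, Real.exp (-(t ^ 4 / 4)) ≤ 1 / 8 := by
    have h : Tendsto (fun t : ℝ => Real.exp (-(t ^ 4 / 4))) atTop (𝓝 0) := by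
      refine Real.tendsto_exp_atBot.comp (tendsto_neg_atTop_atBot.comp ?_)
      exact (tendsto_pow_atTop (by norm_num)).atTop_div_const (by norm_num)
    exact (h.eventually (gt_mem_nhds (by norm_num : (0:ℝ) < 1/8))).mono fun t ht => ht.le
  filter_upwards [small_diff A r, U_le_sq A r, dl_inv_le A, hι, eventually_ge_atTop 1,
    ev_sq_le_four (4 * (16 * (A.card : ℝ) + 14)), ev_pow_le_exp 0 (240 + 1200 * (A.card : ℝ))]
    with t h1 h2 h3 h4 h5 h6 h7 x hx x' hx' hxr hxr' hd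
  obtain ⟨d1, d2⟩ := h1 x hx x' hx' hxr hxr' hd
  set ι := Real.exp (-(t ^ 4 / 4)) with hιdef
  have hι0 : 0 < ι := Real.exp_pos _
  have hN : (0:ℝ) ≤ A.card := by positivity
  have hq := exp_sub_one_le hι0.le h4
  have hq0 : 0 ≤ Real.exp (4 * ι) - 1 := by
    have := Real.add_one_le_exp (4 * ι); linarith
  set W := Real.exp ((16 * (A.card : ℝ) + 6) * t ^ 2) with hW
  have hW1 : 1 ≤ W := by rw [hW]; apply Real.one_le_exp; positivity
  have k1 : |Real.exp (4 * U A t x) - Real.exp (4 * U A t x')| ≤ W * (8 * ι) := by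
    refine (exp_four_diff d1).trans ?_
    have : Real.exp (4 * U A t x) ≤ W := by
      apply Real.exp_le_exp.mpr
      have := h2 x hx hxr
      nlinarith [sq_nonneg t]
    gcongr
  have k2 : ∀ a ∈ A, |P0 (dl A t a) (x - a) - P0 (dl A t a) (x' - a)| ≤ W * (8 * ι) := by
    intro a ha
    refine (P0_diff (dl_pos A t a) (d2 a ha)).trans ?_
    have h3' : (dl A t a)⁻¹ ≤ Real.exp ((3/2) * t ^ 2) := by
      rw [inv_le_comm₀ (dl_pos A t a) (Real.exp_pos _), ← Real.exp_neg]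
      have := h3 a ha
      have e : -(3/2) * t ^ 2 = -((3/2) * t ^ 2) := by ring
      rwa [e] at this
    have h8 : P0 (dl A t a) (x - a) ≤ W := by
      refine (P0_le_inv (dl_pos A t a) _).trans ?_
      calc (dl A t a)⁻¹ ^ 4 ≤ Real.exp ((3/2) * t ^ 2) ^ 4 := by
            have := (dl_pos A t a).le
            gcongr
        _ = Real.exp (6 * t ^ 2) := by rw [← Real.exp_nat_mul]; congr 1; push_cast; ring
        _ ≤ _ := by
            apply Real.exp_le_exp.mpr; nlinarith [sq_nonneg t]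
    gcongr
  have k3 : |∑ a ∈ A, P0 (dl A t a) (x - a) - ∑ a ∈ A, P0 (dl A t a) (x' - a)| ≤
      (A.card : ℝ) * (W * (8 * ι)) := by
    rw [← Finset.sum_sub_distrib]
    refine (Finset.abs_sum_le_sum_abs _ _).trans ((Finset.sum_le_sum k2).trans ?_)
    rw [Finset.sum_const, nsmul_eq_mul]
  have k4 : |P0 (ep t) (x - pt) - P0 (ep t) (x' - pt)| ≤ ι := by
    have e1 := P0_ep_le (t := t) hx
    have e2 := P0_ep_le (t := t) hx'
    have e3 := P0_nonneg (ep t) (x - pt)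
    have e4 := P0_nonneg (ep t) (x' - pt)
    have e5 := ep_pow_four_le (t := t)
    rw [abs_le]; constructor <;> linarith
  have k5 : |96 * ((A.card : ℝ) - 3 / 4) * (P0 (ep t) (x - pt) - P0 (ep t) (x' - pt))| ≤
      96 * ((A.card : ℝ) + 1) * ι := by
    rw [abs_mul]
    have e1 : |96 * ((A.card : ℝ) - 3 / 4)| ≤ 96 * ((A.card : ℝ) + 1) := by
      rw [abs_le]; constructor <;> linarith
    gcongr
  have k6 : G A t x - G A t x' = 6 * (Real.exp (4 * U A t x) - Real.exp (4 * U A t x'))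
      - 96 * (∑ a ∈ A, P0 (dl A t a) (x - a) - ∑ a ∈ A, P0 (dl A t a) (x' - a))
      + 96 * ((A.card : ℝ) - 3 / 4) * (P0 (ep t) (x - pt) - P0 (ep t) (x' - pt)) := by
    rw [G_formula, G_formula]; ring
  have k7 : |G A t x - G A t x'| ≤ (240 + 1200 * (A.card : ℝ)) * (W * ι) := by
    rw [k6]
    have e1 := abs_le.mp k1
    have e2 := abs_le.mp k3
    have e3 := abs_le.mp k5
    have e4 : ι ≤ W * ι := by nlinarith
    have e5 : (A.card : ℝ) * ι ≤ (A.card : ℝ) * (W * ι) := by gcongr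
    have e6 : 0 ≤ (A.card : ℝ) * (W * ι) := by positivity
    have e7 : 0 ≤ W * ι := by positivity
    rw [abs_le]
    constructor <;> nlinarith
  refine k7.trans ?_
  have k8 : (240 + 1200 * (A.card : ℝ)) ≤ Real.exp (t ^ 2) := by
    have e1 : (240 + 1200 * (A.card : ℝ)) ≤ Real.exp t := by simpa using h7
    have e2 : Real.exp t ≤ Real.exp (t ^ 2) := by
      apply Real.exp_le_exp.mpr; nlinarith
    linarith
  calc (240 + 1200 * (A.card : ℝ)) * (W * ι) ≤ Real.exp (t ^ 2) * (W * ι) := by gcongr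
    _ = Real.exp (t ^ 2 + (16 * (A.card : ℝ) + 6) * t ^ 2 + -(t ^ 4 / 4)) := by
        rw [hW, hιdef, Real.exp_add, Real.exp_add]; ring
    _ ≤ Real.exp (-(7 * t ^ 2)) := by
        apply Real.exp_le_exp.mpr; nlinarith

end Pool.Agent.MP_e2b804_an
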