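import Pool.Agent.MP_e2b804_an.Integrals
open Real MeasureTheory Metric Filter Set
open scoped Topology

noncomputable section
namespace Pool.Agent.MP_e2b804_an

theorem J_deriv {ε : ℝ} (hε : 0 < ε) (y : ℝ) :
    HasDerivAt (fun y : ℝ => (1/2) * Real.log (y ^ 2 + ε ^ 2)) (y / (y ^ 2 + ε ^ 2)) y := by
  have h0 : HasDerivAt (fun y : ℝ => y ^ 2 + ε ^ 2) (2 * y) y := by
    simpa using (hasDerivAt_pow 2 y).add_const (ε ^ 2)
  have hp : 0 < y ^ 2 + ε ^ 2 := by positivity
  refine ((h0.log hp.ne').const_mul (1/2)).congr_deriv ?_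
  field_simp

theorem integral_J_le {ε R : ℝ} (hε : 0 < ε) (hR : 0 < R) :
    ∫ x in ball (0 : E4) R, ((‖x‖ ^ 2 + ε ^ 2) ^ 2)⁻¹ ≤
      π ^ 2 * Real.log (1 + (R / ε) ^ 2) := by
  have h := integral_fun_norm_addHaar (E := E4) volume
    (indicator (Iio R) (fun y : ℝ => ((y ^ 2 + ε ^ 2) ^ 2)⁻¹))
  rw [finrank_E4, vol_ball_one] at h
  have h1 : ∫ x in ball (0 : E4) R, ((‖x‖ ^ 2 + ε ^ 2) ^ 2)⁻¹ =
      ∫ x : E4, indicator (Iio R) (fun y : ℝ => ((y ^ 2 + ε ^ 2) ^ 2)⁻¹) ‖x‖ := by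
    rw [← integral_indicator measurableSet_ball]
    congr 1
    ext1 x
    by_cases hx : ‖x‖ < R
    · rw [indicator_of_mem (by simpa using hx), indicator_of_mem (by simpa using hx)]
    · rw [indicator_of_notMem (by simpa using hx), indicator_of_notMem (by simpa using hx)]
  rw [h1, h]
  have hcont : Continuous (fun y : ℝ => y / (y ^ 2 + ε ^ 2)) :=
    continuous_id.div (by fun_prop) fun y => by positivity
  have h2 : ∫ y in Ioi (0:ℝ), y ^ (4 - 1) • (Iio R).indicator (fun y ↦ ((y ^ 2 + ε ^ 2) ^ 2)⁻¹) y ≤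
      ∫ y in Ioo (0:ℝ) R, y / (y ^ 2 + ε ^ 2) := by
    have e : ∫ y in Ioi (0:ℝ), y ^ (4 - 1) • (Iio R).indicator (fun y ↦ ((y ^ 2 + ε ^ 2) ^ 2)⁻¹) y
        = ∫ y in Ioo (0:ℝ) R, y ^ 3 * ((y ^ 2 + ε ^ 2) ^ 2)⁻¹ := by
      rw [← integral_indicator measurableSet_Ioi, ← integral_indicator measurableSet_Ioo]
      congr 1
      ext1 y
      by_cases hy0 : 0 < y
      · by_cases hyR : y < R
        · rw [indicator_of_mem (by exact hy0), indicator_of_mem (by exact hyR),
            indicator_of_mem (by exact ⟨hy0, hyR⟩)]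
          rfl
        · rw [indicator_of_mem (by exact hy0), indicator_of_notMem (by exact hyR),
            indicator_of_notMem (fun h => hyR h.2)]
          simp
      · rw [indicator_of_notMem (by exact hy0), indicator_of_notMem (fun h => hy0 h.1)]
    rw [e]
    refine setIntegral_mono_on ?_ ?_ measurableSet_Ioo fun y hy => ?_
    · have : Continuous (fun y : ℝ => y ^ 3 * ((y ^ 2 + ε ^ 2) ^ 2)⁻¹) :=
        (by fun_prop : Continuous fun y : ℝ => y ^ 3).mul
          ((by fun_prop : Continuous fun y : ℝ => (y ^ 2 + ε ^ 2) ^ 2).inv₀ fun y => by positivity)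
      exact (this.integrableOn_Icc).mono_set Ioo_subset_Icc_self
    · exact (hcont.integrableOn_Icc).mono_set Ioo_subset_Icc_self
    · have hy0 : 0 < y := hy.1
      have hp : 0 < y ^ 2 + ε ^ 2 := by positivity
      rw [← div_eq_mul_inv, div_le_div_iff₀ (by positivity) hp]
      have : y ^ 3 ≤ y * (y ^ 2 + ε ^ 2) := by nlinarith [sq_nonneg ε]
      nlinarith
  have h3 : ∫ y in Ioo (0:ℝ) R, y / (y ^ 2 + ε ^ 2) = (1/2) * Real.log (1 + (R / ε) ^ 2) := by
    rw [← integral_Ioc_eq_integral_Ioo, ← intervalIntegral.integral_of_le hR.le,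
      intervalIntegral.integral_eq_sub_of_hasDerivAt (fun y _ => J_deriv hε y)
      (hcont.intervalIntegrable _ _)]
    have : 1 + (R / ε) ^ 2 = (R ^ 2 + ε ^ 2) / (0 ^ 2 + ε ^ 2) := by field_simp; ring
    rw [this, Real.log_div (by positivity) (by positivity)]
    ring
  rw [h3] at h2
  simp only [nsmul_eq_mul, smul_eq_mul] at h2 ⊢
  have hπ : 0 < π ^ 2 := by positivity
  push_cast
  nlinarith

end Pool.Agent.MP_e2b804_an
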