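import Pool.Agent.MP_e2b804_an.BiLap
open Real MeasureTheory Metric Filter Set
open scoped Topology

noncomputable section
namespace Pool.Agent.MP_e2b804_an

/-- four dimensional Euclidean space -/
abbrev E4 : Type := EuclideanSpace ℝ (Fin 4)

theorem finrank_E4 : Module.finrank ℝ E4 = 4 := by simp

theorem vol_ball_one : (volume : Measure E4).real (ball 0 1) = π ^ 2 / 2 := by
  rw [Measure.real, InnerProductSpace.volume_ball_of_dim_even (k := 2) (by simp)]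
  simp [ENNReal.toReal_ofReal (show (0:ℝ) ≤ π ^ 2 / 2 by positivity), Nat.factorial]

/-- the kernel `ε^4 / (|x|^2 + ε^2)^4` -/
def P0 (ε : ℝ) (x : E4) : ℝ := ε ^ 4 / (‖x‖ ^ 2 + ε ^ 2) ^ 4

theorem P0_nonneg (ε : ℝ) (x : E4) : 0 ≤ P0 ε x := by unfold P0; positivity

/-- antiderivative of the radial density -/
def F0 (ε y : ℝ) : ℝ := -(1/4) * ε ^ 4 * ((y ^ 2 + ε ^ 2) ^ 2)⁻¹ + (1/6) * ε ^ 6 * ((y ^ 2 + ε ^ 2) ^ 3)⁻¹

theorem F0_deriv {ε : ℝ} (hε : 0 < ε) (y : ℝ) :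
    HasDerivAt (F0 ε) (y ^ 3 • (ε ^ 4 / (y ^ 2 + ε ^ 2) ^ 4)) y := by
  have h0 : HasDerivAt (fun y : ℝ => y ^ 2 + ε ^ 2) (2 * y) y := by
    simpa using (hasDerivAt_pow 2 y).add_const (ε ^ 2)
  have hp : 0 < y ^ 2 + ε ^ 2 := by positivity
  have h1 := ((h0.pow 2).inv (pow_pos hp 2).ne').const_mul (-(1/4) * ε ^ 4)
  have h2 := ((h0.pow 3).inv (pow_pos hp 3).ne').const_mul ((1/6) * ε ^ 6)
  refine (h1.add h2).congr_deriv ?_
  simp only [Pi.pow_apply, smul_eq_mul]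
  field_simp
  push_cast
  ring

theorem F0_tendsto {ε : ℝ} : Tendsto (F0 ε) atTop (𝓝 0) := by
  have h0 : Tendsto (fun y : ℝ => y ^ 2 + ε ^ 2) atTop atTop :=
    tendsto_atTop_add_const_right _ _ (tendsto_pow_atTop (by norm_num))
  have h2 : Tendsto (fun y : ℝ => ((y ^ 2 + ε ^ 2) ^ 2)⁻¹) atTop (𝓝 0) :=
    ((tendsto_pow_atTop (by norm_num)).comp h0).inv_tendsto_atTop
  have h3 : Tendsto (fun y : ℝ => ((y ^ 2 + ε ^ 2) ^ 3)⁻¹) atTop (𝓝 0) :=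
    ((tendsto_pow_atTop (by norm_num)).comp h0).inv_tendsto_atTop
  have := (h2.const_mul (-(1/4) * ε ^ 4)).add (h3.const_mul ((1/6) * ε ^ 6))
  rw [mul_zero, mul_zero, add_zero] at this
  exact this

theorem F0_zero {ε : ℝ} (hε : 0 < ε) : F0 ε 0 = -(1/12) := by
  unfold F0
  field_simp
  ring

theorem radial_int {ε : ℝ} (hε : 0 < ε) :
    IntegrableOn (fun y : ℝ => y ^ 3 • (ε ^ 4 / (y ^ 2 + ε ^ 2) ^ 4)) (Ioi 0) ∧
    ∫ y in Ioi (0:ℝ), y ^ 3 • (ε ^ 4 / (y ^ 2 + ε ^ 2) ^ 4) = 1 / 12 := by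
  have hpos : ∀ y ∈ Ioi (0:ℝ), 0 ≤ y ^ 3 • (ε ^ 4 / (y ^ 2 + ε ^ 2) ^ 4) := by
    intro y hy
    have : (0:ℝ) < y := hy
    rw [smul_eq_mul]
    positivity
  refine ⟨integrableOn_Ioi_deriv_of_nonneg' (fun x _ => F0_deriv hε x) hpos F0_tendsto, ?_⟩
  rw [integral_Ioi_of_hasDerivAt_of_nonneg' (fun x _ => F0_deriv hε x) hpos F0_tendsto,
    F0_zero hε]
  norm_num

theorem integrable_P0 {ε : ℝ} (hε : 0 < ε) : Integrable (P0 ε) := by
  have h := (integrable_fun_norm_addHaar (E := E4) volume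
    (f := fun y : ℝ => ε ^ 4 / (y ^ 2 + ε ^ 2) ^ 4)).mpr
  rw [finrank_E4] at h
  exact h (radial_int hε).1

theorem integral_P0 {ε : ℝ} (hε : 0 < ε) : ∫ x, P0 ε x = π ^ 2 / 6 := by
  have h := integral_fun_norm_addHaar (E := E4) volume
    (fun y : ℝ => ε ^ 4 / (y ^ 2 + ε ^ 2) ^ 4)
  rw [finrank_E4, vol_ball_one, (radial_int hε).2] at h
  unfold P0
  rw [h]
  simp
  ring

theorem continuous_P0 {ε : ℝ} (hε : 0 < ε) : Continuous (P0 ε) := by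
  unfold P0
  refine continuous_const.div (by fun_prop) fun x => ?_
  positivity

/-- tail estimate -/
theorem P0_tail_le {ε r : ℝ} (hε : 0 < ε) (hr : 0 < r) {x : E4} (hx : r ≤ ‖x‖) :
    P0 ε x ≤ 16 * (ε / r) ^ 4 * P0 r x := by
  unfold P0
  have h1 : r ^ 2 ≤ ‖x‖ ^ 2 := by gcongr
  have h2 : (‖x‖ ^ 2 + r ^ 2) / 2 ≤ ‖x‖ ^ 2 + ε ^ 2 := by nlinarith [sq_nonneg ε]
  have h3 : 0 < (‖x‖ ^ 2 + r ^ 2) / 2 := by positivity
  calc ε ^ 4 / (‖x‖ ^ 2 + ε ^ 2) ^ 4 ≤ ε ^ 4 / ((‖x‖ ^ 2 + r ^ 2) / 2) ^ 4 := by gcongr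
    _ = 16 * (ε / r) ^ 4 * (r ^ 4 / (‖x‖ ^ 2 + r ^ 2) ^ 4) := by
        field_simp
        norm_num

theorem integral_P0_tail {ε r : ℝ} (hε : 0 < ε) (hr : 0 < r) :
    ∫ x in {x : E4 | r ≤ ‖x‖}, P0 ε x ≤ 16 * (ε / r) ^ 4 * (π ^ 2 / 6) := by
  have hm : MeasurableSet {x : E4 | r ≤ ‖x‖} := measurableSet_le measurable_const measurable_norm
  calc ∫ x in {x : E4 | r ≤ ‖x‖}, P0 ε x
      ≤ ∫ x in {x : E4 | r ≤ ‖x‖}, 16 * (ε / r) ^ 4 * P0 r x := by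
        refine setIntegral_mono_on (integrable_P0 hε).integrableOn
          ((integrable_P0 hr).const_mul _).integrableOn hm fun x hx => P0_tail_le hε hr hx
    _ ≤ ∫ x, 16 * (ε / r) ^ 4 * P0 r x := by
        refine setIntegral_le_integral ((integrable_P0 hr).const_mul _) ?_
        exact Eventually.of_forall fun x => mul_nonneg (by positivity) (P0_nonneg _ _)
    _ = 16 * (ε / r) ^ 4 * (π ^ 2 / 6) := by
        rw [integral_const_mul, integral_P0 hr]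

end Pool.Agent.MP_e2b804_an
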