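import Mathlib
open Real InnerProductSpace
open scoped ContDiff Topology

noncomputable section
namespace Pool.Agent.MP_e2b804_an

section
variable {E : Type*} [NormedAddCommGroup E] [InnerProductSpace ℝ E]

theorem fderiv_nsq : fderiv ℝ (fun y : E => ‖y‖ ^ 2) = fun x => (2:ℝ) • innerSL ℝ x := by
  ext1 x
  have h := (hasStrictFDerivAt_norm_sq x).hasFDerivAt.fderiv
  rw [h]
  ext v
  simp

/-- the linear map `x ↦ 2 ⟨x, ·⟩` -/
def twoInner (E : Type*) [NormedAddCommGroup E] [InnerProductSpace ℝ E] : E →L[ℝ] E →L[ℝ] ℝ :=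
  (2:ℝ) • innerSL ℝ

theorem fderiv_nsq' : fderiv ℝ (fun y : E => ‖y‖ ^ 2) = (twoInner E : E → E →L[ℝ] ℝ) := by
  rw [fderiv_nsq]; rfl

theorem norm_twoInner_le : ‖twoInner E‖ ≤ 2 := by
  refine ContinuousLinearMap.opNorm_le_bound _ (by norm_num) fun x => ?_
  have h : twoInner E x = (2:ℝ) • innerSL ℝ x := rfl
  rw [h, norm_smul, innerSL_apply_norm]
  simp

theorem iter_nsq_one (x : E) : ‖iteratedFDeriv ℝ 1 (fun y : E => ‖y‖ ^ 2) x‖ ≤ 2 * ‖x‖ := by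
  rw [norm_iteratedFDeriv_one, fderiv_nsq, norm_smul, innerSL_apply_norm]
  simp

theorem iter_nsq_two (x : E) : ‖iteratedFDeriv ℝ 2 (fun y : E => ‖y‖ ^ 2) x‖ ≤ 2 := by
  rw [← norm_iteratedFDeriv_fderiv, fderiv_nsq', norm_iteratedFDeriv_one,
    ContinuousLinearMap.fderiv]
  exact norm_twoInner_le

theorem iter_nsq_ge (x : E) (i : ℕ) : ‖iteratedFDeriv ℝ (i+3) (fun y : E => ‖y‖ ^ 2) x‖ = 0 := by
  rw [← norm_iteratedFDeriv_fderiv, fderiv_nsq', ← norm_iteratedFDeriv_fderiv]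
  have h : fderiv ℝ (twoInner E : E → E →L[ℝ] ℝ) = fun _ => twoInner E := by
    ext1 x; exact ContinuousLinearMap.fderiv _
  rw [h, iteratedFDeriv_const_of_ne (by omega)]
  simp

/-- `log (|x|^2 + δ^2)` -/
def L (δ : ℝ) (x : E) : ℝ := Real.log (‖x‖ ^ 2 + δ ^ 2)

omit [InnerProductSpace ℝ E] in
theorem sq_pos_L {δ : ℝ} (hδ : 0 < δ) (x : E) : 0 < ‖x‖ ^ 2 + δ ^ 2 := by positivity

theorem contDiff_L {δ : ℝ} (hδ : 0 < δ) : ContDiff ℝ ∞ (L δ : E → ℝ) := by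
  unfold L
  exact ((contDiff_norm_sq ℝ).add contDiff_const).log fun x => (sq_pos_L hδ x).ne'

theorem iter_L_le (j : ℕ) (hj : 1 ≤ j) : ∃ C : ℝ, 0 ≤ C ∧ ∀ δ : ℝ, 0 < δ → ∀ x : E,
    ‖iteratedFDeriv ℝ j (L δ) x‖ ≤ C * ((√(‖x‖ ^ 2 + δ ^ 2))⁻¹) ^ j := by
  -- bound on derivatives of the logarithm at 1
  obtain ⟨C, hC⟩ : ∃ C : ℝ, ∀ i ≤ j, ‖iteratedFDerivWithin ℝ i Real.log (Set.Ioi 0) 1‖ ≤ C := by
    refine ⟨∑ i ∈ Finset.range (j+1), ‖iteratedFDerivWithin ℝ i Real.log (Set.Ioi 0) 1‖, ?_⟩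
    intro i hi
    exact Finset.single_le_sum (f := fun i => ‖iteratedFDerivWithin ℝ i Real.log (Set.Ioi 0) 1‖)
      (fun _ _ => norm_nonneg _) (Finset.mem_range.mpr (by omega))
  have hC0 : 0 ≤ C := (norm_nonneg _).trans (hC 0 (by omega))
  refine ⟨(j.factorial : ℝ) * C * 2 ^ j, by positivity, fun δ hδ x => ?_⟩
  set σ := ‖x‖ ^ 2 + δ ^ 2 with hσ
  have hσ0 : 0 < σ := sq_pos_L hδ x
  set f : E → ℝ := fun y => σ⁻¹ * (‖y‖ ^ 2 + δ ^ 2) with hf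
  have hfs : ContDiff ℝ ∞ f := contDiff_const.mul ((contDiff_norm_sq ℝ).add contDiff_const)
  have hf1 : f x = 1 := by rw [hf]; simp only; rw [← hσ, inv_mul_cancel₀ hσ0.ne']
  have hrange : Set.range f ⊆ Set.Ioi 0 := by
    rintro _ ⟨y, rfl⟩
    exact mul_pos (inv_pos.mpr hσ0) (sq_pos_L hδ y)
  have hlog : ContDiffOn ℝ ∞ Real.log (Set.Ioi 0) := fun y hy =>
    (contDiffAt_log.mpr (ne_of_gt hy)).contDiffWithinAt
  have hfn : ∀ i, 1 ≤ i → iteratedFDeriv ℝ i f x = σ⁻¹ • iteratedFDeriv ℝ i (fun y : E => ‖y‖ ^ 2) x := by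
    intro i hi
    have h1 : f = fun y => σ⁻¹ • ((fun y : E => ‖y‖ ^ 2) y + (fun _ : E => δ ^ 2) y) := by
      ext1 y; simp [hf]
    rw [h1, iteratedFDeriv_const_smul_apply' ((contDiff_norm_sq ℝ).add contDiff_const).contDiffAt,
      fun_iteratedFDeriv_add_apply (contDiff_norm_sq ℝ).contDiffAt contDiff_const.contDiffAt,
      iteratedFDeriv_const_of_ne (by omega)]
    simp
  have hsq : √σ ^ 2 = σ := Real.sq_sqrt hσ0.le
  have hsq0 : 0 < √σ := Real.sqrt_pos.mpr hσ0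
  have hxs : ‖x‖ ≤ √σ := by
    apply Real.le_sqrt_of_sq_le
    rw [hσ]; nlinarith [sq_nonneg δ]
  have hD : ∀ i, 1 ≤ i → i ≤ j → ‖iteratedFDeriv ℝ i f x‖ ≤ (2 * (√σ)⁻¹) ^ i := by
    intro i hi _
    rw [hfn i hi, norm_smul, norm_inv, Real.norm_of_nonneg hσ0.le]
    rcases i with _ | _ | _ | i
    · omega
    · rw [zero_add, pow_one]
      calc σ⁻¹ * ‖iteratedFDeriv ℝ 1 (fun y : E => ‖y‖ ^ 2) x‖ ≤ σ⁻¹ * (2 * √σ) := by
            gcongr
            exact (iter_nsq_one x).trans (by gcongr)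
        _ = 2 * (√σ)⁻¹ := by
            nth_rw 1 [← hsq]
            field_simp
    · rw [zero_add]
      calc σ⁻¹ * ‖iteratedFDeriv ℝ (1+1) (fun y : E => ‖y‖ ^ 2) x‖ ≤ σ⁻¹ * 2 := by
            gcongr
            exact iter_nsq_two x
        _ ≤ (2 * (√σ)⁻¹) ^ (1+1) := by
            rw [mul_pow, inv_pow, hsq]
            have : 0 < σ⁻¹ := inv_pos.mpr hσ0
            nlinarith
    · rw [iter_nsq_ge, mul_zero]
      positivity
  have hmain := norm_iteratedFDeriv_comp_le' hrange (uniqueDiffOn_Ioi 0) hlog hfs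
    (n := j) (by exact_mod_cast le_top) x (C := C) (D := 2 * (√σ)⁻¹)
    (by intro i hi; rw [hf1]; exact hC i hi) hD
  have hL : (L δ : E → ℝ) = fun y => (Real.log ∘ f) y + Real.log σ := by
    ext1 y
    simp only [L, hf, Function.comp]
    rw [Real.log_mul (inv_pos.mpr hσ0).ne' (sq_pos_L hδ y).ne', Real.log_inv]
    ring
  have hcomp : ContDiff ℝ ∞ (Real.log ∘ f) := by
    have : ContDiff ℝ ∞ (fun y => Real.log (f y)) :=
      hfs.log fun y => (hrange ⟨y, rfl⟩ : (0:ℝ) < f y).ne'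
    exact this
  rw [hL, fun_iteratedFDeriv_add_apply (hcomp.contDiffAt.of_le (by exact_mod_cast le_top)) contDiff_const.contDiffAt,
    iteratedFDeriv_const_of_ne (by omega)]
  simp only [Pi.zero_apply, add_zero]
  refine hmain.trans (le_of_eq ?_)
  rw [mul_pow]
  ring

end

end Pool.Agent.MP_e2b804_an
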