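import Pool.Agent.MP_e2b804_an.IterV
open Real MeasureTheory Metric Filter Set
open scoped Topology ContDiff

noncomputable section
namespace Pool.Agent.MP_e2b804_an

theorem ev_dl_le_one (A : Finset E4) : ∀ᶠ t : ℝ in atTop, ∀ a ∈ A, dl A t a ≤ 1 := by
  rw [Filter.eventually_all_finset]
  intro a _
  exact ((tendsto_dl A a).eventually (gt_mem_nhds one_pos)).mono fun t ht => ht.le

theorem U_lower (A : Finset E4) : ∀ᶠ t : ℝ in atTop, ∀ x ∈ Om,
    -(4/3) * t ^ 2 - t - (3/4) * L (ep t) (x - pt) - (A.card : ℝ) * Real.log (KA A) ≤ U A t x := by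
  filter_upwards [ev_dl_le_one A] with t h1 x hx
  have hpt := one_le_norm_sub_pt hx
  unfold U
  have h : ∀ a ∈ A, -Real.log (KA A) ≤ L (ep t) (x - pt) - L (dl A t a) (x - a) := by
    intro a ha
    have hd := dl_pos A t a
    have hd1 := h1 a ha
    have he := ep_pos t
    have hK := one_le_KA A
    rw [L_eq, L_eq, neg_le_sub_iff_le_add, ← Real.log_mul (by positivity) (by positivity)]
    apply Real.log_le_log (by positivity)
    have h2 : ‖x - a‖ ≤ ‖x - pt‖ * (1 + ‖a - pt‖) := by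
      have e1 : ‖x - a‖ ≤ ‖x - pt‖ + ‖a - pt‖ := by
        have : x - a = (x - pt) - (a - pt) := by abel
        rw [this]; exact norm_sub_le _ _
      have := norm_nonneg (a - pt)
      nlinarith
    have h3 : ‖x - a‖ ^ 2 ≤ ‖x - pt‖ ^ 2 * (1 + ‖a - pt‖) ^ 2 := by
      rw [← mul_pow]; gcongr
    have h4 := le_KA ha
    have h5 : 1 ≤ ‖x - pt‖ ^ 2 := one_le_pow₀ hpt
    have h6 : dl A t a ^ 2 ≤ 1 := by nlinarith
    have h7 : 0 ≤ ep t ^ 2 * KA A := by positivity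
    nlinarith
  have h2 := Finset.sum_le_sum h
  rw [Finset.sum_const, nsmul_eq_mul] at h2
  have h3 := phi_ge hx
  have h4 : t ^ 2 * -(4/3) ≤ t ^ 2 * phi x := by
    have : 0 ≤ t ^ 2 := by positivity
    nlinarith
  linarith

theorem L_pt_le {t r : ℝ} {x : E4} (hxr : ‖x‖ ≤ r) : L (ep t) (x - pt) ≤ (r + 3) ^ 2 + 1 := by
  rw [L_eq]
  have he := ep_pos t
  have he1 := ep_le_one (t := t)
  have h0 := norm_nonneg x
  have h1 : ‖x - pt‖ ≤ r + 3 := by
    have := norm_sub_le x pt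
    rw [norm_pt] at this; linarith
  have h2 : ‖x - pt‖ ^ 2 ≤ (r + 3) ^ 2 := by gcongr
  have h3 : ep t ^ 2 ≤ 1 := by nlinarith
  have h4 := Real.log_le_sub_one_of_pos (show 0 < ‖x - pt‖ ^ 2 + ep t ^ 2 by positivity)
  linarith

theorem L_pt_nonneg {t : ℝ} {x : E4} (hx : x ∈ Om) : 0 ≤ L (ep t) (x - pt) := by
  rw [L_eq]
  apply Real.log_nonneg
  have := one_le_norm_sub_pt hx
  nlinarith [sq_nonneg (ep t)]

theorem expU_lower (A : Finset E4) (r : ℝ) : ∀ᶠ t : ℝ in atTop, ∀ x ∈ Om, ‖x‖ ≤ r →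
    Real.exp (-(6 * t ^ 2)) ≤ Real.exp (4 * U A t x) := by
  filter_upwards [U_lower A, ev_le_sq 12, eventually_ge_atTop 1,
    ev_le_sq (12 * ((r + 3) ^ 2 + 1 + |(A.card : ℝ) * Real.log (KA A)|))] with t h1 h2 h3 h4 x hx hxr
  have k1 := h1 x hx
  have k2 := L_pt_le (t := t) hxr
  have k4 := le_abs_self ((A.card : ℝ) * Real.log (KA A))
  apply Real.exp_le_exp.mpr
  have k5 : 0 ≤ (r + 3) ^ 2 + 1 + |(A.card : ℝ) * Real.log (KA A)| := by positivity
  have k6 : (r + 3) ^ 2 + 1 + |(A.card : ℝ) * Real.log (KA A)| ≤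
    ((r + 3) ^ 2 + 1 + |(A.card : ℝ) * Real.log (KA A)|) * t := by nlinarith
  nlinarith [abs_nonneg ((A.card : ℝ) * Real.log (KA A)), sq_nonneg (r + 3)]

theorem dl_inv_le (A : Finset E4) : ∀ᶠ t : ℝ in atTop, ∀ a ∈ A,
    Real.exp (-(3/2) * t ^ 2) ≤ dl A t a := by
  rw [Filter.eventually_all_finset]
  intro a _
  filter_upwards [eventually_ge_atTop 1, ev_le_sq (6 * (2 + |cc A a|))] with t h1 h2
  unfold dl
  rw [le_div_iff₀ (by norm_num)]
  have h6 : (2:ℝ) ≤ Real.exp 1 := by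
    have := Real.add_one_le_exp (1:ℝ); linarith
  calc Real.exp (-(3/2) * t ^ 2) * 2 ≤ Real.exp (-(3/2) * t ^ 2) * Real.exp 1 := by gcongr
    _ = Real.exp (-(3/2) * t ^ 2 + 1) := by rw [← Real.exp_add]
    _ ≤ _ := by
      apply Real.exp_le_exp.mpr
      have h3 := neg_abs_le (cc A a)
      have h4 := abs_nonneg (cc A a)
      have h5 : |cc A a| ≤ |cc A a| * t := by nlinarith
      nlinarith

theorem U_le_sq (A : Finset E4) (r : ℝ) : ∀ᶠ t : ℝ in atTop, ∀ x ∈ Om, ‖x‖ ≤ r →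
    U A t x ≤ (4 * (A.card : ℝ)) * t ^ 2 := by
  filter_upwards [dl_inv_le A, eventually_ge_atTop 1, ev_le_sq ((r + 3) ^ 2 + 1)] with t h1 h2 h3 x hx hxr
  unfold U
  have hφ : t ^ 2 * phi x ≤ 0 := mul_nonpos_of_nonneg_of_nonpos (by positivity) (phi_nonpos hx)
  have k2 := L_pt_le (t := t) hxr
  have k3 := L_pt_nonneg (t := t) hx
  have h : ∀ a ∈ A, L (ep t) (x - pt) - L (dl A t a) (x - a) ≤ 4 * t ^ 2 := by
    intro a ha
    have hd := dl_pos A t a
    have k4 : -(3 * t ^ 2) ≤ L (dl A t a) (x - a) := by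
      rw [L_eq]
      have e1 : Real.log (dl A t a ^ 2) ≤ Real.log (‖x - a‖ ^ 2 + dl A t a ^ 2) := by
        apply Real.log_le_log (by positivity)
        have := sq_nonneg ‖x - a‖
        linarith
      have e2 : -(3/2) * t ^ 2 ≤ Real.log (dl A t a) := by
        rw [Real.le_log_iff_exp_le hd]; exact h1 a ha
      rw [Real.log_pow] at e1
      push_cast at e1
      linarith
    have k5 : (r + 3) ^ 2 + 1 ≤ ((r + 3) ^ 2 + 1) * t := by
      have : 0 ≤ (r + 3) ^ 2 + 1 := by positivity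
      nlinarith
    linarith
  have h2' := Finset.sum_le_sum h
  rw [Finset.sum_const, nsmul_eq_mul] at h2'
  linarith

theorem log_diff_le {a b m : ℝ} (hm : 0 < m) (ha : m ≤ a) (hb : m ≤ b) :
    |Real.log a - Real.log b| ≤ |a - b| / m := by
  have ha0 : 0 < a := by linarith
  have hb0 : 0 < b := by linarith
  have key : ∀ p q : ℝ, m ≤ p → m ≤ q → Real.log p - Real.log q ≤ |p - q| / m := by
    intro p q hp hq
    have hp0 : 0 < p := by linarith
    have hq0 : 0 < q := by linarith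
    rw [← Real.log_div hp0.ne' hq0.ne']
    have h1 := Real.log_le_sub_one_of_pos (show 0 < p / q by positivity)
    have h2 : p / q - 1 = (p - q) / q := by field_simp
    have h3 : (p - q) / q ≤ |p - q| / m := by
      calc (p - q) / q ≤ |p - q| / q := by gcongr; exact le_abs_self _
        _ ≤ |p - q| / m := by gcongr
    linarith
  rw [abs_le]
  constructor
  · have := key b a hb ha
    rw [abs_sub_comm] at this
    linarith
  · exact key a b ha hb

theorem L_diff_le {δ m : ℝ} (hm : 0 < m) {z z' : E4} (hz : m ≤ ‖z‖ ^ 2 + δ ^ 2)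
    (hz' : m ≤ ‖z'‖ ^ 2 + δ ^ 2) : |L δ z - L δ z'| ≤ (‖z‖ + ‖z'‖) * ‖z - z'‖ / m := by
  rw [L_eq, L_eq]
  refine (log_diff_le hm hz hz').trans ?_
  gcongr
  have : ‖z‖ ^ 2 + δ ^ 2 - (‖z'‖ ^ 2 + δ ^ 2) = (‖z‖ + ‖z'‖) * (‖z‖ - ‖z'‖) := by ring
  rw [this, abs_mul, abs_of_nonneg (by positivity)]
  gcongr
  exact abs_norm_sub_norm_le z z'

theorem phi_diff_le {x x' : E4} (hx : x ∈ Om) (hx' : x' ∈ Om) : |phi x - phi x'| ≤ 5 * ‖x - x'‖ := by
  have h1 : |x 0 - x' 0| ≤ ‖x - x'‖ := by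
    have := PiLp.norm_apply_le (x - x') 0
    simpa using this
  have h2 : phi x - phi x' = (x 0 - x' 0) * (1 - (x 0 ^ 2 + x 0 * x' 0 + x' 0 ^ 2) / 3) := by
    unfold phi; ring
  rw [h2, abs_mul]
  have h3 : |1 - (x 0 ^ 2 + x 0 * x' 0 + x' 0 ^ 2) / 3| ≤ 5 := by
    obtain ⟨a1, a2⟩ := hx
    obtain ⟨b1, b2⟩ := hx'
    rw [abs_le]
    constructor <;> nlinarith
  have h4 := abs_nonneg (x 0 - x' 0)
  nlinarith [norm_nonneg (x - x')]

/-- modulus of continuity at exponentially small scales -/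
theorem small_diff (A : Finset E4) (r : ℝ) : ∀ᶠ t : ℝ in atTop, ∀ x ∈ Om, ∀ x' ∈ Om, ‖x‖ ≤ r →
    ‖x'‖ ≤ r → ‖x - x'‖ ≤ Real.exp (-(t ^ 4 / 2)) →
      |U A t x - U A t x'| ≤ Real.exp (-(t ^ 4 / 4)) ∧
      ∀ a ∈ A, |L (dl A t a) (x - a) - L (dl A t a) (x' - a)| ≤ Real.exp (-(t ^ 4 / 4)) := by
  set C : ℝ := 5 + ((A.card : ℝ) + 1) * (2 * |r| + 6) + ∑ a ∈ A, (2 * |r| + 2 * ‖a‖ + 1) with hC
  have hC0 : 0 ≤ C := by
    have : 0 ≤ ∑ a ∈ A, (2 * |r| + 2 * ‖a‖ + 1) := Finset.sum_nonneg fun a _ => by positivity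
    have : 0 ≤ ((A.card : ℝ) + 1) * (2 * |r| + 6) := by positivity
    rw [hC]; linarith
  filter_upwards [dl_inv_le A, eventually_ge_atTop 1, ev_sq_le_four 20, ev_pow_le_exp 0 C]
    with t h1 h2 h3 h4 x hx x' hx' hxr hxr' hd
  set ι := Real.exp (-(t ^ 4 / 2)) with hι
  have hι0 : 0 < ι := Real.exp_pos _
  have hr : r ≤ |r| := le_abs_self r
  have hd0 := norm_nonneg (x - x')
  have hB : ∀ a ∈ A, |L (dl A t a) (x - a) - L (dl A t a) (x' - a)| ≤
      (2 * |r| + 2 * ‖a‖ + 1) * Real.exp (3 * t ^ 2) * ι := by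
    intro a ha
    have hdl := dl_pos A t a
    have k1 := L_diff_le (δ := dl A t a) (m := dl A t a ^ 2) (by positivity) (z := x - a) (z' := x' - a)
      (by nlinarith [sq_nonneg ‖x - a‖]) (by nlinarith [sq_nonneg ‖x' - a‖])
    have k2 : x - a - (x' - a) = x - x' := by abel
    rw [k2] at k1
    refine k1.trans ?_
    have k3 : ‖x - a‖ ≤ |r| + ‖a‖ := (norm_sub_le _ _).trans (by linarith)
    have k4 : ‖x' - a‖ ≤ |r| + ‖a‖ := (norm_sub_le _ _).trans (by linarith)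
    have k5 : Real.exp (-(3 * t ^ 2)) ≤ dl A t a ^ 2 := by
      have : Real.exp (-(3 * t ^ 2)) = Real.exp (-(3/2) * t ^ 2) ^ 2 := by
        rw [← Real.exp_nat_mul]; congr 1; push_cast; ring
      rw [this]
      have := h1 a ha
      gcongr
    have k6 : (‖x - a‖ + ‖x' - a‖) * ‖x - x'‖ ≤ (2 * |r| + 2 * ‖a‖ + 1) * ι := by
      have h8 : ‖x - a‖ + ‖x' - a‖ ≤ 2 * |r| + 2 * ‖a‖ + 1 := by linarith
      exact mul_le_mul h8 hd hd0 (by positivity)
    calc (‖x - a‖ + ‖x' - a‖) * ‖x - x'‖ / dl A t a ^ 2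
        ≤ ((2 * |r| + 2 * ‖a‖ + 1) * ι) / Real.exp (-(3 * t ^ 2)) := by
          have := norm_nonneg a
          gcongr
      _ = _ := by rw [Real.exp_neg]; field_simp
  have hP : |L (ep t) (x - pt) - L (ep t) (x' - pt)| ≤ (2 * |r| + 6) * ι := by
    have e1 := one_le_norm_sub_pt hx
    have e2 := one_le_norm_sub_pt hx'
    have k1 := L_diff_le (δ := ep t) (m := 1) one_pos (z := x - pt) (z' := x' - pt)
      (by nlinarith [sq_nonneg (ep t)]) (by nlinarith [sq_nonneg (ep t)])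
    have k2 : x - pt - (x' - pt) = x - x' := by abel
    rw [k2, div_one] at k1
    refine k1.trans ?_
    have k3 : ‖x - pt‖ ≤ |r| + 3 := by
      have := norm_sub_le x pt; rw [norm_pt] at this; linarith
    have k4 : ‖x' - pt‖ ≤ |r| + 3 := by
      have := norm_sub_le x' pt; rw [norm_pt] at this; linarith
    have h8 : ‖x - pt‖ + ‖x' - pt‖ ≤ 2 * |r| + 6 := by linarith
    exact mul_le_mul h8 hd hd0 (by positivity)
  have hE : C * Real.exp (4 * t ^ 2) * ι ≤ Real.exp (-(t ^ 4 / 4)) := by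
    have k1 : C ≤ Real.exp (t ^ 2) := by
      have e1 : C ≤ Real.exp t := by simpa using h4
      have e2 : Real.exp t ≤ Real.exp (t ^ 2) := by
        apply Real.exp_le_exp.mpr; nlinarith
      linarith
    calc C * Real.exp (4 * t ^ 2) * ι ≤ Real.exp (t ^ 2) * Real.exp (4 * t ^ 2) * ι := by gcongr
      _ = Real.exp (t ^ 2 + 4 * t ^ 2 - t ^ 4 / 2) := by
          rw [hι, ← Real.exp_add, ← Real.exp_add]; congr 1
      _ ≤ Real.exp (-(t ^ 4 / 4)) := by
          apply Real.exp_le_exp.mpr; linarith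
  have hexp3 : Real.exp (3 * t ^ 2) ≤ Real.exp (4 * t ^ 2) := by
    apply Real.exp_le_exp.mpr; nlinarith [sq_nonneg t]
  have hone : 1 ≤ Real.exp (3 * t ^ 2) := Real.one_le_exp (by positivity)
  have hsq : t ^ 2 ≤ Real.exp (t ^ 2) := by
    have h8 := Real.add_one_le_exp (t ^ 2)
    linarith
  refine ⟨?_, ?_⟩
  · have e0 : U A t x - U A t x' = t ^ 2 * (phi x - phi x')
        - (3/4) * (L (ep t) (x - pt) - L (ep t) (x' - pt))
        + (A.card : ℝ) * (L (ep t) (x - pt) - L (ep t) (x' - pt))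
        - ∑ a ∈ A, (L (dl A t a) (x - a) - L (dl A t a) (x' - a)) := by
      unfold U
      simp only [Finset.sum_sub_distrib, Finset.sum_const, nsmul_eq_mul]
      ring
    have e1 : |t ^ 2 * (phi x - phi x')| ≤ 5 * Real.exp (4 * t ^ 2) * ι := by
      rw [abs_mul, abs_of_nonneg (by positivity : (0:ℝ) ≤ t ^ 2)]
      have := phi_diff_le hx hx'
      have h5 : Real.exp (t ^ 2) ≤ Real.exp (4 * t ^ 2) := by
        apply Real.exp_le_exp.mpr; nlinarith [sq_nonneg t]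
      calc t ^ 2 * |phi x - phi x'| ≤ Real.exp (4 * t ^ 2) * (5 * ι) := by
            have h6 : t ^ 2 ≤ Real.exp (4 * t ^ 2) := hsq.trans h5
            have h7 : |phi x - phi x'| ≤ 5 * ι := this.trans (by linarith)
            gcongr
        _ = _ := by ring
    have e2 : |(3/4) * (L (ep t) (x - pt) - L (ep t) (x' - pt))| ≤
        1 * ((2 * |r| + 6) * Real.exp (4 * t ^ 2) * ι) := by
      rw [abs_mul, abs_of_pos (by norm_num : (0:ℝ) < 3/4)]
      have h5 : (2 * |r| + 6) * ι ≤ (2 * |r| + 6) * Real.exp (4 * t ^ 2) * ι := by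
        have : (2 * |r| + 6) * 1 ≤ (2 * |r| + 6) * Real.exp (4 * t ^ 2) := by
          have := abs_nonneg r
          gcongr
          linarith
        nlinarith
      have := abs_nonneg (L (ep t) (x - pt) - L (ep t) (x' - pt))
      linarith
    have e3 : |(A.card : ℝ) * (L (ep t) (x - pt) - L (ep t) (x' - pt))| ≤
        (A.card : ℝ) * ((2 * |r| + 6) * Real.exp (4 * t ^ 2) * ι) := by
      rw [abs_mul, abs_of_nonneg (by positivity : (0:ℝ) ≤ (A.card : ℝ))]
      have h5 : (2 * |r| + 6) * ι ≤ (2 * |r| + 6) * Real.exp (4 * t ^ 2) * ι := by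
        have : (2 * |r| + 6) * 1 ≤ (2 * |r| + 6) * Real.exp (4 * t ^ 2) := by
          have := abs_nonneg r
          gcongr
          linarith
        nlinarith
      gcongr
      linarith
    have e4 : |∑ a ∈ A, (L (dl A t a) (x - a) - L (dl A t a) (x' - a))| ≤
        (∑ a ∈ A, (2 * |r| + 2 * ‖a‖ + 1)) * (Real.exp (4 * t ^ 2) * ι) := by
      refine (Finset.abs_sum_le_sum_abs _ _).trans ?_
      rw [Finset.sum_mul]
      refine Finset.sum_le_sum fun a ha => (hB a ha).trans ?_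
      rw [mul_assoc]
      have := abs_nonneg r
      have := norm_nonneg a
      gcongr
    rw [e0]
    have f1 := abs_sub (t ^ 2 * (phi x - phi x')
        - (3/4) * (L (ep t) (x - pt) - L (ep t) (x' - pt))
        + (A.card : ℝ) * (L (ep t) (x - pt) - L (ep t) (x' - pt)))
        (∑ a ∈ A, (L (dl A t a) (x - a) - L (dl A t a) (x' - a)))
    have f2 := abs_add_le (t ^ 2 * (phi x - phi x')
        - (3/4) * (L (ep t) (x - pt) - L (ep t) (x' - pt)))
        ((A.card : ℝ) * (L (ep t) (x - pt) - L (ep t) (x' - pt)))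
    have f3 := abs_sub (t ^ 2 * (phi x - phi x'))
        ((3/4) * (L (ep t) (x - pt) - L (ep t) (x' - pt)))
    have f4 : 5 * Real.exp (4 * t ^ 2) * ι + 1 * ((2 * |r| + 6) * Real.exp (4 * t ^ 2) * ι)
        + (A.card : ℝ) * ((2 * |r| + 6) * Real.exp (4 * t ^ 2) * ι)
        + (∑ a ∈ A, (2 * |r| + 2 * ‖a‖ + 1)) * (Real.exp (4 * t ^ 2) * ι)
        = C * Real.exp (4 * t ^ 2) * ι := by rw [hC]; ring
    linarith
  · intro a ha
    refine (hB a ha).trans (le_trans ?_ hE)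
    have h5 : (2 * |r| + 2 * ‖a‖ + 1) ≤ C := by
      have h6 := Finset.single_le_sum (f := fun a => 2 * |r| + 2 * ‖a‖ + 1)
        (fun a _ => by positivity) ha
      have h7 : 0 ≤ ((A.card : ℝ) + 1) * (2 * |r| + 6) := by positivity
      rw [hC]; linarith
    have h6 : (2 * |r| + 2 * ‖a‖ + 1) * Real.exp (3 * t ^ 2) ≤ C * Real.exp (4 * t ^ 2) :=
      mul_le_mul h5 hexp3 (Real.exp_pos _).le hC0
    exact mul_le_mul_of_nonneg_right h6 hι0.le

end Pool.Agent.MP_e2b804_an
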