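import Pool.Agent.MP_e2b804_an.Setup
open Real MeasureTheory Metric Filter Set
open scoped Topology ContDiff

noncomputable section
namespace Pool.Agent.MP_e2b804_an

theorem L_near {c : E4} (hc : c ≠ 0) {η : ℝ} (hη : 0 < η) :
    ∃ r : ℝ, 0 < r ∧ ∀ (y : E4) (δ : ℝ), ‖y - c‖ < r → 0 < δ → δ < r →
      |L δ y - Real.log (‖c‖ ^ 2)| < η := by
  have hc2 : ‖c‖ ^ 2 + (0:ℝ) ^ 2 ≠ 0 := by
    have : 0 < ‖c‖ := norm_pos_iff.mpr hc
    positivity
  have hcont : ContinuousAt (fun z : E4 × ℝ => Real.log (‖z.1‖ ^ 2 + z.2 ^ 2)) (c, 0) := by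
    apply ContinuousAt.log
    · fun_prop
    · exact hc2
  rw [Metric.continuousAt_iff] at hcont
  obtain ⟨r, hr, h⟩ := hcont η hη
  refine ⟨r, hr, fun y δ hy hδ hδr => ?_⟩
  have h1 := h (x := (y, δ)) (by
    rw [Prod.dist_eq]
    apply max_lt
    · simpa [dist_eq_norm] using hy
    · simpa [Real.dist_eq, abs_of_pos hδ] using hδr)
  simpa [Real.dist_eq, L] using h1

theorem tendsto_ep : Tendsto ep atTop (𝓝 0) := by
  unfold ep
  refine Real.tendsto_exp_atBot.comp ?_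
  exact tendsto_neg_atTop_atBot.comp (tendsto_pow_atTop (by norm_num))

theorem tendsto_dl (A : Finset E4) (a : E4) : Tendsto (fun t => dl A t a) atTop (𝓝 0) := by
  unfold dl
  have h : Tendsto (fun t : ℝ => -(4/3) * t ^ 2 - t + cc A a) atTop atBot := by
    have h1 : Tendsto (fun t : ℝ => -(4/3) * t ^ 2 - t) atTop atBot := by
      have h2 : Tendsto (fun t : ℝ => (4/3) * t ^ 2 + t) atTop atTop :=
        ((tendsto_pow_atTop (by norm_num)).const_mul_atTop (by norm_num)).atTop_add_atTop tendsto_id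
      have h3 : (fun t : ℝ => -(4/3) * t ^ 2 - t) = fun t => -((4/3) * t ^ 2 + t) := by
        ext1 t; ring
      rw [h3]
      exact tendsto_neg_atTop_atBot.comp h2
    exact tendsto_atBot_add_const_right _ _ h1
  have := (Real.tendsto_exp_atBot.comp h).div_const 2
  simpa using this

theorem tendsto_two_div_sq : Tendsto (fun t : ℝ => 2 / t ^ 2) atTop (𝓝 0) :=
  (tendsto_pow_atTop (by norm_num)).const_div_atTop 2

/-- the bubble at `a` -/
def wb (A : Finset E4) (t : ℝ) (a x : E4) : ℝ := Real.log (2 * dl A t a) - L (dl A t a) (x - a)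

theorem U_sub_wb {A : Finset E4} {t : ℝ} {a : E4} (ha : a ∈ A) (x : E4) :
    U A t x - wb A t a x = t ^ 2 * (phi x + 4 / 3)
      + ((A.card : ℝ) - 3 / 4) * (L (ep t) (x - pt) - Real.log (‖a - pt‖ ^ 2))
      - ∑ b ∈ A.erase a, (L (dl A t b) (x - b) - Real.log (‖a - b‖ ^ 2)) := by
  have h1 : Real.log (2 * dl A t a) = -(4/3) * t ^ 2 - t + cc A a := by
    unfold dl
    rw [mul_div_cancel₀ _ (by norm_num : (2:ℝ) ≠ 0), Real.log_exp]
  unfold U wb
  rw [h1]
  unfold cc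
  rw [Finset.sum_sub_distrib, Finset.sum_sub_distrib, ← Finset.add_sum_erase A (fun b => L (dl A t b) (x - b)) ha]
  simp only [Finset.sum_const, nsmul_eq_mul]
  ring

theorem near_one {A : Finset E4} (hA : ∀ a ∈ A, a 0 = -1) {η : ℝ} (hη : 0 < η) :
    ∀ᶠ t : ℝ in atTop, ∀ a ∈ A, ∀ x : E4, ‖x - a‖ ≤ 2 / t ^ 2 →
      |U A t x - wb A t a x| ≤ η := by
  rw [Filter.eventually_all_finset]
  intro a ha
  have hap : a - pt ≠ 0 := by
    intro h
    have := congrArg (fun z : E4 => z 0) h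
    simp [pt, hA a ha] at this
    norm_num at this
  -- the sum of errors
  set N : ℝ := (A.card : ℝ) with hN
  have hN0 : 0 ≤ N := by rw [hN]; positivity
  set κ : ℝ := η / (3 * (N + 2)) with hκ
  have hκ0 : 0 < κ := by rw [hκ]; positivity
  obtain ⟨r, hr, hr'⟩ := L_near hap hκ0
  have hb : ∀ b ∈ A.erase a, ∀ᶠ t : ℝ in atTop, ∀ x : E4, ‖x - a‖ ≤ 2 / t ^ 2 →
      |L (dl A t b) (x - b) - Real.log (‖a - b‖ ^ 2)| ≤ κ := by
    intro b hb
    have hab : a - b ≠ 0 := sub_ne_zero.mpr (Finset.ne_of_mem_erase hb).symm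
    obtain ⟨s, hs, hs'⟩ := L_near hab hκ0
    filter_upwards [tendsto_two_div_sq.eventually (gt_mem_nhds hs),
      (tendsto_dl A b).eventually (gt_mem_nhds hs)] with t h1 h2 x hx
    refine (hs' (x - b) (dl A t b) ?_ (dl_pos A t b) h2).le
    have : x - b - (a - b) = x - a := by abel
    rw [this]; linarith
  have hb' := (Filter.eventually_all_finset (A.erase a)).mpr hb
  have hq : ∀ᶠ t : ℝ in atTop, 7 / t ^ 2 ≤ η / 3 := by
    have h7 : Tendsto (fun t : ℝ => 7 / t ^ 2) atTop (𝓝 0) :=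
      (tendsto_pow_atTop (by norm_num)).const_div_atTop 7
    exact (h7.eventually (gt_mem_nhds (by positivity : (0:ℝ) < η / 3))).mono fun t ht => ht.le
  filter_upwards [tendsto_two_div_sq.eventually (gt_mem_nhds hr),
      tendsto_ep.eventually (gt_mem_nhds hr), hb', hq, eventually_ge_atTop 2] with t h1 h2 h3 h4 h5 x hx
  rw [U_sub_wb ha]
  have e1 : |t ^ 2 * (phi x + 4 / 3)| ≤ η / 3 := by
    refine le_trans ?_ h4
    have h6 : |x 0 + 1| ≤ 2 / t ^ 2 := by
      have := PiLp.norm_apply_le (x - a) 0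
      have h7 : (x - a) 0 = x 0 + 1 := by simp [hA a ha]
      rw [h7, Real.norm_eq_abs] at this
      exact this.trans hx
    have ht2 : (4:ℝ) ≤ t ^ 2 := by nlinarith
    have h8 : 2 / t ^ 2 ≤ 1 / 2 := by
      rw [div_le_div_iff₀ (by positivity) (by norm_num)]; linarith
    have h9 : |2 - x 0| ≤ 4 := by
      have : 2 - x 0 = 3 - (x 0 + 1) := by ring
      rw [this]
      have := abs_sub 3 (x 0 + 1)
      rw [abs_of_pos (by norm_num : (0:ℝ) < 3)] at this
      linarith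
    rw [phi_add, abs_mul, abs_mul, abs_mul, abs_of_nonneg (by positivity : (0:ℝ) ≤ t ^ 2),
      abs_of_pos (by norm_num : (0:ℝ) < 1/3), abs_pow]
    calc t ^ 2 * (1 / 3 * |x 0 + 1| ^ 2 * |2 - x 0|) ≤ t ^ 2 * (1 / 3 * (2 / t ^ 2) ^ 2 * 4) := by
          gcongr
      _ ≤ 7 / t ^ 2 := by
          field_simp
          norm_num
  have e2 : |((A.card : ℝ) - 3 / 4) * (L (ep t) (x - pt) - Real.log (‖a - pt‖ ^ 2))| ≤ (N + 1) * κ := by
    rw [abs_mul]
    have h6 : |((A.card : ℝ) - 3 / 4)| ≤ N + 1 := by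
      rw [abs_le]; constructor <;> linarith
    have h7 : |L (ep t) (x - pt) - Real.log (‖a - pt‖ ^ 2)| ≤ κ := by
      refine (hr' (x - pt) (ep t) ?_ (ep_pos t) h2).le
      have : x - pt - (a - pt) = x - a := by abel
      rw [this]; linarith
    gcongr
  have e3 : |∑ b ∈ A.erase a, (L (dl A t b) (x - b) - Real.log (‖a - b‖ ^ 2))| ≤ N * κ := by
    refine (Finset.abs_sum_le_sum_abs _ _).trans ?_
    refine (Finset.sum_le_sum fun b hb => h3 b hb x hx).trans ?_
    rw [Finset.sum_const, nsmul_eq_mul]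
    have : ((A.erase a).card : ℝ) ≤ N := by
      rw [hN]; exact_mod_cast Finset.card_le_card (Finset.erase_subset _ _)
    gcongr
  have e4 : (N + 1) * κ ≤ η / 3 := by
    rw [hκ, mul_div_assoc', div_le_div_iff₀ (by positivity) (by norm_num)]
    nlinarith
  have e5 : N * κ ≤ η / 3 := by
    refine le_trans ?_ e4
    nlinarith
  have := abs_sub (t ^ 2 * (phi x + 4 / 3)
      + ((A.card : ℝ) - 3 / 4) * (L (ep t) (x - pt) - Real.log (‖a - pt‖ ^ 2)))
      (∑ b ∈ A.erase a, (L (dl A t b) (x - b) - Real.log (‖a - b‖ ^ 2)))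
  have := abs_add_le (t ^ 2 * (phi x + 4 / 3))
      (((A.card : ℝ) - 3 / 4) * (L (ep t) (x - pt) - Real.log (‖a - pt‖ ^ 2)))
  linarith

end Pool.Agent.MP_e2b804_an
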