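import Pool.Agent.MP_e2b804_an.NearOne
open Real MeasureTheory Metric Filter Set
open scoped Topology ContDiff

noncomputable section
namespace Pool.Agent.MP_e2b804_an

theorem ev_sq_le_four (C : ℝ) : ∀ᶠ t : ℝ in atTop, C * t ^ 2 ≤ t ^ 4 := by
  filter_upwards [eventually_ge_atTop (max C 1)] with t ht
  have h1 : C ≤ t := (le_max_left _ _).trans ht
  have h2 : 1 ≤ t := (le_max_right _ _).trans ht
  have h3 : t ≤ t ^ 2 := by nlinarith
  have h4 : C ≤ t ^ 2 := h1.trans h3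
  have : t ^ 4 = t ^ 2 * t ^ 2 := by ring
  rw [this]
  have := sq_nonneg t
  nlinarith

theorem ev_le_sq (C : ℝ) : ∀ᶠ t : ℝ in atTop, C * t ≤ t ^ 2 := by
  filter_upwards [eventually_ge_atTop (max C 1)] with t ht
  have h1 : C ≤ t := (le_max_left _ _).trans ht
  have h2 : 1 ≤ t := (le_max_right _ _).trans ht
  nlinarith

theorem ev_pow_le_exp (k : ℕ) (C : ℝ) : ∀ᶠ t : ℝ in atTop, C * t ^ k ≤ Real.exp t := by
  have h := Real.tendsto_pow_mul_exp_neg_atTop_nhds_zero k
  have h1 : ∀ᶠ t : ℝ in atTop, t ^ k * Real.exp (-t) < 1 / (|C| + 1) :=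
    h.eventually (gt_mem_nhds (by positivity))
  filter_upwards [h1, eventually_ge_atTop 0] with t ht h0
  rw [Real.exp_neg, ← div_eq_mul_inv, div_lt_div_iff₀ (Real.exp_pos _) (by positivity)] at ht
  have h2 : C * t ^ k ≤ (|C| + 1) * t ^ k := by
    have : 0 ≤ t ^ k := by positivity
    have := le_abs_self C
    nlinarith
  nlinarith

theorem exp_four_wb {A : Finset E4} (t : ℝ) (a x : E4) :
    Real.exp (4 * wb A t a x) = 16 * P0 (dl A t a) (x - a) := by
  have hd := dl_pos A t a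
  have hs : 0 < ‖x - a‖ ^ 2 + dl A t a ^ 2 := by positivity
  unfold wb L P0
  have h1 : 4 * (Real.log (2 * dl A t a) - Real.log (‖x - a‖ ^ 2 + dl A t a ^ 2)) =
      Real.log ((2 * dl A t a / (‖x - a‖ ^ 2 + dl A t a ^ 2)) ^ 4) := by
    rw [Real.log_pow, Real.log_div (by positivity) hs.ne']
    push_cast; ring
  rw [h1, Real.exp_log (by positivity)]
  field_simp
  norm_num

/-- the discrepancy -/
def G (A : Finset E4) (t : ℝ) (x : E4) : ℝ := 6 * Real.exp (4 * U A t x) - D2 (U A t) x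

theorem P0_le_div {δ : ℝ} {x : E4} (hx : x ≠ 0) : P0 δ x ≤ δ ^ 4 * (‖x‖⁻¹) ^ 8 := by
  have hx' : 0 < ‖x‖ := norm_pos_iff.mpr hx
  unfold P0
  rw [inv_pow, ← div_eq_mul_inv]
  gcongr
  have : ‖x‖ ^ 8 = (‖x‖ ^ 2) ^ 4 := by ring
  rw [this]
  gcongr
  nlinarith [sq_nonneg δ]

theorem dl_ratio (A : Finset E4) (t : ℝ) (a b : E4) :
    dl A t b = dl A t a * Real.exp (cc A b - cc A a) := by
  unfold dl
  rw [div_mul_eq_mul_div, ← Real.exp_add]
  congr 2
  ring

theorem mem_Om_of_near {A : Finset E4} (hA : ∀ a ∈ A, a 0 = -1) {t : ℝ} (ht : 2 ≤ t) {a : E4}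
    (ha : a ∈ A) {x : E4} (hx : ‖x - a‖ ≤ 2 / t ^ 2) : x ∈ Om := by
  have h6 : |x 0 + 1| ≤ 2 / t ^ 2 := by
    have := PiLp.norm_apply_le (x - a) 0
    have h7 : (x - a) 0 = x 0 + 1 := by simp [hA a ha]
    rw [h7, Real.norm_eq_abs] at this
    exact this.trans hx
  have ht2 : (4:ℝ) ≤ t ^ 2 := by nlinarith
  have h8 : 2 / t ^ 2 ≤ 1 / 2 := by
    rw [div_le_div_iff₀ (by positivity) (by norm_num)]; linarith
  rw [abs_le] at h6
  constructor <;> linarith [h6.1, h6.2]

/-- lower bound of the bubble on the concentration ball -/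
theorem near_lower {A : Finset E4} (hA : ∀ a ∈ A, a 0 = -1) :
    ∀ᶠ t : ℝ in atTop, ∀ a ∈ A, ∀ x : E4, ‖x - a‖ ≤ 2 / t ^ 2 →
      (Real.exp (-4) * 16 / 625) * (dl A t a ^ 4 * t ^ 16) ≤ Real.exp (4 * U A t x) := by
  have hd : ∀ᶠ t : ℝ in atTop, ∀ a ∈ A, dl A t a ≤ 1 / t ^ 2 := by
    rw [Filter.eventually_all_finset]
    intro a _
    filter_upwards [ev_pow_le_exp 2 1, eventually_ge_atTop 1, ev_le_sq (cc A a)] with t h1 h2 h3
    have ht : 0 < t ^ 2 := by positivity
    rw [le_div_iff₀ ht]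
    unfold dl
    have h4 : Real.exp (-(4/3) * t ^ 2 - t + cc A a) ≤ Real.exp (- t) := by
      apply Real.exp_le_exp.mpr
      have : cc A a ≤ t ^ 2 := by
        rcases le_or_gt (cc A a) 0 with h | h
        · linarith
        · nlinarith
      nlinarith
    calc Real.exp (-(4/3) * t ^ 2 - t + cc A a) / 2 * t ^ 2
        ≤ Real.exp (-t) / 2 * Real.exp t := by
          have : t ^ 2 ≤ Real.exp t := by linarith
          gcongr
      _ = 1 / 2 := by rw [div_mul_eq_mul_div, ← Real.exp_add]; simp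
      _ ≤ 1 := by norm_num
  filter_upwards [near_one hA one_pos, hd, eventually_ge_atTop 1] with t h1 h2 h3 a ha x hx
  have h4 := h1 a ha x hx
  have h5 := h2 a ha
  have hd0 := dl_pos A t a
  have h6 : -1 ≤ U A t x - wb A t a x := (abs_le.mp h4).1
  have h7 : Real.exp (-4) * Real.exp (4 * wb A t a x) ≤ Real.exp (4 * U A t x) := by
    rw [← Real.exp_add]
    apply Real.exp_le_exp.mpr
    linarith
  refine le_trans ?_ h7
  rw [exp_four_wb]
  have h8 : dl A t a ^ 4 * t ^ 16 / 625 ≤ P0 (dl A t a) (x - a) := by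
    unfold P0
    have hs : ‖x - a‖ ^ 2 + dl A t a ^ 2 ≤ 5 / t ^ 4 := by
      have e1 : ‖x - a‖ ^ 2 ≤ (2 / t ^ 2) ^ 2 := by gcongr
      have e2 : dl A t a ^ 2 ≤ (1 / t ^ 2) ^ 2 := by gcongr
      have e3 : (2 / t ^ 2) ^ 2 + (1 / t ^ 2) ^ 2 = 5 / t ^ 4 := by
        have : 0 < t := by linarith
        field_simp; norm_num
      linarith
    have ht : 0 < t := by linarith
    calc dl A t a ^ 4 * t ^ 16 / 625 = dl A t a ^ 4 / (5 / t ^ 4) ^ 4 := by
          field_simp; norm_num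
      _ ≤ dl A t a ^ 4 / (‖x - a‖ ^ 2 + dl A t a ^ 2) ^ 4 := by gcongr
  have h9 : 0 < Real.exp (-4) := Real.exp_pos _
  calc (Real.exp (-4) * 16 / 625) * (dl A t a ^ 4 * t ^ 16)
      = Real.exp (-4) * (16 * (dl A t a ^ 4 * t ^ 16 / 625)) := by ring
    _ ≤ Real.exp (-4) * (16 * P0 (dl A t a) (x - a)) := by gcongr

theorem ep_le_one {t : ℝ} : ep t ≤ 1 := by
  unfold ep
  rw [Real.exp_le_one_iff]
  have : 0 ≤ t ^ 4 := by positivity
  linarith

theorem P0_ep_le {t : ℝ} {x : E4} (hx : x ∈ Om) : P0 (ep t) (x - pt) ≤ ep t ^ 4 := by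
  have h1 := one_le_norm_sub_pt hx
  unfold P0
  rw [div_le_iff₀ (by positivity)]
  have h2 : 1 ≤ (‖x - pt‖ ^ 2 + ep t ^ 2) ^ 4 := by
    apply one_le_pow₀
    nlinarith [sq_nonneg (ep t)]
  have : 0 ≤ ep t ^ 4 := by positivity
  nlinarith

theorem near_two {A : Finset E4} (hA : ∀ a ∈ A, a 0 = -1) {η : ℝ} (hη : 0 < η) :
    ∀ᶠ t : ℝ in atTop, ∀ a ∈ A, ∀ x : E4, ‖x - a‖ ≤ 2 / t ^ 2 →
      |G A t x| ≤ η * Real.exp (4 * U A t x) := by
  -- choose the exponent error
  obtain ⟨η', hη', hη'2⟩ : ∃ η' : ℝ, 0 < η' ∧ 6 * (Real.exp (4 * η') - 1) ≤ η / 3 := by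
    have hc : Tendsto (fun s : ℝ => 6 * (Real.exp (4 * s) - 1)) (𝓝[>] 0) (𝓝 0) := by
      have h : ContinuousAt (fun s : ℝ => 6 * (Real.exp (4 * s) - 1)) 0 := by fun_prop
      have h2 := h.tendsto
      simp at h2
      exact h2.mono_left nhdsWithin_le_nhds
    have h3 := hc.eventually (gt_mem_nhds (by positivity : (0:ℝ) < η / 3))
    obtain ⟨s, hs, hs2⟩ := (h3.and self_mem_nhdsWithin).exists
    exact ⟨s, hs2, hs.le⟩
  set c : ℝ := Real.exp (-4) * 16 / 625 with hc
  have hc0 : 0 < c := by rw [hc]; positivity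
  -- other bubbles
  have hother : ∀ᶠ t : ℝ in atTop, ∀ a ∈ A, ∀ x : E4, ‖x - a‖ ≤ 2 / t ^ 2 →
      96 * ∑ b ∈ A.erase a, P0 (dl A t b) (x - b) ≤ (η / 3) * (c * (dl A t a ^ 4 * t ^ 16)) := by
    rw [Filter.eventually_all_finset]
    intro a ha
    have h1 : ∀ b ∈ A.erase a, ∀ᶠ t : ℝ in atTop, 2 / t ^ 2 ≤ ‖a - b‖ / 2 := by
      intro b hb
      have hab : 0 < ‖a - b‖ / 2 := by
        have := norm_pos_iff.mpr (sub_ne_zero.mpr (Finset.ne_of_mem_erase hb).symm)
        positivity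
      exact (tendsto_two_div_sq.eventually (gt_mem_nhds hab)).mono fun t ht => ht.le
    have h1' := (Filter.eventually_all_finset (A.erase a)).mpr h1
    set S : ℝ := ∑ b ∈ A.erase a, Real.exp (cc A b - cc A a) ^ 4 * ((‖a - b‖ / 2)⁻¹) ^ 8 with hS
    have h2 : ∀ᶠ t : ℝ in atTop, 96 * S ≤ (η / 3) * c * t ^ 16 := by
      have : Tendsto (fun t : ℝ => (η / 3) * c * t ^ 16) atTop atTop :=
        (tendsto_pow_atTop (by norm_num)).const_mul_atTop (by positivity)
      exact this.eventually_ge_atTop _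
    filter_upwards [h1', h2] with t ht1 ht2 x hx
    have h3 : ∀ b ∈ A.erase a, P0 (dl A t b) (x - b) ≤
        dl A t a ^ 4 * (Real.exp (cc A b - cc A a) ^ 4 * ((‖a - b‖ / 2)⁻¹) ^ 8) := by
      intro b hb
      have hab : 0 < ‖a - b‖ := norm_pos_iff.mpr (sub_ne_zero.mpr (Finset.ne_of_mem_erase hb).symm)
      have h4 : ‖a - b‖ / 2 ≤ ‖x - b‖ := by
        have h5 : ‖a - b‖ ≤ ‖x - a‖ + ‖x - b‖ := by
          have : a - b = -(x - a) + (x - b) := by abel
          rw [this]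
          exact (norm_add_le _ _).trans (by rw [norm_neg])
        linarith [ht1 b hb]
      have hxb : x - b ≠ 0 := by
        rw [← norm_pos_iff]; linarith
      refine (P0_le_div hxb).trans ?_
      rw [dl_ratio A t a b, mul_pow, mul_assoc]
      gcongr
    calc 96 * ∑ b ∈ A.erase a, P0 (dl A t b) (x - b)
        ≤ 96 * ∑ b ∈ A.erase a, dl A t a ^ 4 * (Real.exp (cc A b - cc A a) ^ 4 * ((‖a - b‖ / 2)⁻¹) ^ 8) := by
          gcongr with b hb
          exact h3 b hb
      _ = dl A t a ^ 4 * (96 * S) := by rw [← Finset.mul_sum, hS]; ring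
      _ ≤ dl A t a ^ 4 * ((η / 3) * c * t ^ 16) := by
          have := dl_pos A t a
          gcongr
      _ = (η / 3) * (c * (dl A t a ^ 4 * t ^ 16)) := by ring
  -- the pole
  have hpole : ∀ᶠ t : ℝ in atTop, ∀ a ∈ A,
      96 * ((A.card : ℝ) + 1) * ep t ^ 4 ≤ (η / 3) * (c * (dl A t a ^ 4 * t ^ 16)) := by
    rw [Filter.eventually_all_finset]
    intro a ha
    have h2 : ∀ᶠ t : ℝ in atTop, 96 * ((A.card : ℝ) + 1) ≤ (η / 3) * c * t ^ 16 := by
      have : Tendsto (fun t : ℝ => (η / 3) * c * t ^ 16) atTop atTop :=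
        (tendsto_pow_atTop (by norm_num)).const_mul_atTop (by positivity)
      exact this.eventually_ge_atTop _
    filter_upwards [h2, ev_sq_le_four (4 + |cc A a|), eventually_ge_atTop 1] with t h1 h3 h4
    have h5 : ep t ≤ dl A t a := by
      unfold ep dl
      rw [le_div_iff₀ (by norm_num)]
      have h6 : (2:ℝ) ≤ Real.exp 1 := by
        have := Real.add_one_le_exp (1:ℝ); linarith
      calc Real.exp (-t ^ 4) * 2 ≤ Real.exp (-t ^ 4) * Real.exp 1 := by gcongr
        _ = Real.exp (-t ^ 4 + 1) := by rw [← Real.exp_add]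
        _ ≤ Real.exp (-(4/3) * t ^ 2 - t + cc A a) := by
            apply Real.exp_le_exp.mpr
            have h7 : t ≤ t ^ 2 := by nlinarith
            have h8 : 1 ≤ t ^ 2 := by nlinarith
            have h9 : |cc A a| ≤ |cc A a| * t ^ 2 := by
              have := abs_nonneg (cc A a); nlinarith
            have h10 := neg_abs_le (cc A a)
            nlinarith
    have h6 : ep t ^ 4 ≤ dl A t a ^ 4 := by
      have := (ep_pos t).le
      gcongr
    calc 96 * ((A.card : ℝ) + 1) * ep t ^ 4 ≤ ((η / 3) * c * t ^ 16) * dl A t a ^ 4 := by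
          have := (ep_pos t).le
          gcongr
      _ = (η / 3) * (c * (dl A t a ^ 4 * t ^ 16)) := by ring
  filter_upwards [near_one hA hη', near_lower hA, hother, hpole, eventually_ge_atTop 2]
    with t h1 h2 h3 h4 h5 a ha x hx
  have k1 := h1 a ha x hx
  have k2 := h2 a ha x hx
  have k3 := h3 a ha x hx
  have k4 := h4 a ha
  have hOm := mem_Om_of_near hA h5 ha hx
  have k5 := P0_ep_le (t := t) hOm
  have hG : G A t x = 6 * (Real.exp (4 * U A t x) - Real.exp (4 * wb A t a x))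
      - 96 * ∑ b ∈ A.erase a, P0 (dl A t b) (x - b)
      + 96 * ((A.card : ℝ) - 3 / 4) * P0 (ep t) (x - pt) := by
    unfold G
    rw [D2_U, exp_four_wb, ← Finset.add_sum_erase A (fun b => P0 (dl A t b) (x - b)) ha]
    ring
  have hE : |6 * (Real.exp (4 * U A t x) - Real.exp (4 * wb A t a x))| ≤
      (η / 3) * Real.exp (4 * U A t x) := by
    have e1 : Real.exp (4 * wb A t a x) =
        Real.exp (4 * U A t x) * Real.exp (-(4 * (U A t x - wb A t a x))) := by
      rw [← Real.exp_add]; congr 1; ring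
    have e2 : |1 - Real.exp (-(4 * (U A t x - wb A t a x)))| ≤ Real.exp (4 * η') - 1 := by
      have b1 : Real.exp (-(4 * (U A t x - wb A t a x))) ≤ Real.exp (4 * η') := by
        apply Real.exp_le_exp.mpr; linarith [(abs_le.mp k1).1]
      have b2 : Real.exp (-(4 * η')) ≤ Real.exp (-(4 * (U A t x - wb A t a x))) := by
        apply Real.exp_le_exp.mpr; linarith [(abs_le.mp k1).2]
      have b3 : 2 ≤ Real.exp (4 * η') + Real.exp (-(4 * η')) := by
        have c1 := Real.add_one_le_exp (4 * η')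
        have c2 : 0 < Real.exp (4 * η') := Real.exp_pos _
        rw [Real.exp_neg]
        rw [← sub_nonneg]
        have : Real.exp (4 * η') + (Real.exp (4 * η'))⁻¹ - 2 =
            (Real.exp (4 * η') - 1) ^ 2 / Real.exp (4 * η') := by
          field_simp; ring
        rw [this]; positivity
      rw [abs_le]; constructor <;> linarith
    rw [e1, abs_mul, abs_of_pos (by norm_num : (0:ℝ) < 6)]
    have e3 : Real.exp (4 * U A t x) - Real.exp (4 * U A t x) * Real.exp (-(4 * (U A t x - wb A t a x)))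
        = Real.exp (4 * U A t x) * (1 - Real.exp (-(4 * (U A t x - wb A t a x)))) := by ring
    rw [e3, abs_mul, abs_of_pos (Real.exp_pos _)]
    have e4 : 0 < Real.exp (4 * U A t x) := Real.exp_pos _
    calc 6 * (Real.exp (4 * U A t x) * |1 - Real.exp (-(4 * (U A t x - wb A t a x)))|)
        ≤ 6 * (Real.exp (4 * U A t x) * (Real.exp (4 * η') - 1)) := by gcongr
      _ = (6 * (Real.exp (4 * η') - 1)) * Real.exp (4 * U A t x) := by ring
      _ ≤ (η / 3) * Real.exp (4 * U A t x) := by gcongr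
  have hs0 : 0 ≤ ∑ b ∈ A.erase a, P0 (dl A t b) (x - b) :=
    Finset.sum_nonneg fun b _ => P0_nonneg _ _
  have hp : |96 * ((A.card : ℝ) - 3 / 4) * P0 (ep t) (x - pt)| ≤ (η / 3) * Real.exp (4 * U A t x) := by
    rw [abs_mul, abs_of_nonneg (P0_nonneg _ _)]
    have e1 : |96 * ((A.card : ℝ) - 3 / 4)| ≤ 96 * ((A.card : ℝ) + 1) := by
      rw [abs_le]
      have : (0:ℝ) ≤ A.card := by positivity
      constructor <;> linarith
    calc |96 * ((A.card : ℝ) - 3 / 4)| * P0 (ep t) (x - pt)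
        ≤ (96 * ((A.card : ℝ) + 1)) * ep t ^ 4 := by
          have := P0_nonneg (ep t) (x - pt)
          gcongr
      _ ≤ (η / 3) * (c * (dl A t a ^ 4 * t ^ 16)) := k4
      _ ≤ (η / 3) * Real.exp (4 * U A t x) := by gcongr
  have hs : |96 * ∑ b ∈ A.erase a, P0 (dl A t b) (x - b)| ≤ (η / 3) * Real.exp (4 * U A t x) := by
    rw [abs_of_nonneg (by positivity)]
    exact k3.trans (by gcongr)
  rw [hG]
  have t1 := abs_add_le (6 * (Real.exp (4 * U A t x) - Real.exp (4 * wb A t a x))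
      - 96 * ∑ b ∈ A.erase a, P0 (dl A t b) (x - b))
      (96 * ((A.card : ℝ) - 3 / 4) * P0 (ep t) (x - pt))
  have t2 := abs_sub (6 * (Real.exp (4 * U A t x) - Real.exp (4 * wb A t a x)))
      (96 * ∑ b ∈ A.erase a, P0 (dl A t b) (x - b))
  linarith

end Pool.Agent.MP_e2b804_an
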