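import Pool.Agent.MP_e2b804_an.IntegralJ
open Real MeasureTheory Metric Filter Set Laplacian
open scoped Topology ContDiff

noncomputable section
namespace Pool.Agent.MP_e2b804_an

section
variable {f : E4 → ℝ} {R : ℝ} {F : Type} [NormedAddCommGroup F] [NormedSpace ℝ F]

/-- convolution of `f` and `g` -/
def T (f : E4 → ℝ) (g : E4 → F) (x : E4) : F := ∫ y, f y • g (x - y)

theorem bound_T (hfs : ∀ y, R < ‖y‖ → f y = 0) {g : E4 → F} (hg : Continuous g) (x₀ : E4) :
    ∃ M : ℝ, 0 ≤ M ∧ ∀ x ∈ ball x₀ 1, ∀ y, ‖f y • g (x - y)‖ ≤ |f y| * M := by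
  obtain ⟨M, hM⟩ := (isCompact_closedBall (0 : E4) (‖x₀‖ + 1 + R)).exists_bound_of_continuousOn
    (f := g) hg.continuousOn
  refine ⟨|M|, abs_nonneg _, fun x hx y => ?_⟩
  rw [norm_smul, Real.norm_eq_abs]
  by_cases hy : R < ‖y‖
  · rw [hfs y hy]; simp
  · refine mul_le_mul_of_nonneg_left ((hM (x - y) ?_).trans (le_abs_self M)) (abs_nonneg _)
    rw [mem_closedBall_zero_iff]
    push Not at hy
    have h1 : ‖x - x₀‖ < 1 := by simpa [dist_eq_norm] using hx
    have h2 : ‖x‖ ≤ ‖x₀‖ + ‖x - x₀‖ := by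
      have := norm_add_le x₀ (x - x₀)
      simpa using this
    have h3 : ‖x - y‖ ≤ ‖x‖ + ‖y‖ := norm_sub_le _ _
    linarith

theorem integrable_T (hfi : Integrable f) (hfs : ∀ y, R < ‖y‖ → f y = 0) {g : E4 → F}
    (hg : Continuous g) (x : E4) : Integrable (fun y => f y • g (x - y)) := by
  obtain ⟨M, hM0, hM⟩ := bound_T hfs hg x
  refine Integrable.mono' (hfi.abs.mul_const M) ?_ (Eventually.of_forall fun y => ?_)
  · exact hfi.aestronglyMeasurable.smul
      ((hg.comp (continuous_const.sub continuous_id)).aestronglyMeasurable)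
  · exact hM x (mem_ball_self one_pos) y

theorem hasFDerivAt_T (hfi : Integrable f) (hfs : ∀ y, R < ‖y‖ → f y = 0) {g : E4 → F}
    (hg : ContDiff ℝ 1 g) (x : E4) : HasFDerivAt (T f g) (T f (fderiv ℝ g) x) x := by
  have hg' : Continuous (fderiv ℝ g) := hg.continuous_fderiv (by norm_num)
  obtain ⟨M, hM0, hM⟩ := bound_T hfs hg' x
  refine hasFDerivAt_integral_of_dominated_of_fderiv_le (μ := volume)
    (F := fun x y => f y • g (x - y)) (F' := fun x y => f y • fderiv ℝ g (x - y))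
    (bound := fun y => |f y| * M) (s := ball x 1) (ball_mem_nhds x one_pos) ?_ ?_ ?_ ?_ ?_ ?_
  · exact Eventually.of_forall fun z => (integrable_T hfi hfs hg.continuous z).aestronglyMeasurable
  · exact integrable_T hfi hfs hg.continuous x
  · exact (integrable_T hfi hfs hg' x).aestronglyMeasurable
  · exact Eventually.of_forall fun y z hz => hM z hz y
  · exact hfi.abs.mul_const M
  · refine Eventually.of_forall fun y z _ => ?_
    have h1 : HasFDerivAt (fun z : E4 => z - y) (ContinuousLinearMap.id ℝ E4) z :=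
      (hasFDerivAt_id z).sub_const y
    have h2 : HasFDerivAt g (fderiv ℝ g (z - y)) (z - y) :=
      (hg.differentiable (by norm_num) _).hasFDerivAt
    have h3 := (h2.comp z h1).const_smul (f y)
    rw [ContinuousLinearMap.comp_id] at h3
    exact h3

theorem fderiv_T (hfi : Integrable f) (hfs : ∀ y, R < ‖y‖ → f y = 0) {g : E4 → F}
    (hg : ContDiff ℝ 1 g) : fderiv ℝ (T f g) = T f (fderiv ℝ g) := by
  ext1 x
  exact (hasFDerivAt_T hfi hfs hg x).fderiv

end

theorem contDiff_T_nat {f : E4 → ℝ} {R : ℝ} (hfi : Integrable f)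
    (hfs : ∀ y, R < ‖y‖ → f y = 0) (n : ℕ) :
    ∀ {F : Type} [NormedAddCommGroup F] [NormedSpace ℝ F] {g : E4 → F},
      ContDiff ℝ ∞ g → ContDiff ℝ n (T f g) := by
  induction n with
  | zero =>
    intro F _ _ g hg
    have h : Continuous (T f g) := continuous_iff_continuousAt.mpr fun x =>
      (hasFDerivAt_T hfi hfs (hg.of_le (by exact_mod_cast le_top)) x).continuousAt
    exact contDiff_zero.mpr h
  | succ n ih =>
    intro F _ _ g hg
    have hg1 : ContDiff ℝ 1 g := hg.of_le (by exact_mod_cast le_top)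
    have h : ContDiff ℝ ((n : WithTop ℕ∞) + 1) (T f g) := by
      rw [contDiff_succ_iff_fderiv]
      refine ⟨fun x => (hasFDerivAt_T hfi hfs hg1 x).differentiableAt, ?_, ?_⟩
      · intro h; exact absurd h (by simp)
      · rw [fderiv_T hfi hfs hg1]
        exact ih ((contDiff_infty_iff_fderiv.mp hg).2)
    exact_mod_cast h

theorem contDiff_T {f : E4 → ℝ} {R : ℝ} (hfi : Integrable f)
    (hfs : ∀ y, R < ‖y‖ → f y = 0) {F : Type} [NormedAddCommGroup F] [NormedSpace ℝ F]
    {g : E4 → F} (hg : ContDiff ℝ ∞ g) : ContDiff ℝ ∞ (T f g) :=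
  contDiff_infty.mpr fun n => contDiff_T_nat hfi hfs n hg

theorem norm_iter_T_le {f : E4 → ℝ} {R : ℝ} (hfi : Integrable f)
    (hfs : ∀ y, R < ‖y‖ → f y = 0) (n : ℕ) :
    ∀ {F : Type} [NormedAddCommGroup F] [NormedSpace ℝ F] {g : E4 → F},
      ContDiff ℝ ∞ g → ∀ x, ‖iteratedFDeriv ℝ n (T f g) x‖ ≤
        ∫ y, |f y| * ‖iteratedFDeriv ℝ n g (x - y)‖ := by
  induction n with
  | zero =>
    intro F _ _ g hg x
    simp only [norm_iteratedFDeriv_zero]
    refine (norm_integral_le_integral_norm _).trans (le_of_eq ?_)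
    congr 1
    ext1 y
    rw [norm_smul, Real.norm_eq_abs]
  | succ n ih =>
    intro F _ _ g hg x
    rw [← norm_iteratedFDeriv_fderiv, fderiv_T hfi hfs (hg.of_le (by exact_mod_cast le_top))]
    refine (ih ((contDiff_infty_iff_fderiv.mp hg).2) x).trans (le_of_eq ?_)
    congr 1
    ext1 y
    rw [← norm_iteratedFDeriv_fderiv]

theorem contDiff_laplacian {g : E4 → ℝ} (hg : ContDiff ℝ ∞ g) : ContDiff ℝ ∞ (Δ g) := by
  have h1 : ContDiff ℝ ∞ (fderiv ℝ (fderiv ℝ g)) :=
    (contDiff_infty_iff_fderiv.mp (contDiff_infty_iff_fderiv.mp hg).2).2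
  have h2 : (Δ g) = fun x => ∑ i, fderiv ℝ (fderiv ℝ g) x ((stdOrthonormalBasis ℝ E4) i)
      ((stdOrthonormalBasis ℝ E4) i) := by
    ext1 x; exact laplacian_eq_fderiv g x
  rw [h2]
  refine ContDiff.sum fun i _ => ?_
  exact (h1.clm_apply contDiff_const).clm_apply contDiff_const

theorem laplacian_T {f : E4 → ℝ} {R : ℝ} (hfi : Integrable f)
    (hfs : ∀ y, R < ‖y‖ → f y = 0) {g : E4 → ℝ} (hg : ContDiff ℝ ∞ g) :
    (Δ (T f g)) = T f (Δ g) := by
  ext1 x
  have hg1 : ContDiff ℝ ∞ (fderiv ℝ g) := (contDiff_infty_iff_fderiv.mp hg).2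
  have hg2 : ContDiff ℝ ∞ (fderiv ℝ (fderiv ℝ g)) := (contDiff_infty_iff_fderiv.mp hg1).2
  rw [laplacian_eq_fderiv, fderiv_T hfi hfs (hg.of_le (by exact_mod_cast le_top)),
    fderiv_T hfi hfs (hg1.of_le (by exact_mod_cast le_top))]
  have hint := integrable_T hfi hfs hg2.continuous x
  have h : ∀ v : E4, (T f (fderiv ℝ (fderiv ℝ g)) x) v v =
      ∫ y, f y • (fderiv ℝ (fderiv ℝ g) (x - y) v v) := by
    intro v
    unfold T
    rw [ContinuousLinearMap.integral_apply hint, ContinuousLinearMap.integral_apply]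
    · rfl
    · exact hint.apply_continuousLinearMap v
  simp only [h]
  rw [← integral_finsetSum]
  · unfold T
    congr 1
    ext1 y
    rw [laplacian_eq_fderiv, Finset.smul_sum]
  · intro i _
    exact (hint.apply_continuousLinearMap _).apply_continuousLinearMap _

end Pool.Agent.MP_e2b804_an
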