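import Pool.Agent.MP_e2b804_an.GSmall
open Real MeasureTheory Metric Filter Set
open scoped Topology ContDiff

noncomputable section
namespace Pool.Agent.MP_e2b804_an

theorem compact_margin {K : Set E4} (hK : IsCompact K) (hKO : K ⊆ Om) :
    ∃ r d : ℝ, 0 < d ∧ 0 ≤ r ∧ ∀ x ∈ K, |x 0| ≤ 2 - 2 * d ∧ ‖x‖ ≤ r := by
  rcases K.eq_empty_or_nonempty with h | hne
  · exact ⟨0, 1, one_pos, le_refl _, by simp [h]⟩
  · obtain ⟨x₀, hx₀, hmax⟩ := hK.exists_isMaxOn hne
      (f := fun x : E4 => |x 0|) (by fun_prop)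
    obtain ⟨r, hr⟩ := hK.isBounded.exists_norm_le
    have h2 : |x₀ 0| < 2 := by
      have := hKO hx₀
      rw [abs_lt]; exact ⟨by linarith [this.1], this.2⟩
    refine ⟨max r 0, (2 - |x₀ 0|) / 2, by linarith, le_max_right _ _, fun x hx => ⟨?_, ?_⟩⟩
    · have h3 : |x 0| ≤ |x₀ 0| := hmax hx
      linarith
    · exact (hr x hx).trans (le_max_left _ _)

theorem mem_Om_of_abs {x : E4} (h : |x 0| < 2) : x ∈ Om := by
  have := abs_lt.mp h
  exact ⟨this.1, this.2⟩

variable (A : Finset E4)

theorem T_eq (t : ℝ) (x : E4) :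
    T (f A t) (P0 (ep t)) x = ∫ y, f A t (x - y) * P0 (ep t) y := by
  unfold T
  have h := integral_sub_left_eq_self (fun y => f A t (x - y) * P0 (ep t) y) volume x
  rw [← h]
  congr 1
  ext1 y
  simp

theorem integrable_fP (t : ℝ) (x : E4) : Integrable (fun y => f A t (x - y) * P0 (ep t) y) := by
  have h := integrable_T (integrable_f A t) (f_supp A t) (continuous_P0 (ep_pos t)) x
  have h2 := h.comp_sub_left x
  simpa using h2

theorem ratio (hA : ∀ a ∈ A, a 0 = -1) {K : Set E4} (hK : IsCompact K) (hKO : K ⊆ Om) {η : ℝ}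
    (hη : 0 < η) : ∀ᶠ t : ℝ in atTop, ∀ x ∈ K,
      |D2 (u A t) x - 6 * Real.exp (4 * U A t x)| ≤ η * Real.exp (4 * U A t x) := by
  obtain ⟨r, d, hd, hr0, hKr⟩ := compact_margin hK hKO
  obtain ⟨C, hC, hfb⟩ := f_bound A hA
  set N : ℝ := (A.card : ℝ) with hN
  have hN0 : 0 ≤ N := by rw [hN]; positivity
  have h1d : ∀ᶠ t : ℝ in atTop, 1 / t ≤ d := by
    have : Tendsto (fun t : ℝ => 1 / t) atTop (𝓝 0) := tendsto_id.const_div_atTop 1
    exact (this.eventually (gt_mem_nhds hd)).mono fun t ht => ht.le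
  have h2d : ∀ᶠ t : ℝ in atTop, Real.exp (-(t ^ 4 / 2)) ≤ min d 1 := by
    have h : Tendsto (fun t : ℝ => Real.exp (-(t ^ 4 / 2))) atTop (𝓝 0) := by
      refine Real.tendsto_exp_atBot.comp (tendsto_neg_atTop_atBot.comp ?_)
      exact (tendsto_pow_atTop (by norm_num)).atTop_div_const (by norm_num)
    exact (h.eventually (gt_mem_nhds (by positivity : (0:ℝ) < min d 1))).mono fun t ht => ht.le
  have hexpη : ∀ᶠ t : ℝ in atTop, Real.exp (-t ^ 2) ≤ η / 3 := by
    have h : Tendsto (fun t : ℝ => Real.exp (-t ^ 2)) atTop (𝓝 0) :=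
      Real.tendsto_exp_atBot.comp (tendsto_neg_atTop_atBot.comp (tendsto_pow_atTop (by norm_num)))
    exact (h.eventually (gt_mem_nhds (by positivity : (0:ℝ) < η / 3))).mono fun t ht => ht.le
  filter_upwards [near_two hA (by positivity : 0 < η / 3), hfb, G_small A (r + 1), G_crude A (r + 1),
    expU_lower A r, h1d, h2d, hexpη, eventually_ge_atTop (r + 1), eventually_ge_atTop 1,
    ev_sq_le_four (16 * N + 6 + 8), ev_pow_le_exp 0 (16 * (C + (102 + 192 * N)))]
    with t hn2 hf1 hGs hGc hlow ht1 ht2 ht3 ht4 ht5 ht6 ht7 x hx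
  obtain ⟨hx0, hxr⟩ := hKr x hx
  set ρ' := Real.exp (-(t ^ 4 / 2)) with hρ'
  have hρ0 : 0 < ρ' := Real.exp_pos _
  have hρd : ρ' ≤ d := ht2.trans (min_le_left _ _)
  have hρ1 : ρ' ≤ 1 := ht2.trans (min_le_right _ _)
  have hxO : x ∈ Om := hKO hx
  have he := ep_pos t
  set b1 : ℝ := (η / 3) * Real.exp (4 * U A t x) + Real.exp (-(7 * t ^ 2)) with hb1
  set b2 : ℝ := C + |G A t x| with hb2
  have hb1p : 0 ≤ b1 := by positivity
  have hb2p : 0 ≤ b2 := by positivity
  -- pointwise estimate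
  have hρt : ρ' ≤ 1 / t ^ 2 := by
    rw [le_div_iff₀ (by positivity), hρ', Real.exp_neg, inv_mul_le_iff₀ (Real.exp_pos _), mul_one]
    have e1 := Real.add_one_le_exp (t ^ 4 / 2)
    have : t ^ 2 ≤ t ^ 4 / 2 + 1 := by nlinarith [sq_nonneg (t ^ 2 - 1)]
    linarith
  have hpt : ∀ y, |f A t (x - y) - G A t x| * P0 (ep t) y ≤
      b1 * P0 (ep t) y + b2 * ({y : E4 | ρ' ≤ ‖y‖}.indicator (P0 (ep t)) y) := by
    intro y
    have hP := P0_nonneg (ep t) y
    by_cases hy : ρ' ≤ ‖y‖
    · rw [indicator_of_mem (by exact hy)]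
      have e1 : |f A t (x - y) - G A t x| ≤ b2 := by
        have e2 := abs_sub (f A t (x - y)) (G A t x)
        have e3 := hf1 (x - y)
        have e4 : C * Real.exp (-4 * t) ≤ C := by
          have : Real.exp (-4 * t) ≤ 1 := by rw [Real.exp_le_one_iff]; linarith
          nlinarith
        rw [hb2]; linarith
      have : 0 ≤ b1 * P0 (ep t) y := by positivity
      nlinarith
    · rw [indicator_of_notMem (by exact hy), mul_zero, add_zero]
      push Not at hy
      refine mul_le_mul_of_nonneg_right ?_ hP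
      have hxy0 : |(x - y) 0| ≤ 2 - d := by
        have e1 : |y 0| ≤ ‖y‖ := by
          have := PiLp.norm_apply_le y 0
          simpa using this
        have e2 : (x - y) 0 = x 0 - y 0 := rfl
        rw [e2]
        have := abs_sub (x 0) (y 0)
        linarith
      have hxyO : x - y ∈ Om := mem_Om_of_abs (by linarith)
      have hxyr : ‖x - y‖ ≤ r + 1 := (norm_sub_le _ _).trans (by linarith)
      by_cases hS : ∀ a ∈ A, 1 / t ^ 2 ≤ ‖x - y - a‖
      · have hmem : x - y ∈ S A t := ⟨by linarith, by linarith, hS⟩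
        have e1 : f A t (x - y) = G A t (x - y) := indicator_of_mem hmem _
        rw [e1, abs_sub_comm]
        have e2 := hGs x hxO (x - y) hxyO (by linarith) hxyr (by simpa using hy.le)
        rw [hb1]
        have : 0 ≤ (η / 3) * Real.exp (4 * U A t x) := by positivity
        linarith
      · push Not at hS
        obtain ⟨a, ha, hxa⟩ := hS
        have e1 : f A t (x - y) = 0 := by
          apply indicator_of_notMem
          intro hmem
          exact absurd (hmem.2.2 a ha) (not_le.mpr hxa)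
        rw [e1, zero_sub, abs_neg]
        have e2 : ‖x - a‖ ≤ 2 / t ^ 2 := by
          have e3 : x - a = (x - y - a) + y := by abel
          rw [e3]
          have e4 : 2 / t ^ 2 = 1 / t ^ 2 + 1 / t ^ 2 := by ring
          have := norm_add_le (x - y - a) y
          linarith
        have e3 := hn2 a ha x e2
        rw [hb1]
        have : 0 < Real.exp (-(7 * t ^ 2)) := Real.exp_pos _
        linarith
  -- integral representation
  have hPint := integrable_P0 he
  have hrep : D2 (u A t) x - 6 * Real.exp (4 * U A t x) =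
      (6 / π ^ 2) * ∫ y, (f A t (x - y) - G A t x) * P0 (ep t) y := by
    have e1 : ∫ y, (f A t (x - y) - G A t x) * P0 (ep t) y =
        (∫ y, f A t (x - y) * P0 (ep t) y) - G A t x * (π ^ 2 / 6) := by
      have : ∀ y, (f A t (x - y) - G A t x) * P0 (ep t) y =
          f A t (x - y) * P0 (ep t) y - G A t x * P0 (ep t) y := fun y => by ring
      simp only [this]
      rw [integral_sub (integrable_fP A t x) (hPint.const_mul _), integral_const_mul,
        integral_P0 he]
    rw [e1, ← T_eq, D2_u]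
    unfold G
    have : π ≠ 0 := Real.pi_ne_zero
    field_simp
    ring
  have hmS : MeasurableSet {y : E4 | ρ' ≤ ‖y‖} := measurableSet_le measurable_const measurable_norm
  have hbound : |∫ y, (f A t (x - y) - G A t x) * P0 (ep t) y| ≤
      b1 * (π ^ 2 / 6) + b2 * (16 * (ep t / ρ') ^ 4 * (π ^ 2 / 6)) := by
    rw [← Real.norm_eq_abs]
    have hI : Integrable (fun y => b1 * P0 (ep t) y +
        b2 * ({y : E4 | ρ' ≤ ‖y‖}.indicator (P0 (ep t)) y)) :=
      (hPint.const_mul _).add ((hPint.indicator hmS).const_mul _)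
    refine (norm_integral_le_of_norm_le hI (Eventually.of_forall fun y => ?_)).trans ?_
    · rw [norm_mul, Real.norm_eq_abs, Real.norm_eq_abs, abs_of_nonneg (P0_nonneg (ep t) y)]
      exact hpt y
    · rw [integral_add (hPint.const_mul _) ((hPint.indicator hmS).const_mul _),
        integral_const_mul, integral_const_mul, integral_P0 he, integral_indicator hmS]
      have := integral_P0_tail he hρ0
      gcongr
  rw [hrep, abs_mul, abs_of_pos (by positivity)]
  have hfin : (6 / π ^ 2) * |∫ y, (f A t (x - y) - G A t x) * P0 (ep t) y| ≤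
      b1 + 16 * b2 * (ep t / ρ') ^ 4 := by
    calc (6 / π ^ 2) * |∫ y, (f A t (x - y) - G A t x) * P0 (ep t) y|
        ≤ (6 / π ^ 2) * (b1 * (π ^ 2 / 6) + b2 * (16 * (ep t / ρ') ^ 4 * (π ^ 2 / 6))) := by gcongr
      _ = _ := by
        have : π ≠ 0 := Real.pi_ne_zero
        field_simp
  refine hfin.trans ?_
  have hlow' := hlow x hxO hxr
  have e7 : Real.exp (-(7 * t ^ 2)) ≤ (η / 3) * Real.exp (4 * U A t x) := by
    calc Real.exp (-(7 * t ^ 2)) = Real.exp (-t ^ 2) * Real.exp (-(6 * t ^ 2)) := by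
          rw [← Real.exp_add]; congr 1; ring
      _ ≤ (η / 3) * Real.exp (4 * U A t x) := by gcongr
  have e8 : 16 * b2 * (ep t / ρ') ^ 4 ≤ Real.exp (-(7 * t ^ 2)) := by
    have c1 : ep t / ρ' = Real.exp (-(t ^ 4 / 2)) := by
      rw [hρ']; unfold ep
      rw [← Real.exp_sub]; congr 1; ring
    have c2 : (ep t / ρ') ^ 4 = Real.exp (-(2 * t ^ 4)) := by
      rw [c1, ← Real.exp_nat_mul]; congr 1; push_cast; ring
    have c3 := hGc x hxO (by linarith)
    have c4 : b2 ≤ (C + (102 + 192 * N)) * Real.exp ((16 * N + 6) * t ^ 2) := by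
      have : 1 ≤ Real.exp ((16 * N + 6) * t ^ 2) := by apply Real.one_le_exp; positivity
      rw [hb2]
      nlinarith
    have c5 : 16 * (C + (102 + 192 * N)) ≤ Real.exp (t ^ 2) := by
      have e1 : 16 * (C + (102 + 192 * N)) ≤ Real.exp t := by simpa using ht7
      have e2 : Real.exp t ≤ Real.exp (t ^ 2) := by
        apply Real.exp_le_exp.mpr; nlinarith
      linarith
    rw [c2]
    calc 16 * b2 * Real.exp (-(2 * t ^ 4))
        ≤ 16 * ((C + (102 + 192 * N)) * Real.exp ((16 * N + 6) * t ^ 2)) * Real.exp (-(2 * t ^ 4)) := by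
          gcongr
      _ = (16 * (C + (102 + 192 * N))) * Real.exp ((16 * N + 6) * t ^ 2) * Real.exp (-(2 * t ^ 4)) := by
          ring
      _ ≤ Real.exp (t ^ 2) * Real.exp ((16 * N + 6) * t ^ 2) * Real.exp (-(2 * t ^ 4)) := by gcongr
      _ = Real.exp (t ^ 2 + (16 * N + 6) * t ^ 2 + -(2 * t ^ 4)) := by
          rw [← Real.exp_add, ← Real.exp_add]
      _ ≤ Real.exp (-(7 * t ^ 2)) := by
          apply Real.exp_le_exp.mpr
          have : 0 ≤ t ^ 4 := by positivity
          nlinarith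
  rw [hb1]
  linarith

end Pool.Agent.MP_e2b804_an
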