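import Pool.Agent.MP_e2b804_an.Potential
open Real MeasureTheory Metric Filter Set Laplacian
open scoped Topology ContDiff

noncomputable section
namespace Pool.Agent.MP_e2b804_an

/-! ### linearity of the bi-Laplacian -/

/-- the bi-Laplacian -/
def D2 (f : E4 → ℝ) : E4 → ℝ := Δ (Δ f)

theorem lap_add {f g : E4 → ℝ} (hf : ContDiff ℝ ∞ f) (hg : ContDiff ℝ ∞ g) :
    (Δ (fun x => f x + g x)) = fun x => (Δ f) x + (Δ g) x := by
  ext1 x
  exact (contDiff_infty.mp hf 2).contDiffAt.laplacian_add (contDiff_infty.mp hg 2).contDiffAt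

theorem lap_smul (c : ℝ) {f : E4 → ℝ} (hf : ContDiff ℝ ∞ f) :
    (Δ (fun x => c * f x)) = fun x => c * (Δ f) x := by
  ext1 x
  exact InnerProductSpace.laplacian_smul c (contDiff_infty.mp hf 2).contDiffAt

theorem D2_add {f g : E4 → ℝ} (hf : ContDiff ℝ ∞ f) (hg : ContDiff ℝ ∞ g) (x : E4) :
    D2 (fun x => f x + g x) x = D2 f x + D2 g x := by
  unfold D2
  rw [lap_add hf hg, lap_add (contDiff_laplacian hf) (contDiff_laplacian hg)]

theorem D2_smul (c : ℝ) {f : E4 → ℝ} (hf : ContDiff ℝ ∞ f) (x : E4) :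
    D2 (fun x => c * f x) x = c * D2 f x := by
  unfold D2
  rw [lap_smul c hf, lap_smul c (contDiff_laplacian hf)]

theorem D2_sub {f g : E4 → ℝ} (hf : ContDiff ℝ ∞ f) (hg : ContDiff ℝ ∞ g) (x : E4) :
    D2 (fun x => f x - g x) x = D2 f x - D2 g x := by
  have h : (fun x => f x - g x) = fun x => f x + (-1) * g x := by ext1 x; ring
  rw [h, D2_add hf (contDiff_const.mul hg), D2_smul (-1) hg]
  ring

theorem D2_const (c : ℝ) (x : E4) : D2 (fun _ => c) x = 0 := by
  unfold D2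
  have h : (Δ (fun _ : E4 => c)) = fun _ => 0 := by
    ext1 x
    rw [laplacian_eq_fderiv]
    have : fderiv ℝ (fun _ : E4 => c) = fun _ => 0 := by ext1 x; simp
    rw [this]
    simp
  rw [h]
  rw [laplacian_eq_fderiv]
  have : fderiv ℝ (fun _ : E4 => (0:ℝ)) = fun _ => 0 := by ext1 x; simp
  rw [this]
  simp

theorem D2_sum {ι : Type*} (s : Finset ι) {f : ι → E4 → ℝ} (hf : ∀ i ∈ s, ContDiff ℝ ∞ (f i))
    (x : E4) : D2 (fun x => ∑ i ∈ s, f i x) x = ∑ i ∈ s, D2 (f i) x := by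
  classical
  induction s using Finset.induction_on with
  | empty => simp [D2_const]
  | insert i s hi ih =>
    simp only [Finset.sum_insert hi]
    rw [D2_add (hf i (Finset.mem_insert_self _ _))
      (ContDiff.sum fun j hj => hf j (Finset.mem_insert_of_mem hj)),
      ih fun j hj => hf j (Finset.mem_insert_of_mem hj)]

/-! ### the profile -/

/-- the profile `φ` -/
def phi (x : E4) : ℝ := x 0 - x 0 ^ 3 / 3 - 2 / 3

/-- the domain `(-2,2) × ℝ^3` -/
def Om : Set E4 := {x | -2 < x 0 ∧ x 0 < 2}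

theorem isOpen_Om : IsOpen Om := by
  have h : Continuous fun x : E4 => x 0 := by fun_prop
  exact (isOpen_lt continuous_const h).inter (isOpen_lt h continuous_const)

/-- the first coordinate -/
def pr0 : E4 →L[ℝ] ℝ := EuclideanSpace.proj 0

theorem pr0_apply (x : E4) : pr0 x = x 0 := rfl

theorem contDiff_phi : ContDiff ℝ ∞ phi := by
  have h : ContDiff ℝ ∞ (fun x : E4 => pr0 x - pr0 x ^ 3 / 3 - 2 / 3) := by fun_prop
  exact h

theorem hasFDerivAt_phi (x : E4) : HasFDerivAt phi ((1 - pr0 x ^ 2) • pr0) x := by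
  have h0 : HasFDerivAt (fun x : E4 => pr0 x) pr0 x := pr0.hasFDerivAt
  have h1 : HasFDerivAt (fun x : E4 => pr0 x - (1/3) * pr0 x ^ 3 - 2 / 3) _ x :=
    (h0.sub ((h0.pow 3).const_mul (1/3))).sub_const (2/3)
  have h2 : phi = fun x : E4 => pr0 x - (1/3) * pr0 x ^ 3 - 2 / 3 := by
    ext1 x; simp only [phi, pr0_apply]; ring
  rw [h2]
  refine h1.congr_fderiv ?_
  ext v
  simp
  ring

theorem D2_phi (x : E4) : D2 phi x = 0 := by
  have h1 : fderiv ℝ phi = fun x => (1 - pr0 x ^ 2) • pr0 := by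
    ext1 x; exact (hasFDerivAt_phi x).fderiv
  have h2 : ∀ x v : E4, fderiv ℝ (fderiv ℝ phi) x v v = -2 * pr0 x * pr0 v ^ 2 := by
    intro x v
    rw [h1]
    have h0 : HasFDerivAt (fun x : E4 => pr0 x) pr0 x := pr0.hasFDerivAt
    have h3 : HasFDerivAt (fun x : E4 => (1 - pr0 x ^ 2) • pr0) _ x :=
      ((h0.pow 2).const_sub 1).smul_const pr0
    rw [h3.fderiv]
    simp
    ring
  have h3 : (Δ phi) = fun x => ((∑ i, -2 * pr0 ((stdOrthonormalBasis ℝ E4) i) ^ 2) • pr0) x := by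
    ext1 x
    rw [laplacian_eq_fderiv]
    simp only [h2, smul_apply, smul_eq_mul]
    rw [Finset.sum_mul]
    refine Finset.sum_congr rfl fun i _ => ?_
    ring
  unfold D2
  rw [h3, laplacian_eq_fderiv]
  have h4 : fderiv ℝ (fun x : E4 => ((∑ i, -2 * pr0 ((stdOrthonormalBasis ℝ E4) i) ^ 2) • pr0) x)
      = fun _ => ((∑ i, -2 * pr0 ((stdOrthonormalBasis ℝ E4) i) ^ 2) • pr0) := by
    ext1 x; exact ContinuousLinearMap.fderiv _
  rw [h4]
  simp

theorem phi_nonpos {x : E4} (hx : x ∈ Om) : phi x ≤ 0 := by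
  have h1 : phi x = -(1/3) * (x 0 - 1) ^ 2 * (x 0 + 2) := by unfold phi; ring
  rw [h1]
  have : 0 < x 0 + 2 := by linarith [hx.1]
  nlinarith [mul_nonneg (sq_nonneg (x 0 - 1)) this.le]

theorem phi_add {x : E4} : phi x + 4 / 3 = (1/3) * (x 0 + 1) ^ 2 * (2 - x 0) := by
  unfold phi; ring

theorem phi_ge {x : E4} (hx : x ∈ Om) : -(4/3) ≤ phi x := by
  have h := phi_add (x := x)
  have : 0 < 2 - x 0 := by linarith [hx.2]
  nlinarith [mul_nonneg (sq_nonneg (x 0 + 1)) this.le]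

/-- the auxiliary pole outside of the domain -/
def pt : E4 := EuclideanSpace.single 0 (-3)

theorem one_le_norm_sub_pt {x : E4} (hx : x ∈ Om) : 1 ≤ ‖x - pt‖ := by
  have h1 : |x 0 + 3| ≤ ‖x - pt‖ := by
    have := PiLp.norm_apply_le (x - pt) 0
    simpa [pt] using this
  have h2 : 1 ≤ |x 0 + 3| := by
    rw [le_abs]; left; linarith [hx.1]
  linarith

theorem contDiff_L_sub {δ : ℝ} (hδ : 0 < δ) (a : E4) :
    ContDiff ℝ ∞ (fun x : E4 => L δ (x - a)) :=
  (contDiff_L hδ).comp (contDiff_id.sub contDiff_const)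

theorem D2_L {δ : ℝ} (hδ : 0 < δ) (a x : E4) :
    D2 (fun x => L δ (x - a)) x = -96 * P0 δ (x - a) := by
  unfold D2 P0
  rw [laplacian_laplacian_L finrank_E4 hδ]
  ring

/-! ### parameters -/

/-- `ε` -/
def ep (t : ℝ) : ℝ := Real.exp (-t ^ 4)

theorem ep_pos (t : ℝ) : 0 < ep t := Real.exp_pos _

variable (A : Finset E4)

/-- constants in the concentration scales -/
def cc (a : E4) : ℝ :=
  ((A.card : ℝ) - 3 / 4) * Real.log (‖a - pt‖ ^ 2) - ∑ b ∈ A.erase a, Real.log (‖a - b‖ ^ 2)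

/-- the concentration scale at `a` -/
def dl (t : ℝ) (a : E4) : ℝ := Real.exp (-(4/3) * t ^ 2 - t + cc A a) / 2

theorem dl_pos (t : ℝ) (a : E4) : 0 < dl A t a := by unfold dl; positivity

/-- the explicit part of the solution -/
def U (t : ℝ) (x : E4) : ℝ :=
  t ^ 2 * phi x - t - (3/4) * L (ep t) (x - pt)
    + ∑ a ∈ A, (L (ep t) (x - pt) - L (dl A t a) (x - a))

theorem contDiff_U (t : ℝ) : ContDiff ℝ ∞ (U A t) := by
  unfold U
  refine ((contDiff_const.mul contDiff_phi).sub contDiff_const).sub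
    (contDiff_const.mul (contDiff_L_sub (ep_pos t) pt)) |>.add ?_
  exact ContDiff.sum fun a _ => (contDiff_L_sub (ep_pos t) pt).sub (contDiff_L_sub (dl_pos A t a) a)

theorem D2_U (t : ℝ) (x : E4) :
    D2 (U A t) x = 96 * ∑ a ∈ A, P0 (dl A t a) (x - a)
      - 96 * ((A.card : ℝ) - 3 / 4) * P0 (ep t) (x - pt) := by
  have hp := contDiff_L_sub (ep_pos t) pt
  have ha : ∀ a ∈ A, ContDiff ℝ ∞ (fun x => L (ep t) (x - pt) - L (dl A t a) (x - a)) :=
    fun a _ => hp.sub (contDiff_L_sub (dl_pos A t a) a)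
  unfold U
  rw [D2_add (((contDiff_const.mul contDiff_phi).sub contDiff_const).sub (contDiff_const.mul hp))
    (ContDiff.sum ha), D2_sub ((contDiff_const.mul contDiff_phi).sub contDiff_const)
    (contDiff_const.mul hp), D2_sub (contDiff_const.mul contDiff_phi) contDiff_const,
    D2_smul _ contDiff_phi, D2_smul _ hp, D2_const, D2_phi, D2_sum A ha]
  have h : ∀ a ∈ A, D2 (fun x => L (ep t) (x - pt) - L (dl A t a) (x - a)) x =
      -96 * P0 (ep t) (x - pt) + 96 * P0 (dl A t a) (x - a) := by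
    intro a _
    rw [D2_sub hp (contDiff_L_sub (dl_pos A t a) a), D2_L (ep_pos t), D2_L (dl_pos A t a)]
    ring
  rw [Finset.sum_congr rfl h, Finset.sum_add_distrib, D2_L (ep_pos t)]
  simp only [Finset.sum_const, nsmul_eq_mul, ← Finset.mul_sum]
  ring

end Pool.Agent.MP_e2b804_an
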