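import Pool.Agent.MP_e2b804_an.Far
open Real MeasureTheory Metric Filter Set
open scoped Topology ContDiff

noncomputable section
namespace Pool.Agent.MP_e2b804_an

variable (A : Finset E4)

/-- the region where the density is corrected -/
def S (t : ℝ) : Set E4 := {x | |x 0| ≤ 2 - 1 / t ∧ ‖x‖ ≤ t ∧ ∀ a ∈ A, 1 / t ^ 2 ≤ ‖x - a‖}

theorem isClosed_S (t : ℝ) : IsClosed (S A t) := by
  have h1 : IsClosed {x : E4 | |x 0| ≤ 2 - 1 / t} :=
    isClosed_le (by fun_prop) continuous_const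
  have h2 : IsClosed {x : E4 | ‖x‖ ≤ t} := isClosed_le (by fun_prop) continuous_const
  have h3 : IsClosed {x : E4 | ∀ a ∈ A, 1 / t ^ 2 ≤ ‖x - a‖} := by
    have : {x : E4 | ∀ a ∈ A, 1 / t ^ 2 ≤ ‖x - a‖} = ⋂ a ∈ A, {x : E4 | 1 / t ^ 2 ≤ ‖x - a‖} := by
      ext x; simp
    rw [this]
    exact isClosed_biInter fun a _ => isClosed_le continuous_const (by fun_prop)
  have : S A t = {x : E4 | |x 0| ≤ 2 - 1 / t} ∩ ({x : E4 | ‖x‖ ≤ t} ∩
      {x : E4 | ∀ a ∈ A, 1 / t ^ 2 ≤ ‖x - a‖}) := rfl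
  rw [this]
  exact h1.inter (h2.inter h3)

theorem S_subset_closedBall (t : ℝ) : S A t ⊆ closedBall 0 t := by
  intro x hx
  rw [mem_closedBall_zero_iff]
  exact hx.2.1

theorem isCompact_S (t : ℝ) : IsCompact (S A t) :=
  (isCompact_closedBall 0 t).of_isClosed_subset (isClosed_S A t) (S_subset_closedBall A t)

theorem S_subset_Om {t : ℝ} (ht : 0 < t) : S A t ⊆ Om := by
  intro x hx
  have h1 := abs_le.mp hx.1
  have h2 : 0 < 1 / t := by positivity
  constructor <;> linarith [h1.1, h1.2]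

theorem contDiff_D2U (t : ℝ) : ContDiff ℝ ∞ (D2 (U A t)) :=
  contDiff_laplacian (contDiff_laplacian (contDiff_U A t))

theorem continuous_G (t : ℝ) : Continuous (G A t) := by
  unfold G
  exact (continuous_const.mul (Real.continuous_exp.comp
    (continuous_const.mul (contDiff_U A t).continuous))).sub (contDiff_D2U A t).continuous

/-- the correction of the density -/
def f (t : ℝ) : E4 → ℝ := (S A t).indicator (G A t)

theorem integrable_f (t : ℝ) : Integrable (f A t) := by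
  unfold f
  rw [integrable_indicator_iff (isClosed_S A t).measurableSet]
  exact (continuous_G A t).continuousOn.integrableOn_compact (isCompact_S A t)

theorem f_supp (t : ℝ) : ∀ y, t < ‖y‖ → f A t y = 0 := by
  intro y hy
  unfold f
  rw [indicator_of_notMem]
  intro h
  exact absurd h.2.1 (not_le.mpr hy)

theorem f_bound (hA : ∀ a ∈ A, a 0 = -1) :
    ∃ C : ℝ, 0 < C ∧ ∀ᶠ t : ℝ in atTop, ∀ x, |f A t x| ≤ C * Real.exp (-4 * t) := by
  obtain ⟨C, hC, h⟩ := far_three A hA
  refine ⟨C, hC, ?_⟩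
  filter_upwards [h, eventually_gt_atTop 0] with t h1 h2 x
  unfold f
  by_cases hx : x ∈ S A t
  · rw [indicator_of_mem hx]
    exact h1 x (S_subset_Om A h2 hx) hx.2.2
  · rw [indicator_of_notMem hx, abs_zero]
    positivity

/-- the small correction of the solution -/
def v (t : ℝ) (x : E4) : ℝ := -(1 / (16 * π ^ 2)) * T (f A t) (L (ep t)) x

theorem contDiff_TfL (t : ℝ) : ContDiff ℝ ∞ (T (f A t) (L (ep t) : E4 → ℝ)) :=
  contDiff_T (integrable_f A t) (f_supp A t) (contDiff_L (ep_pos t))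

theorem contDiff_v (t : ℝ) : ContDiff ℝ ∞ (v A t) := contDiff_const.mul (contDiff_TfL A t)

theorem D2_T {f : E4 → ℝ} {R : ℝ} (hfi : Integrable f)
    (hfs : ∀ y, R < ‖y‖ → f y = 0) {g : E4 → ℝ} (hg : ContDiff ℝ ∞ g) :
    D2 (T f g) = T f (D2 g) := by
  unfold D2
  rw [laplacian_T hfi hfs hg, laplacian_T hfi hfs (contDiff_laplacian hg)]

theorem D2_L' {δ : ℝ} (hδ : 0 < δ) : D2 (L δ : E4 → ℝ) = fun x => -96 * P0 δ x := by
  ext1 x
  have := D2_L hδ 0 x
  simpa using this

theorem D2_v (t : ℝ) (x : E4) : D2 (v A t) x = (6 / π ^ 2) * T (f A t) (P0 (ep t)) x := by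
  unfold v
  rw [D2_smul _ (contDiff_TfL A t), D2_T (integrable_f A t) (f_supp A t) (contDiff_L (ep_pos t)),
    D2_L' (ep_pos t)]
  unfold T
  simp only [smul_eq_mul]
  have h : ∀ y, f A t y * (-96 * P0 (ep t) (x - y)) = -96 * (f A t y * P0 (ep t) (x - y)) := by
    intro y; ring
  simp only [h]
  rw [integral_const_mul]
  have : π ≠ 0 := Real.pi_ne_zero
  field_simp
  ring

/-- the solutions -/
def u (t : ℝ) (x : E4) : ℝ := U A t x + v A t x

theorem contDiff_u (t : ℝ) : ContDiff ℝ ∞ (u A t) := (contDiff_U A t).add (contDiff_v A t)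

theorem D2_u (t : ℝ) (x : E4) :
    D2 (u A t) x = D2 (U A t) x + (6 / π ^ 2) * T (f A t) (P0 (ep t)) x := by
  unfold u
  rw [D2_add (contDiff_U A t) (contDiff_v A t), D2_v]

/-- the coefficients -/
def V (t : ℝ) (x : E4) : ℝ := D2 (u A t) x * Real.exp (-(4 * u A t x))

theorem equation (t : ℝ) (x : E4) : D2 (u A t) x = V A t x * Real.exp (4 * u A t x) := by
  unfold V
  rw [mul_assoc, ← Real.exp_add]
  simp

theorem continuous_V (t : ℝ) : Continuous (V A t) := by
  unfold V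
  exact (contDiff_laplacian (contDiff_laplacian (contDiff_u A t))).continuous.mul
    (Real.continuous_exp.comp (continuous_const.mul (contDiff_u A t).continuous).neg)

/-! ### size of `v` -/

theorem log_ep (t : ℝ) : Real.log (ep t) = -t ^ 4 := by unfold ep; rw [Real.log_exp]

theorem abs_L_le {t : ℝ} (ht : 0 ≤ t) {x y : E4} (hy : ‖y‖ ≤ t) :
    |L (ep t) (x - y)| ≤ 2 * t ^ 4 + 2 * t + 2 * Real.log (1 + ‖x‖) := by
  have he := ep_pos t
  have he1 := ep_le_one (t := t)
  have hx0 := norm_nonneg x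
  have hy0 := norm_nonneg y
  have hz0 := norm_nonneg (x - y)
  rw [L_eq, abs_le]
  have hlx : 0 ≤ Real.log (1 + ‖x‖) := Real.log_nonneg (by linarith)
  have ht4 : 0 ≤ t ^ 4 := by positivity
  constructor
  · have h1 : Real.log (ep t ^ 2) ≤ Real.log (‖x - y‖ ^ 2 + ep t ^ 2) := by
      apply Real.log_le_log (by positivity)
      nlinarith
    rw [Real.log_pow, log_ep] at h1
    push_cast at h1
    linarith
  · have h2 : ‖x - y‖ ^ 2 + ep t ^ 2 ≤ ((1 + ‖x‖) * (1 + ‖y‖)) ^ 2 := by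
      have h3 : ‖x - y‖ ≤ ‖x‖ + ‖y‖ := norm_sub_le _ _
      have h4 : ep t ^ 2 ≤ 1 := by nlinarith
      have h5 : ‖x - y‖ ^ 2 ≤ (‖x‖ + ‖y‖) ^ 2 := by gcongr
      have h6 : 0 ≤ ‖x‖ * ‖y‖ := by positivity
      nlinarith
    have h7 : Real.log (‖x - y‖ ^ 2 + ep t ^ 2) ≤ Real.log (((1 + ‖x‖) * (1 + ‖y‖)) ^ 2) :=
      Real.log_le_log (by positivity) h2
    rw [Real.log_pow, Real.log_mul (by positivity) (by positivity)] at h7
    have h8 : Real.log (1 + ‖y‖) ≤ ‖y‖ := by
      have := Real.log_le_sub_one_of_pos (show 0 < 1 + ‖y‖ by linarith)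
      linarith
    push_cast at h7
    linarith

theorem vol_closedBall (t : ℝ) (ht : 0 ≤ t) :
    (volume : Measure E4).real (closedBall 0 t) = π ^ 2 / 2 * t ^ 4 := by
  rw [Measure.real, InnerProductSpace.volume_closedBall_of_dim_even (k := 2) (by simp)]
  simp [ENNReal.toReal_ofReal (show (0:ℝ) ≤ π ^ 2 / 2 by positivity), Nat.factorial,
    ENNReal.toReal_ofReal ht]
  ring

theorem v_bound (hA : ∀ a ∈ A, a 0 = -1) {η : ℝ} (hη : 0 < η) :
    ∀ᶠ t : ℝ in atTop, ∀ x, |v A t x| ≤ η * (1 + Real.log (1 + ‖x‖)) := by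
  obtain ⟨C, hC, h⟩ := f_bound A hA
  have hC1 : ∀ᶠ t : ℝ in atTop, (C / 32 * 6 / η) * t ^ 8 ≤ Real.exp t := ev_pow_le_exp 8 _
  filter_upwards [h, hC1, eventually_ge_atTop 1] with t h1 h2 h3 x
  have hl : 0 ≤ Real.log (1 + ‖x‖) := Real.log_nonneg (by linarith [norm_nonneg x])
  have key : |T (f A t) (L (ep t)) x| ≤
      (C * Real.exp (-4 * t) * (2 * t ^ 4 + 2 * t + 2 * Real.log (1 + ‖x‖))) * (π ^ 2 / 2 * t ^ 4) := by
    unfold T
    rw [← Real.norm_eq_abs]
    have e1 : ∀ y, ‖f A t y • L (ep t) (x - y)‖ ≤ (closedBall (0:E4) t).indicator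
        (fun _ => C * Real.exp (-4 * t) * (2 * t ^ 4 + 2 * t + 2 * Real.log (1 + ‖x‖))) y := by
      intro y
      by_cases hy : ‖y‖ ≤ t
      · rw [indicator_of_mem (by simpa using hy), norm_smul, Real.norm_eq_abs, Real.norm_eq_abs]
        have := h1 y
        have := abs_L_le (by linarith : 0 ≤ t) (x := x) hy
        gcongr
      · push Not at hy
        rw [f_supp A t y hy]
        simp only [zero_smul, norm_zero]
        apply indicator_nonneg
        intro z _
        positivity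
    refine (norm_integral_le_of_norm_le ?_ (Eventually.of_forall e1)).trans ?_
    · rw [integrable_indicator_iff measurableSet_closedBall]
      exact integrableOn_const measure_closedBall_lt_top.ne
    · rw [integral_indicator measurableSet_closedBall, setIntegral_const,
        vol_closedBall t (by linarith), smul_eq_mul, mul_comm]
  unfold v
  rw [abs_mul, abs_neg, abs_of_pos (by positivity)]
  have hπ : 0 < π := Real.pi_pos
  have ht4 : 1 ≤ t ^ 4 := one_le_pow₀ h3
  have ht4' : t ≤ t ^ 4 := by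
    have : t ^ 4 = t * t ^ 3 := by ring
    have : 1 ≤ t ^ 3 := one_le_pow₀ h3
    nlinarith
  have h4 : 2 * t ^ 4 + 2 * t + 2 * Real.log (1 + ‖x‖) ≤ 6 * t ^ 4 * (1 + Real.log (1 + ‖x‖)) := by
    nlinarith
  calc 1 / (16 * π ^ 2) * |T (f A t) (L (ep t)) x|
      ≤ 1 / (16 * π ^ 2) * ((C * Real.exp (-4 * t) * (6 * t ^ 4 * (1 + Real.log (1 + ‖x‖)))) * (π ^ 2 / 2 * t ^ 4)) := by
        gcongr
        refine key.trans ?_
        gcongr
    _ = ((C / 32 * 6) * t ^ 8 * Real.exp (-4 * t)) * (1 + Real.log (1 + ‖x‖)) := by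
        field_simp
        ring
    _ ≤ η * (1 + Real.log (1 + ‖x‖)) := by
        have h5 : (C / 32 * 6) * t ^ 8 * Real.exp (-4 * t) ≤ η := by
          have h6 : (C / 32 * 6) * t ^ 8 ≤ η * Real.exp t := by
            have : (C / 32 * 6 / η) * t ^ 8 = ((C / 32 * 6) * t ^ 8) / η := by ring
            rw [this, div_le_iff₀ hη] at h2
            linarith
          have h7 : Real.exp (-4 * t) ≤ Real.exp (-t) := by
            apply Real.exp_le_exp.mpr; linarith
          calc (C / 32 * 6) * t ^ 8 * Real.exp (-4 * t) ≤ (η * Real.exp t) * Real.exp (-t) := by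
                gcongr
            _ = η := by rw [mul_assoc, ← Real.exp_add]; simp
        gcongr

end Pool.Agent.MP_e2b804_an
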